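import Pool.Agent.H373.PG.Ind3

/-!
# Affine groups
-/

set_option autoImplicit false
set_option linter.unusedSectionVars false
set_option linter.style.haveILetI false

open scoped BigOperators Classical

noncomputable section

namespace Pool.Agent.H373.PG

open SemidirectProduct
open Pool.Agent.Helper884 Pool.Agent.H254R3.IN
open Pool.Agent.K3h3.MK (NN)
open Pool.Agent.K3h3.KB (ndeg ndeg_eq ndeg_cast ndeg_pos)
open Pool.Agent.E8helper60.CQ
open Pool.Agent.E8helper62.MG (XX nf_numF numF IrrP Hset equiv_closure fin_IrrP stable_IrrP numF_Fx)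
open Pool.Agent.Q259.BW (EquivBij Fx StableS bij_of_num num_of_bij finite_of_irr)
open IC (Irr)

variable {p : ℕ} [hp : Fact p.Prime]

/-- comparison with the numbers of the fixed points -/
theorem nf_br (Ω : Subgroup (ℂ ≃+* ℂ)) (G : Type) [Group G] [Finite G] :
    Pool.Agent.E8helper62.MG.nf Ω (XX p G) = nf p (Ω : Set (ℂ ≃+* ℂ)) G := by
  haveI := Fintype.ofFinite G
  rw [nf_numF]
  unfold numF nf
  rw [cn_eq]
  refine Nat.subtype_card _ fun χ => ?_
  rw [Finset.mem_filter, mem_Irr]
  unfold IrrP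
  rw [Set.mem_ofPred_eq, and_assoc]
  refine and_congr_right fun h1 => and_congr ?_ Iff.rfl
  constructor
  · intro h2
    exact ⟨ndeg χ, ndeg_cast h1, h2⟩
  · rintro ⟨n, hn, h2⟩
    rwa [ndeg_eq hn]

/-- the number for a set of automorphisms is the number for the group generated by it -/
theorem nf_closure (Γ : Set (ℂ ≃+* ℂ)) (G : Type) [Group G] [Finite G] :
    nf p (Subgroup.closure Γ : Set (ℂ ≃+* ℂ)) G = nf p Γ G := by
  refine cn_congr p fun χ _ _ => ?_
  constructor
  · intro h σ hσ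
    exact h σ (Subgroup.subset_closure hσ)
  · intro h σ hσ
    change σ ∈ Subgroup.closure Γ at hσ
    induction hσ using Subgroup.closure_induction with
    | mem x hx => exact h x hx
    | one => intro g; rfl
    | mul x y _ _ ihx ihy =>
      intro g
      change x (y (χ g)) = χ g
      rw [ihy g, ihx g]
    | inv x _ ih =>
      intro g
      change x.symm (χ g) = χ g
      rw [RingEquiv.symm_apply_eq]
      exact (ih g).symm

theorem Gd_closure (Γ : Set (ℂ ≃+* ℂ)) (G : Type) [Group G] [Finite G] :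
    Gd p (Subgroup.closure Γ : Set (ℂ ≃+* ℂ)) G ↔ Gd p Γ G := by
  refine forall_congr' fun P => ?_
  rw [nf_closure, nf_closure]

/-- **from `V ^ n ⋊ G` to `G`** -/
theorem aff_step (Ω : Subgroup (ℂ ≃+* ℂ)) {V1 G : Type} [CommGroup V1] [Group G] [Finite V1]
    [Finite G] (φ1 : G →* MulAut V1) (hV : IsPGroup p V1 ∨ ¬ p ∣ Nat.card V1) (n₀ : ℕ)
    (h : ∀ n, n₀ ≤ n → Gd p (Ω : Set (ℂ ≃+* ℂ)) ((Fin n → V1) ⋊[piAct n φ1] G)) :
    Gd p (Ω : Set (ℂ ≃+* ℂ)) G := by
  intro P
  have := Fintype.ofFinite G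
  have := Fintype.ofFinite (Pool.Agent.E8helper62.MG.NN (P : Subgroup G))
  have := Fintype.ofFinite V1
  have := Fintype.ofFinite (V1 →* ℂˣ)
  set D : Subgroup (G × AA) → ℚ := fun T => FF p Ω (MonoidHom.id G) T -
    FF p Ω (Subgroup.normalizer ((P : Subgroup G) : Set G)).subtype T with hD
  have key : D ⊤ = 0 := by
    refine q_EXP (V1 →* ℂˣ) (Subgroup (G × AA)) (tt φ1) D 1 ?_ n₀ ?_
    · rw [eq_top_iff]
      intro x _ v
      simp
    · intro n hn
      have := Fintype.ofFinite (Fin n → V1)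
      have := Fintype.ofFinite ((Fin n → V1) →* ℂˣ)
      rw [← q_PI V1 G n φ1 D, hD, Finset.sum_sub_distrib, sub_eq_zero]
      have hV' : IsPGroup p (Fin n → V1) ∨ ¬ p ∣ Nat.card (Fin n → V1) := by
        rcases hV with hV | hV
        · left
          obtain ⟨m, hm⟩ := IsPGroup.iff_card.mp hV
          refine IsPGroup.of_card (n := m * n) ?_
          rw [Nat.card_fun, hm, Nat.card_eq_fintype_card, Fintype.card_fin, ← pow_mul]
        · right
          intro h
          rw [Nat.card_fun] at h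
          exact hV (hp.out.dvd_of_dvd_pow h)
      obtain ⟨Q, hQ⟩ := count_norm (p := p) q_CNT q_CMP q_SP q_SQ q_COP (Fin n → V1) G
        (piAct n φ1) Ω hV' P
      have h2 := count_all (p := p) q_CNT q_CMP (Fin n → V1) G G (piAct n φ1) (MonoidHom.id G) Ω
      rw [← h2, ← hQ]
      have h5 : Pool.Agent.E8helper62.MG.nf Ω
          (XX p ((Fin n → V1) ⋊[(piAct n φ1).comp (MonoidHom.id G)] G)) =
          Pool.Agent.E8helper62.MG.nf Ω (XX p ((Fin n → V1) ⋊[piAct n φ1] G)) := rfl
      rw [h5, nf_br, nf_br]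
      have h6 := h n hn Q
      exact_mod_cast h6
  have h6 : FF p Ω (MonoidHom.id G) ⊤ =
      FF p Ω (Subgroup.normalizer ((P : Subgroup G) : Set G)).subtype ⊤ := sub_eq_zero.1 key
  rw [q_TOP p hp.out G G (MonoidHom.id G) Ω,
    q_TOP p hp.out G (Pool.Agent.E8helper62.MG.NN (P : Subgroup G)) _ Ω, nf_br, nf_br] at h6
  exact_mod_cast h6

/-! ### the module -/

/-- the module is faithful -/
theorem vact_inj3 {Y C : Type} [Group Y] [Fintype Y] [CommGroup C] [Nontrivial C]
    (h : 3 ≤ Fintype.card Y) : Function.Injective (vact Y C) := by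
  rw [injective_iff_map_eq_one]
  intro y hy
  by_contra hne
  obtain ⟨z, hz1, hzy⟩ : ∃ z : Y, z ≠ 1 ∧ z ≠ y := by
    by_contra hcon
    push Not at hcon
    have h4 : (Finset.univ : Finset Y) ⊆ {1, y} := by
      intro ω _
      rw [Finset.mem_insert, Finset.mem_singleton]
      by_cases h5 : ω = 1
      · exact Or.inl h5
      · exact Or.inr (hcon ω h5)
    have h5 := Finset.card_le_card h4
    rw [Finset.card_univ] at h5
    have h6 := Finset.card_le_two (a := (1 : Y)) (b := y)
    omega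
  obtain ⟨c, hc⟩ := exists_ne (1 : C)
  have h1 : vact Y C y (dd (MonoidHom.id C) c 1 z) = dd (MonoidHom.id C) c 1 z := by
    rw [hy, MulAut.one_apply]
  have h2 := congrFun (congrArg Subtype.val h1) y
  have h3 : (vact Y C y (dd (MonoidHom.id C) c 1 z) : Y → C) y =
      (dd (MonoidHom.id C) c 1 z : Y → C) (y⁻¹ • y) := rfl
  rw [h3, smul_eq_mul, inv_mul_cancel, dd_apply_left _ c (Ne.symm hz1),
    dd_apply_of_ne _ c hne (Ne.symm hzy)] at h2
  exact hc h2

/-- `X` has a normal elementary abelian `q`-subgroup `V ≠ 1` which contains its centralizer, and a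
complement `K` of `V` with `h(|K|) ≤ |V|` -/
theorem affine_sd {q : ℕ} (hq : q.Prime) (h : ℕ → ℕ) {G : Type} [Group G] [Fintype G]
    (hG : 3 ≤ Fintype.card G) (n : ℕ) (hn : 1 ≤ n) (hn' : h (Nat.card G) ≤ n) :
    IsAffine q h ((Fin n → VV G (CC q)) ⋊[piAct n (vact G (CC q))] G) := by
  haveI : NeZero q := ⟨hq.ne_zero⟩
  haveI : Fact (1 < q) := ⟨hq.one_lt⟩
  haveI : Nontrivial (CC q) := inferInstanceAs (Nontrivial (Multiplicative (ZMod q)))
  haveI : Finite (CC q) := inferInstanceAs (Finite (Multiplicative (ZMod q)))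
  have hne : ∃ v : VV G (CC q), v ≠ 1 := by
    obtain ⟨c, hc⟩ := exists_ne (1 : CC q)
    haveI : Nontrivial G := Fintype.one_lt_card_iff_nontrivial.mp (by omega)
    obtain ⟨z, hz⟩ := exists_ne (1 : G)
    refine ⟨dd (MonoidHom.id (CC q)) c 1 z, fun h1 => hc ?_⟩
    have h2 := congrFun (congrArg Subtype.val h1) 1
    rw [dd_apply_left _ c (Ne.symm hz)] at h2
    exact h2
  have hexp : ∀ v : VV G (CC q), v ^ q = 1 := by
    intro v
    apply Subtype.ext
    funext y
    change (v : G → CC q) y ^ q = 1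
    have h2 : (v : G → CC q) y ^ Nat.card (CC q) = 1 := pow_card_eq_one'
    rwa [card_CC] at h2
  haveI : Nonempty (Fin n) := ⟨⟨0, hn⟩⟩
  refine ⟨(inl : (Fin n → VV G (CC q)) →* _).range, (inr : G →* _).range, ?_, ?_, ?_, ?_, ?_, ?_, ?_⟩
  · rw [range_inl_eq_ker_rightHom]
    infer_instance
  · constructor
    · rw [Subgroup.disjoint_def]
      rintro x ⟨v, rfl⟩ ⟨g, hg⟩
      have h1 := congrArg SemidirectProduct.right hg
      rw [right_inr, right_inl] at h1
      rw [← hg, h1, map_one]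
    · rw [codisjoint_iff, eq_top_iff]
      intro x _
      rw [← inl_left_mul_inr_right x]
      exact Subgroup.mul_mem_sup ⟨_, rfl⟩ ⟨_, rfl⟩
  · rintro _ ⟨a, rfl⟩ _ ⟨b, rfl⟩
    rw [← map_mul, ← map_mul, mul_comm]
  · rintro _ ⟨a, rfl⟩
    rw [← map_pow]
    have : a ^ q = 1 := funext fun i => hexp (a i)
    rw [this, map_one]
  · intro h1
    obtain ⟨v, hv⟩ := hne
    apply hv
    have h2 : (inl (fun _ => v) : (Fin n → VV G (CC q)) ⋊[piAct n (vact G (CC q))] G) ∈
        (inl : (Fin n → VV G (CC q)) →* _).range := ⟨_, rfl⟩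
    rw [h1, Subgroup.mem_bot] at h2
    have h3 := congrArg SemidirectProduct.left h2
    exact congrFun h3 ⟨0, hn⟩
  · intro x hx
    rw [Subgroup.mem_centralizer_iff] at hx
    rw [range_inl_eq_ker_rightHom, MonoidHom.mem_ker]
    change x.right = 1
    apply vact_inj3 (C := CC q) hG
    rw [map_one]
    apply MulEquiv.ext
    intro v
    rw [MulAut.one_apply]
    have h1 := hx (inl (fun _ => v)) ⟨_, rfl⟩
    have h2 := congrArg (fun z => z.left ⟨0, hn⟩) h1
    simp only [mul_left, left_inl, right_inl, map_one, MulAut.one_apply, Pi.mul_apply] at h2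
    have h3 : v * x.left ⟨0, hn⟩ = x.left ⟨0, hn⟩ * vact G (CC q) x.right v := h2
    rw [mul_comm v] at h3
    exact (mul_left_cancel h3).symm
  · have e1 : Nat.card (inr : G →* (Fin n → VV G (CC q)) ⋊[piAct n (vact G (CC q))] G).range =
        Nat.card G := Nat.card_congr (MonoidHom.ofInjective inr_injective).toEquiv.symm
    have e2 : Nat.card (inl : (Fin n → VV G (CC q)) →* (Fin n → VV G (CC q)) ⋊[piAct n
        (vact G (CC q))] G).range = Nat.card (VV G (CC q)) ^ n := by
      rw [← Nat.card_congr (MonoidHom.ofInjective inl_injective).toEquiv, Nat.card_fun,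
        Nat.card_eq_fintype_card (α := Fin n), Fintype.card_fin]
    rw [e1, e2]
    obtain ⟨v, hv⟩ := hne
    haveI : Nontrivial (VV G (CC q)) := ⟨⟨v, 1, hv⟩⟩
    have h1 : 1 < Nat.card (VV G (CC q)) := Finite.one_lt_card
    exact (hn'.trans (Nat.lt_pow_self h1).le)

end Pool.Agent.H373.PG
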