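import Mathlib

/-!
# Perfect groups of order prime to `p` for `p ≥ 5`
-/

set_option autoImplicit false

open scoped commutatorElement

namespace Pool.Agent.H373.PG

/-- a generator of `GL(3, 2)` of order `2` -/
def gx : GL (Fin 3) (ZMod 2) where
  val := !![0, 0, 1; 0, 1, 0; 1, 0, 0]
  inv := !![0, 0, 1; 0, 1, 0; 1, 0, 0]
  val_inv := by decide
  inv_val := by decide

/-- a generator of `GL(3, 2)` of order `3` -/
def gy : GL (Fin 3) (ZMod 2) where
  val := !![0, 1, 0; 1, 0, 1; 1, 1, 0]
  inv := !![1, 0, 1; 1, 0, 0; 1, 1, 1]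
  val_inv := by decide
  inv_val := by decide

theorem gx_sq : gx ^ 2 = 1 := by
  apply Units.ext
  rw [Units.val_pow_eq_pow_val]
  decide

theorem gy_cube : gy ^ 3 = 1 := by
  apply Units.ext
  rw [Units.val_pow_eq_pow_val]
  decide

theorem gxy_seven : (gx * gy) ^ 7 = 1 := by
  apply Units.ext
  rw [Units.val_pow_eq_pow_val, Units.val_mul]
  decide

theorem gx_ne : gx ≠ 1 := by
  intro h
  have h1 := congrArg (fun u : GL (Fin 3) (ZMod 2) => (u : Matrix (Fin 3) (Fin 3) (ZMod 2)) 0 0) h
  revert h1
  decide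

/-- the group generated by `gx` and `gy` -/
abbrev T5 : Subgroup (GL (Fin 3) (ZMod 2)) := Subgroup.closure {gx, gy}

theorem T5_perfect : commutator T5 = ⊤ := by
  have hx : gx ∈ T5 := Subgroup.subset_closure (by simp)
  have hy : gy ∈ T5 := Subgroup.subset_closure (by simp)
  have key : ∀ t ∈ T5, ∀ h : t ∈ T5, Abelianization.of (⟨t, h⟩ : T5) = 1 := by
    have hA : ∀ a b : Abelianization T5, a ^ 2 = 1 → b ^ 3 = 1 → (a * b) ^ 7 = 1 → a = 1 ∧ b = 1 := by
      intro a b ha hb hab
      have h1 : a * b = 1 := by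
        rw [mul_pow] at hab
        have e1 : a ^ 7 = a := by
          calc a ^ 7 = (a ^ 2) ^ 3 * a := by group
            _ = a := by rw [ha]; simp
        have e2 : b ^ 7 = b := by
          calc b ^ 7 = (b ^ 3) ^ 2 * b := by group
            _ = b := by rw [hb]; simp
        rwa [e1, e2] at hab
      have h2 : b = a⁻¹ := (inv_eq_of_mul_eq_one_right h1).symm
      have h3 : a ^ 3 = 1 := by
        rw [h2, inv_pow, inv_eq_one] at hb
        exact hb
      have h4 : a = 1 := by
        have : a ^ 3 = a ^ 2 * a := by group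
        rw [this, ha, one_mul] at h3
        exact h3
      exact ⟨h4, by rw [h2, h4, inv_one]⟩
    have h0 := hA (Abelianization.of (⟨gx, hx⟩ : T5)) (Abelianization.of (⟨gy, hy⟩ : T5))
      (by
        rw [← map_pow]
        have : (⟨gx, hx⟩ : T5) ^ 2 = 1 := Subtype.ext gx_sq
        rw [this, map_one])
      (by
        rw [← map_pow]
        have : (⟨gy, hy⟩ : T5) ^ 3 = 1 := Subtype.ext gy_cube
        rw [this, map_one])
      (by
        rw [← map_mul, ← map_pow]
        have : ((⟨gx, hx⟩ : T5) * ⟨gy, hy⟩) ^ 7 = 1 := Subtype.ext gxy_seven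
        rw [this, map_one])
    intro t ht
    induction ht using Subgroup.closure_induction with
    | mem t ht =>
      intro h
      rcases ht with rfl | ht
      · exact h0.1
      · rcases ht with rfl
        exact h0.2
    | one =>
      intro h
      exact map_one _
    | mul s t hs ht ihs iht =>
      intro h
      have : (⟨s * t, h⟩ : T5) = ⟨s, hs⟩ * ⟨t, ht⟩ := rfl
      rw [this, map_mul, ihs hs, iht ht, one_mul]
    | inv t ht ih =>
      intro h
      have : (⟨t⁻¹, h⟩ : T5) = (⟨t, ht⟩ : T5)⁻¹ := rfl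
      rw [this, map_inv, ih ht, inv_one]
  rw [eq_top_iff]
  intro t _
  have h1 := key t.1 t.2 t.2
  have h2 : t ∈ (Abelianization.of : T5 →* Abelianization T5).ker := h1
  rwa [Abelianization.ker_of] at h2

theorem card_GL32 : Nat.card (GL (Fin 3) (ZMod 2)) = 168 := by
  haveI : Fact (Nat.Prime 2) := ⟨Nat.prime_two⟩
  rw [Matrix.card_GL_field, ZMod.card]
  decide

/-- **perfect groups of order prime to `p`** -/
theorem exists_T {p : ℕ} (hp : p.Prime) (h5 : 5 ≤ p) : ∃ (T : Type) (_ : Group T),
    Finite T ∧ Nontrivial T ∧ commutator T = ⊤ ∧ ¬ p ∣ Nat.card T := by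
  by_cases h7 : p = 5
  · haveI : Finite (GL (Fin 3) (ZMod 2)) := Nat.finite_of_card_ne_zero (by rw [card_GL32]; decide)
    refine ⟨T5, inferInstance, inferInstance, ?_, T5_perfect, ?_⟩
    · exact ⟨⟨⟨gx, Subgroup.subset_closure (by simp)⟩, 1, fun h => gx_ne (congrArg Subtype.val h)⟩⟩
    · intro h
      have h1 := h.trans (Subgroup.card_subgroup_dvd_card T5)
      rw [card_GL32, h7] at h1
      revert h1
      decide
  · refine ⟨alternatingGroup (Fin 5), inferInstance, inferInstance, ?_, ?_, ?_⟩
    · rw [← Finite.one_lt_card_iff_nontrivial, nat_card_alternatingGroup]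
      simp [Nat.factorial]
    · exact commutator_alternatingGroup_eq_top (by simp)
    · rw [nat_card_alternatingGroup]
      intro h
      have h1 : Nat.factorial (Nat.card (Fin 5)) / 2 = 60 := by
        rw [Nat.card_eq_fintype_card, Fintype.card_fin]
        decide
      rw [h1] at h
      have h2 : p ∣ 2 * (2 * (3 * 5)) := h
      rw [Nat.Prime.dvd_mul hp, Nat.Prime.dvd_mul hp, Nat.Prime.dvd_mul hp] at h2
      have h3 : p ≠ 2 := by omega
      have h4 : p ≠ 3 := by omega
      rcases h2 with h2 | h2 | h2 | h2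
      · exact h3 ((Nat.prime_dvd_prime_iff_eq hp Nat.prime_two).mp h2)
      · exact h3 ((Nat.prime_dvd_prime_iff_eq hp Nat.prime_two).mp h2)
      · exact h4 ((Nat.prime_dvd_prime_iff_eq hp Nat.prime_three).mp h2)
      · exact h7 ((Nat.prime_dvd_prime_iff_eq hp Nat.prime_five).mp h2)

end Pool.Agent.H373.PG
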