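import Pool.Agent.H373.PG.Cls
import Pool.Agent.H373.PG.Tex

/-!
# Degrees up to sign
-/

set_option autoImplicit false
set_option linter.unusedSectionVars false
set_option linter.style.haveILetI false

open scoped BigOperators Classical

noncomputable section

namespace Pool.Agent.H373.PG

open Pool.Agent.Helper884 Pool.Agent.H254R3.IN
open Pool.Agent.K3h3.KB (ndeg)
open Pool.Agent.K3h3.MK (NN wt wt_eq cl X kap coeff_wt cl_apply RR)
open IC (Irr)

variable {p : ℕ} [hp : Fact p.Prime]

instance : NeZero p := ⟨hp.out.ne_zero⟩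

/-- the weights -/
def wm (μ : DirichletCharacter ℂ p) : ℕ →* ℂ where
  toFun n := μ (n : ZMod p) ^ 2
  map_one' := by simp
  map_mul' a b := by
    rw [Nat.cast_mul, map_mul, mul_pow]

theorem wm_apply (μ : DirichletCharacter ℂ p) (n : ℕ) : wm μ n = μ (n : ZMod p) ^ 2 := rfl

theorem wm_zero (μ : DirichletCharacter ℂ p) (n : ℕ) : wm μ n = 0 ↔ p ∣ n := by
  rw [wm_apply, pow_eq_zero_iff two_ne_zero, ← ZMod.natCast_eq_zero_iff]
  constructor
  · intro h
    by_contra h1
    have h2 : IsUnit (n : ZMod p) := isUnit_iff_ne_zero.mpr h1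
    exact (h2.map μ).ne_zero h
  · intro h
    rw [h]
    exact μ.map_nonunit not_isUnit_zero

theorem wm_norm (μ : DirichletCharacter ℂ p) (n : ℕ) : ‖wm μ n‖ ≤ 1 := by
  rw [wm_apply, norm_pow]
  exact pow_le_one₀ (norm_nonneg _) (μ.norm_le_one _)

theorem fixd_empty {G : Type} [Group G] (χ : G → ℂ) : fixd ∅ χ :=
  fun σ hσ => absurd hσ (Set.notMem_empty σ)

theorem wf_empty (w : ℕ →* ℂ) (G : Type) [Group G] [Fintype G] :
    wf ∅ w G = ∑ χ ∈ Irr G, w (ndeg χ) := by
  rw [wf_eq, Finset.filter_true_of_mem fun χ _ => fixd_empty χ]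

/-- the numbers of the characters in the classes -/
theorem card_kap (G : Type) [Group G] [Fintype G] (v : (ZMod p)ˣ) :
    (Nat.card {χ : X p G // kap p χ = v}) =
      ((Irr G).filter fun χ => (v : ZMod p) = (ndeg χ : ZMod p) ^ 2).card := by
  rw [← Nat.card_eq_fintype_card.trans (Fintype.card_coe
    ((Irr G).filter fun χ => (v : ZMod p) = (ndeg χ : ZMod p) ^ 2))]
  refine Nat.card_congr
    { toFun := fun χ => ⟨χ.1.1, ?_⟩
      invFun := fun χ => ⟨⟨χ.1, ?_, ?_⟩, ?_⟩
      left_inv := fun _ => rfl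
      right_inv := fun _ => rfl }
  · rw [Finset.mem_filter, mem_Irr]
    refine ⟨χ.1.2.1, ?_⟩
    have h2 := congrArg Units.val χ.2
    exact h2.symm
  · exact mem_Irr.mp (Finset.mem_filter.mp χ.2).1
  · intro h0
    have h2 := (Finset.mem_filter.mp χ.2).2
    rw [h0, zero_pow two_ne_zero] at h2
    exact v.ne_zero h2
  · apply Units.ext
    have h2 := (Finset.mem_filter.mp χ.2).2
    exact h2.symm

/-- the numbers of the characters in the classes of degrees -/
theorem count_eq (G : Type) [Group G] [Finite G] (v : (ZMod p)ˣ) :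
    (p.totient : ℂ) * (Nat.card {χ : X p G // kap p χ = v} : ℂ) =
      ∑ μ : DirichletCharacter ℂ p, μ ((v : ZMod p)⁻¹) * wf ∅ (wm μ) G := by
  haveI := Fintype.ofFinite G
  simp_rw [wf_empty, Finset.mul_sum]
  rw [Finset.sum_comm]
  have h1 : ∀ χ ∈ Irr G, ∑ μ : DirichletCharacter ℂ p, μ ((v : ZMod p)⁻¹) * wm μ (ndeg χ) =
      if (v : ZMod p) = (ndeg χ : ZMod p) ^ 2 then (p.totient : ℂ) else 0 := by
    intro χ _
    rw [← DirichletCharacter.sum_char_inv_mul_char_eq ℂ v.isUnit]
    refine Finset.sum_congr rfl fun μ _ => ?_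
    rw [wm_apply, map_pow]
  rw [Finset.sum_congr rfl h1, ← Finset.sum_filter, Finset.sum_const, nsmul_eq_mul, mul_comm]
  congr 2
  rw [card_kap]

theorem wt_of_wf {G H : Type} [Group G] [Finite G] [Group H] [Finite H]
    (h : ∀ μ : DirichletCharacter ℂ p, wf ∅ (wm μ) G = wf ∅ (wm μ) H) :
    wt (cl p) G = wt (cl p) H := by
  ext v
  rw [coeff_wt, coeff_wt]
  have h1 := count_eq (p := p) G v
  have h2 := count_eq (p := p) H v
  simp_rw [h] at h1
  rw [← h2] at h1
  have h3 : (p.totient : ℂ) ≠ 0 := by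
    exact_mod_cast (Nat.totient_pos.mpr hp.out.pos).ne'
  have h4 := mul_left_cancel₀ h3 h1
  exact_mod_cast h4

/-- the values of the weights on the group ring -/
def Phi (μ : DirichletCharacter ℂ p) (x : RR p) : ℂ :=
  ∑ v : (ZMod p)ˣ, (x.coeff v : ℂ) * μ (v : ZMod p)

theorem wf_of_wt {G H : Type} [Group G] [Finite G] [Group H] [Finite H]
    (h : wt (cl p) G = wt (cl p) H) (μ : DirichletCharacter ℂ p) :
    wf ∅ (wm μ) G = wf ∅ (wm μ) H := by
  have key : ∀ (G : Type) [Group G] [Finite G], wf ∅ (wm μ) G = Phi μ (wt (cl p) G) := by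
    intro G _ _
    haveI := Fintype.ofFinite G
    unfold Phi
    rw [wf_empty]
    simp_rw [coeff_wt]
    have h1 : ∀ χ ∈ Irr G, wm μ (ndeg χ) = ∑ v : (ZMod p)ˣ,
        if (v : ZMod p) = (ndeg χ : ZMod p) ^ 2 then μ (v : ZMod p) else 0 := by
      intro χ _
      by_cases h0 : (ndeg χ : ZMod p) = 0
      · rw [wm_apply, h0, μ.map_nonunit not_isUnit_zero, zero_pow two_ne_zero,
          Finset.sum_eq_zero]
        intro v _
        rw [zero_pow two_ne_zero, if_neg v.ne_zero]
      · rw [Finset.sum_eq_single ((Units.mk0 (ndeg χ : ZMod p) h0) ^ 2)]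
        · rw [if_pos (by simp), wm_apply]
          simp
        · intro v _ hne
          rw [if_neg]
          intro h2
          apply hne
          apply Units.ext
          simp [h2]
        · intro h2
          exact absurd (Finset.mem_univ _) h2
    rw [Finset.sum_congr rfl h1, Finset.sum_comm]
    refine Finset.sum_congr rfl fun v _ => ?_
    rw [← Finset.sum_filter, Finset.sum_const, nsmul_eq_mul]
    congr 1
    rw [card_kap]
    push_cast
    rfl
  rw [key G, key H, h]

theorem RF_empty : RF p ∅ := fun σ hσ => absurd hσ (Set.notMem_empty σ)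

/-- **The reduction for degrees up to sign.** -/
theorem reduction_sign (hp5 : 5 ≤ p) {T : Type} [Group T] [Finite T] [Nontrivial T]
    (hT : commutator T = ⊤) (hTp : ¬ p ∣ Nat.card T) {𝒢 : (G : Type) → [Group G] → Prop}
    (h𝒢 : Cls p T 𝒢)
    (hperf : ∀ (G : Type) [Group G] [Finite G], 𝒢 G → commutator G = ⊤ → ∀ P : Sylow p G,
      wt (cl p) G = wt (cl p) (NN P))
    (G : Type) [Group G] [Finite G] (hG : 𝒢 G) (P : Sylow p G) :
    wt (cl p) G = wt (cl p) (NN P) := by
  apply wt_of_wf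
  intro μ
  exact reduction ∅ (wm μ) hp5 (wm_zero μ) (wm_norm μ) RF_empty (fun r _ _ => HG_empty r)
    (HP_empty (wm μ) hp.out (wm_zero μ)) hT hTp h𝒢
    (fun G _ _ hG hc P => wf_of_wt (hperf G hG hc P) μ) G hG P

end Pool.Agent.H373.PG
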