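import Pool.Agent.H373.PG.Odd
import Pool.Agent.H373.PG.Fin

/-!
# Affine groups and weighted numbers
-/

set_option autoImplicit false
set_option linter.unusedSectionVars false
set_option linter.style.haveILetI false

open scoped BigOperators Classical

noncomputable section

namespace Pool.Agent.H373.PG

open SemidirectProduct
open Pool.Agent.Helper884 Pool.Agent.H254R3.IN
open Pool.Agent.K3h3.MK (NN)
open Pool.Agent.K3h3.KB (ndeg ndeg_eq ndeg_cast ndeg_pos)
open Pool.Agent.E8helper60.CQ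
open Pool.Agent.E8helper56.CQ (Inv res inv_ext inv_surj St_eq inv_of_index)
open IC (Irr)
open Pool.Agent.K3h3.MK (wt cl)

variable {p : ℕ} [hp : Fact p.Prime]

/-- the contribution of the linear characters with stabilizer `T` -/
def cw (w : ℕ →* ℂ) {G K : Type} [Group G] [Group K] [Finite K] (ι : K →* G) (T : Subgroup G) : ℂ :=
  (Nat.card (T.comap ι) : ℂ) * (w (T.comap ι).index * wf ∅ w (T.comap ι))

theorem cw_aux (w : ℕ →* ℂ) {K : Type} [Group K] [Finite K] (S : Subgroup K) (h : S = ⊤) :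
    (Nat.card S : ℂ) * (w S.index * wf ∅ w S) = (Nat.card K : ℂ) * wf ∅ w K := by
  subst h
  rw [Subgroup.index_top, map_one, one_mul, Subgroup.card_top, wf_congr ∅ w Subgroup.topEquiv]

theorem cw_top (w : ℕ →* ℂ) {G K : Type} [Group G] [Group K] [Finite K] (ι : K →* G) :
    cw w ι ⊤ = (Nat.card K : ℂ) * wf ∅ w K :=
  cw_aux w _ (Subgroup.comap_top ι)

theorem all_w (w : ℕ →* ℂ) {V G K : Type} [CommGroup V] [Group G] [Group K] [Fintype V]
    [Fintype K] [Fintype (V →* ℂˣ)] (φ : G →* MulAut V) (ι : K →* G) :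
    (Nat.card K : ℂ) * wf ∅ w (V ⋊[φ.comp ι] K) = ∑ θ : V →* ℂˣ, cw w ι (St φ θ) :=
  little ∅ w (φ.comp ι) (fun _ σ hσ => absurd hσ (Set.notMem_empty σ))

theorem norm_w (w : ℕ →* ℂ) (hw : ∀ n, w n = 0 ↔ p ∣ n) {V G : Type} [CommGroup V] [Group G]
    [Fintype V] [Fintype G] [Fintype (V →* ℂˣ)] (φ : G →* MulAut V)
    (hV : IsPGroup p V ∨ ¬ p ∣ Nat.card V) (P : Sylow p G) :
    ∃ Q : Sylow p (V ⋊[φ] G), (Nat.card (NN P) : ℂ) * wf ∅ w (NN Q) =
      ∑ θ : V →* ℂˣ, cw w (Subgroup.normalizer ((P : Subgroup G) : Set G)).subtype (St φ θ) := by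
  rcases hV with hV | hV
  · obtain ⟨Q, ⟨e⟩⟩ := q_SP p V G φ hV P
    refine ⟨Q, ?_⟩
    haveI := Fintype.ofFinite (NN P)
    have h1 := all_w w φ (Subgroup.normalizer ((P : Subgroup G) : Set G)).subtype
    rw [← h1]
    congr 1
    exact wf_congr ∅ w e
  · obtain ⟨Q, ⟨e⟩⟩ := q_SQ p V G φ hV P
    refine ⟨Q, ?_⟩
    haveI : Finite (fixP φ (P : Subgroup G) →* ℂˣ) := inferInstance
    haveI := Fintype.ofFinite (fixP φ (P : Subgroup G) →* ℂˣ)
    haveI := Fintype.ofFinite (Subgroup.normalizer ((P : Subgroup G) : Set G))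
    haveI := Fintype.ofFinite (fixP φ (P : Subgroup G))
    have hc : Nat.Coprime (Nat.card (P : Subgroup G)) (Nat.card V) := by
      obtain ⟨n, hn⟩ := IsPGroup.iff_card.1 P.isPGroup'
      rw [show Nat.card (P : Subgroup G) = p ^ n from hn]
      exact Nat.Coprime.pow_left _ ((Nat.Prime.coprime_iff_not_dvd hp.out).2 hV)
    have hT : ∀ θ : V →* ℂˣ,
        T1 (Subgroup.normalizer ((P : Subgroup G) : Set G)).subtype (tt φ θ) =
          (St φ θ).comap (Subgroup.normalizer ((P : Subgroup G) : Set G)).subtype := fun θ =>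
      ((q_CMP p V G (Subgroup.normalizer ((P : Subgroup G) : Set G)) φ
        (Subgroup.normalizer ((P : Subgroup G) : Set G)).subtype ⊥ θ).2).symm
    have h1 := little ∅ w (resAct φ (P : Subgroup G))
      (fun _ σ hσ => absurd hσ (Set.notMem_empty σ))
    have h2 : (Nat.card (NN P) : ℂ) * wf ∅ w (NN Q) =
        (Nat.card (Subgroup.normalizer ((P : Subgroup G) : Set G)) : ℂ) *
          wf ∅ w (fixP φ (P : Subgroup G) ⋊[resAct φ (P : Subgroup G)]
            Subgroup.normalizer ((P : Subgroup G) : Set G)) := by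
      congr 1
      exact wf_congr ∅ w e
    rw [h2, h1]
    have hz : ∀ θ : V →* ℂˣ,
        cw w (Subgroup.normalizer ((P : Subgroup G) : Set G)).subtype (St φ θ) ≠ 0 →
          Inv φ (P : Subgroup G) θ := by
      intro θ hθ
      refine inv_of_index φ P θ fun h => hθ ?_
      rw [hT] at h
      unfold cw
      rw [(hw _).mpr h, zero_mul, mul_zero]
    have hs : ∑ θ : V →* ℂˣ,
        cw w (Subgroup.normalizer ((P : Subgroup G) : Set G)).subtype (St φ θ) =
        ∑ θ ∈ Finset.univ.filter (fun θ : V →* ℂˣ => Inv φ (P : Subgroup G) θ),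
        cw w (Subgroup.normalizer ((P : Subgroup G) : Set G)).subtype (St φ θ) :=
      (Finset.sum_filter_of_ne fun θ _ h => hz θ h).symm
    rw [hs]
    symm
    refine Finset.sum_bij (fun θ _ => res φ (P : Subgroup G) θ) (fun θ _ => Finset.mem_univ _)
      ?_ ?_ ?_
    · intro θ hθ θ' hθ' he
      rw [Finset.mem_filter] at hθ hθ'
      refine inv_ext φ (P : Subgroup G) hc hθ.2 hθ'.2 fun v hv => ?_
      exact DFunLike.congr_fun he ⟨v, hv⟩
    · intro η _
      obtain ⟨θ, h1, h2⟩ := inv_surj φ (P : Subgroup G) hc η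
      exact ⟨θ, Finset.mem_filter.2 ⟨Finset.mem_univ _, h1⟩, h2⟩
    · intro θ hθ
      rw [Finset.mem_filter] at hθ
      have h3 := (St_eq φ (P : Subgroup G) hc hθ.2).trans (hT θ)
      unfold cw
      rw [h3]

/-- exponential sums, complex values -/
theorem exp_c (L : Type) [Fintype L] (S : Type) [SemilatticeInf S] [OrderTop S]
    (t : L → S) (F : S → ℂ) (l₀ : L) (hl : t l₀ = ⊤) (n₀ : ℕ)
    (h : ∀ n : ℕ, n₀ ≤ n → ∑ x : Fin n → L, F (Finset.univ.inf fun i => t (x i)) = 0) :
    F ⊤ = 0 := by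
  rw [← Module.forall_dual_apply_eq_zero_iff ℚ]
  intro f
  refine q_EXP L S t (fun s => f (F s)) l₀ hl n₀ fun n hn => ?_
  rw [← map_sum, h n hn, map_zero]

/-- **from `V ^ n ⋊ G` to `G`, weighted numbers** -/
theorem aff_step_w (w : ℕ →* ℂ) (hw : ∀ n, w n = 0 ↔ p ∣ n) {V1 G : Type} [CommGroup V1]
    [Group G] [Finite V1] [Finite G] (φ1 : G →* MulAut V1)
    (hV : IsPGroup p V1 ∨ ¬ p ∣ Nat.card V1) (n₀ : ℕ)
    (h : ∀ n, n₀ ≤ n → Good p ∅ w ((Fin n → V1) ⋊[piAct n φ1] G)) : Good p ∅ w G := by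
  intro P
  haveI := Fintype.ofFinite G
  haveI := Fintype.ofFinite V1
  haveI := Fintype.ofFinite (V1 →* ℂˣ)
  obtain ⟨D, hD⟩ : ∃ D : Subgroup G → ℂ, D = fun T => (Nat.card (NN P) : ℂ) *
      cw w (MonoidHom.id G) T -
      (Nat.card G : ℂ) * cw w (Subgroup.normalizer ((P : Subgroup G) : Set G)).subtype T :=
    ⟨_, rfl⟩
  have key : D ⊤ = 0 := by
    refine exp_c (V1 →* ℂˣ) (Subgroup G) (St φ1) D 1 ?_ n₀ ?_
    · rw [eq_top_iff]
      intro x _ v
      simp
    · intro n hn
      haveI := Fintype.ofFinite (Fin n → V1)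
      haveI : Fintype ((Fin n → V1) →* ℂˣ) :=
        Fintype.ofEquiv _ (Pool.Agent.E8helper8.CQ.toFam n).symm
      have hV' : IsPGroup p (Fin n → V1) ∨ ¬ p ∣ Nat.card (Fin n → V1) := by
        rcases hV with hV | hV
        · left
          obtain ⟨m, hm⟩ := IsPGroup.iff_card.mp hV
          refine IsPGroup.of_card (n := m * n) ?_
          rw [Nat.card_fun, hm, Nat.card_eq_fintype_card, Fintype.card_fin, ← pow_mul]
        · right
          intro h
          rw [Nat.card_fun] at h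
          exact hV (hp.out.dvd_of_dvd_pow h)
      obtain ⟨Q, hQ⟩ := norm_w w hw (piAct n φ1) hV' P
      have h2 := all_w w (piAct n φ1) (MonoidHom.id G)
      have h5 : wf ∅ w ((Fin n → V1) ⋊[(piAct n φ1).comp (MonoidHom.id G)] G) =
          wf ∅ w ((Fin n → V1) ⋊[piAct n φ1] G) := rfl
      rw [h5, h n hn Q] at h2
      have h6 : ∑ θ : (Fin n → V1) →* ℂˣ,
          ((Nat.card (NN P) : ℂ) * cw w (MonoidHom.id G) (St (piAct n φ1) θ) -
            (Nat.card G : ℂ) * cw w (Subgroup.normalizer ((P : Subgroup G) : Set G)).subtype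
              (St (piAct n φ1) θ)) = 0 := by
        rw [Finset.sum_sub_distrib, ← Finset.mul_sum, ← Finset.mul_sum, ← h2, ← hQ]
        ring
      rw [← h6, ← (Pool.Agent.E8helper8.CQ.toFam n).sum_comp]
      refine Finset.sum_congr rfl fun θ _ => ?_
      rw [St_pi, Finset.inf_univ_eq_iInf, hD]
  have hG : (Nat.card G : ℂ) ≠ 0 := by exact_mod_cast Nat.card_pos.ne'
  have hN : (Nat.card (NN P) : ℂ) ≠ 0 := by exact_mod_cast Nat.card_pos.ne'
  have e1 : cw w (MonoidHom.id G) ⊤ = (Nat.card G : ℂ) * wf ∅ w G := cw_top w _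
  have e2 : cw w (Subgroup.normalizer ((P : Subgroup G) : Set G)).subtype ⊤ =
      (Nat.card (NN P) : ℂ) * wf ∅ w (NN P) := cw_top w _
  rw [hD] at key
  beta_reduce at key
  rw [e1, e2] at key
  have h3 : (Nat.card (NN P) : ℂ) * (Nat.card G : ℂ) * (wf ∅ w G - wf ∅ w (NN P)) = 0 := by
    rw [← key]
    ring
  rcases mul_eq_zero.mp h3 with h4 | h4
  · exact absurd h4 (mul_ne_zero hN hG)
  · exact sub_eq_zero.mp h4

/-- groups of order prime to `p` -/
theorem good_prime (w : ℕ →* ℂ) (G : Type) [Group G] [Finite G] (h : ¬ p ∣ Nat.card G) :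
    Good p ∅ w G := by
  intro P
  have h1 : (P : Subgroup G) = ⊥ := by
    obtain ⟨k, hk⟩ := IsPGroup.iff_card.mp P.isPGroup'
    have h2 : Nat.card (P : Subgroup G) ∣ Nat.card G := Subgroup.card_subgroup_dvd_card _
    have h3 : k = 0 := by
      by_contra h4
      exact h ((dvd_pow_self p h4).trans (hk ▸ h2))
    rw [h3, pow_zero] at hk
    exact Subgroup.card_eq_one.mp hk
  have h2 : NN P = ⊤ := by
    change Subgroup.normalizer ((P : Subgroup G) : Set G) = ⊤
    rw [h1]
    exact Subgroup.normalizer_eq_top ⊥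
  exact (wf_congr ∅ w ((MulEquiv.subgroupCongr h2).trans Subgroup.topEquiv)).symm

/-- **perfect affine groups suffice** -/
theorem base_w {q : ℕ} (hq : q.Prime) (hp2 : p ≠ 2) (h : ℕ → ℕ) (w : ℕ →* ℂ)
    (hw : ∀ n, w n = 0 ↔ p ∣ n) {𝒢 : (G : Type) → [Group G] → Prop}
    (hd : ∀ {G H : Type} [Group G] [Group H] [Finite G] (π : G →* H), Function.Surjective π →
      (∀ a ∈ π.ker, ∀ b ∈ π.ker, a * b = b * a) → (∀ a ∈ π.ker, a ^ q = 1) → 𝒢 H → 𝒢 G)
    (H : ∀ (G : Type) [Group G] [Finite G], 𝒢 G → commutator G = ⊤ → IsAffine q h G →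
      Good p ∅ w G)
    (G : Type) [Group G] [Finite G] (hG : 𝒢 G) (hc' : commutator G = ⊤) : Good p ∅ w G := by
  haveI := Fintype.ofFinite G
  haveI : NeZero q := ⟨hq.ne_zero⟩
  haveI : Finite (CC q) := inferInstanceAs (Finite (Multiplicative (ZMod q)))
  by_cases hc : 3 ≤ Fintype.card G
  · have hV : IsPGroup p (VV G (CC q)) ∨ ¬ p ∣ Nat.card (VV G (CC q)) := by
      by_cases hpq : p = q
      · left
        subst hpq
        intro v
        refine ⟨1, ?_⟩
        rw [pow_one]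
        apply Subtype.ext
        funext y
        change (v : G → CC p) y ^ p = 1
        have h2 : (v : G → CC p) y ^ Nat.card (CC p) = 1 := pow_card_eq_one'
        rwa [card_CC] at h2
      · right
        exact VV_dvd G q fun h1 => hpq ((Nat.prime_dvd_prime_iff_eq hp.out hq).mp h1)
    have hT : TP (fun _ => True) G := by
      intro A _ _ f hf hA _
      have h1 := perfect_hom hc' A f
      have h2 : Subsingleton A := ⟨fun a b => by
        obtain ⟨x, rfl⟩ := hf a
        obtain ⟨y, rfl⟩ := hf b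
        rw [h1]
        rfl⟩
      have h3 : Nat.card A = 1 := Nat.card_unique
      exact hA.one_lt.ne' h3
    refine aff_step_w w hw (vact G (CC q)) hV (max 1 (h (Nat.card G))) ?_
    intro n hn
    refine H _ ?_ (TP_true (TP_sd hT n))
      (affine_sd hq h hc n ((le_max_left _ _).trans hn) ((le_max_right _ _).trans hn))
    refine hd (rightHom : (Fin n → VV G (CC q)) ⋊[piAct n (vact G (CC q))] G →* G)
      rightHom_surjective ?_ ?_ hG
    · intro a ha b hb
      have h1 : (⟨a, ha⟩ * ⟨b, hb⟩ :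
          (rightHom : (Fin n → VV G (CC q)) ⋊[piAct n (vact G (CC q))] G →* G).ker) =
          ⟨b, hb⟩ * ⟨a, ha⟩ := by
        apply (kerR (piAct n (vact G (CC q)))).injective
        rw [map_mul, map_mul, mul_comm]
      exact congrArg Subtype.val h1
    · intro a ha
      have h1 : (⟨a, ha⟩ ^ q :
          (rightHom : (Fin n → VV G (CC q)) ⋊[piAct n (vact G (CC q))] G →* G).ker) = 1 := by
        apply (kerR (piAct n (vact G (CC q)))).injective
        rw [map_pow, map_one]
        funext i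
        apply Subtype.ext
        funext y
        change ((kerR (piAct n (vact G (CC q))) ⟨a, ha⟩ i : VV G (CC q)) : G → CC q) y ^ q = 1
        have h2 : ((kerR (piAct n (vact G (CC q))) ⟨a, ha⟩ i : VV G (CC q)) : G → CC q) y ^
          Nat.card (CC q) = 1 := pow_card_eq_one'
        rwa [card_CC] at h2
      exact congrArg Subtype.val h1
  · apply good_prime
    rw [Nat.card_eq_fintype_card]
    intro h1
    have h2 := Nat.le_of_dvd Fintype.card_pos h1
    have h3 := hp.out.two_le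
    omega

/-- **The reduction for degrees up to sign, perfect affine groups.** -/
theorem reduction_sign_aff (hp5 : 5 ≤ p) {q : ℕ} (hq : q.Prime) (h : ℕ → ℕ) {T : Type} [Group T]
    [Finite T] [Nontrivial T] (hT : commutator T = ⊤) (hTp : ¬ p ∣ Nat.card T)
    {𝒢 : (G : Type) → [Group G] → Prop} (h𝒢 : Cls p T 𝒢)
    (hd : ∀ {G H : Type} [Group G] [Group H] [Finite G] (π : G →* H), Function.Surjective π →
      (∀ a ∈ π.ker, ∀ b ∈ π.ker, a * b = b * a) → (∀ a ∈ π.ker, a ^ q = 1) → 𝒢 H → 𝒢 G)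
    (hperf : ∀ (G : Type) [Group G] [Finite G], 𝒢 G → commutator G = ⊤ → IsAffine q h G →
      ∀ P : Sylow p G, wt (cl p) G = wt (cl p) (NN P))
    (G : Type) [Group G] [Finite G] (hG : 𝒢 G) (P : Sylow p G) :
    wt (cl p) G = wt (cl p) (NN P) := by
  refine reduction_sign hp5 hT hTp h𝒢 ?_ G hG P
  intro G _ _ hG hc P
  apply wt_of_wf
  intro μ
  exact base_w hq (by omega) h (wm μ) (wm_zero μ) hd
    (fun G _ _ hG hc hA P => wf_of_wt (hperf G hG hc hA P) μ) G hG hc P

end Pool.Agent.H373.PG
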