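import Mathlib

/-!
# Two facts on complex numbers, and transitive actions of perfect groups
-/

set_option autoImplicit false
set_option linter.unusedSectionVars false
set_option linter.style.haveILetI false

open scoped BigOperators Classical commutatorElement

noncomputable section

namespace Pool.Agent.H373.PG

/-- `t x ^ n = t' y ^ n` for exponents without common divisor -/
theorem alg_gcd {x y : ℂ} {t t' : ℕ} (ht : 0 < t) (ht' : 0 < t') {S : Set ℕ}
    (hS : ∀ d : ℕ, (∀ n ∈ S, d ∣ n) → d = 1) (h3 : ∀ n ∈ S, 3 ≤ n)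
    (h : ∀ n ∈ S, (t : ℂ) * x ^ n = (t' : ℂ) * y ^ n) : x = y := by
  have htc : (t : ℂ) ≠ 0 := by exact_mod_cast ht.ne'
  have htc' : (t' : ℂ) ≠ 0 := by exact_mod_cast ht'.ne'
  obtain ⟨a, ha⟩ : ∃ a, a ∈ S := by
    by_contra hcon
    push Not at hcon
    have := hS 0 (fun n hn => absurd hn (hcon n))
    exact zero_ne_one this
  obtain ⟨b, hb, hab⟩ : ∃ b ∈ S, b ≠ a := by
    by_contra hcon
    push Not at hcon
    have h1 := hS a (fun n hn => by rw [hcon n hn])
    have h2 := h3 a ha
    omega
  have ha3 := h3 a ha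
  by_cases hy : y = 0
  · have h1 := h a ha
    rw [hy, zero_pow (by omega), mul_zero, mul_eq_zero] at h1
    rw [hy]
    exact pow_eq_zero_iff (by omega) |>.mp (h1.resolve_left htc)
  by_cases hx : x = 0
  · have h1 := h a ha
    rw [hx, zero_pow (by omega), mul_zero, eq_comm, mul_eq_zero] at h1
    exact absurd (pow_eq_zero_iff (by omega) |>.mp (h1.resolve_left htc')) hy
  have hρ : ∀ n ∈ S, (t : ℂ) * (x / y) ^ n = t' := by
    intro n hn
    rw [div_pow, mul_div_assoc', h n hn, mul_div_assoc, div_self (pow_ne_zero n hy), mul_one]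
  have hn : ∀ n ∈ S, (t : ℝ) * ‖x / y‖ ^ n = t' := by
    intro n hn
    have h1 := congrArg norm (hρ n hn)
    rw [norm_mul, norm_pow, Complex.norm_natCast, Complex.norm_natCast] at h1
    exact h1
  have hpos : 0 < ‖x / y‖ := norm_pos_iff.mpr (div_ne_zero hx hy)
  have h1 : ‖x / y‖ = 1 := by
    by_contra hne
    have h2 : ‖x / y‖ ^ b = ‖x / y‖ ^ a := by
      have h4 : (t : ℝ) ≠ 0 := by exact_mod_cast ht.ne'
      apply mul_left_cancel₀ h4
      rw [hn a ha, hn b hb]
    exact hab (pow_right_injective₀ hpos hne h2)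
  have h2 : (t : ℝ) = t' := by
    have h3 := hn a ha
    rwa [h1, one_pow, mul_one] at h3
  have h2' : (t : ℂ) = t' := by exact_mod_cast h2
  have h4 : ∀ n ∈ S, (x / y) ^ n = 1 := by
    intro n hn
    have h5 := hρ n hn
    rw [← h2'] at h5
    apply mul_left_cancel₀ htc
    rw [h5, mul_one]
  have h5 : orderOf (x / y) = 1 := hS _ fun n hn => orderOf_dvd_of_pow_eq_one (h4 n hn)
  rw [orderOf_eq_one_iff] at h5
  exact (div_eq_one_iff_eq hy).mp h5

/-- four power sums -/
theorem alg_four_aux {x y a b c : ℂ} (hc : 3 ≤ ‖c‖) (hx : x ≠ 0) (hxy : x ≠ y)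
    (h1 : x ^ 1 + c * a ^ 1 = y ^ 1 + c * b ^ 1) (h2 : x ^ 2 + c * a ^ 2 = y ^ 2 + c * b ^ 2)
    (h3 : x ^ 3 + c * a ^ 3 = y ^ 3 + c * b ^ 3) (h4 : x ^ 4 + c * a ^ 4 = y ^ 4 + c * b ^ 4) :
    False := by
  have hy' : x - y ≠ 0 := sub_ne_zero.mpr hxy
  have hc1 : c ≠ 1 := by
    rintro rfl
    rw [norm_one] at hc
    norm_num at hc
  have hc2 : c ≠ -1 := by
    rintro rfl
    rw [norm_neg, norm_one] at hc
    norm_num at hc
  by_cases ha : x = a
  · by_cases hb : x = b
    · apply hxy
      rw [← ha, ← hb] at h1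
      linear_combination h1
    · have hb' : x - b ≠ 0 := sub_ne_zero.mpr hb
      have e : x * (x - b) * (x - y) * (1 + c) = 0 := by
        rw [← ha] at h1 h2 h3
        linear_combination h3 - (b + y) * h2 + b * y * h1
      have : (1 + c) ≠ 0 := fun h => hc2 (by linear_combination h)
      exact mul_ne_zero (mul_ne_zero (mul_ne_zero hx hb') hy') this e
  · have ha' : x - a ≠ 0 := sub_ne_zero.mpr ha
    by_cases hb : x = b
    · have e : x * (x - a) * (x - y) * (1 - c) = 0 := by
        rw [← hb] at h1 h2 h3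
        linear_combination h3 - (a + y) * h2 + a * y * h1
      have : (1 - c) ≠ 0 := fun h => hc1 (by linear_combination -h)
      exact mul_ne_zero (mul_ne_zero (mul_ne_zero hx ha') hy') this e
    · have hb' : x - b ≠ 0 := sub_ne_zero.mpr hb
      have e : x * (x - a) * (x - b) * (x - y) = 0 := by
        linear_combination h4 - (a + b + y) * h3 + (a * b + a * y + b * y) * h2 -
          a * b * y * h1
      exact mul_ne_zero (mul_ne_zero (mul_ne_zero hx ha') hb') hy' e

theorem alg_four {x y a b c : ℂ} (hc : 3 ≤ ‖c‖)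
    (h : ∀ j : ℕ, 1 ≤ j → j ≤ 4 → x ^ j + c * a ^ j = y ^ j + c * b ^ j) : x = y := by
  by_contra hxy
  have h1 := h 1 (by norm_num) (by norm_num)
  have h2 := h 2 (by norm_num) (by norm_num)
  have h3 := h 3 (by norm_num) (by norm_num)
  have h4 := h 4 (by norm_num) (by norm_num)
  by_cases hx : x = 0
  · have hy : y ≠ 0 := fun hy => hxy (hx.trans hy.symm)
    exact alg_four_aux hc hy (Ne.symm hxy) h1.symm h2.symm h3.symm h4.symm
  · exact alg_four_aux hc hx hxy h1 h2 h3 h4

/-! ### perfect groups -/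

theorem perfect_hom {T : Type} [Group T] (hT : commutator T = ⊤) (M : Type) [CommGroup M]
    (τ : T →* M) : τ = 1 := by
  have h1 : commutator T ≤ τ.ker := by
    rw [commutator_def, Subgroup.commutator_le]
    intro a _ b _
    rw [MonoidHom.mem_ker, map_commutatorElement, commutatorElement_eq_one_iff_mul_comm, mul_comm]
  rw [hT] at h1
  ext t
  exact h1 (Subgroup.mem_top t)

/-- the indices of the Sylow subgroups of a perfect group -/
theorem three_le_index {T : Type} [Group T] [Finite T] [Nontrivial T] (hT : commutator T = ⊤)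
    {q : ℕ} (hq : q.Prime) (S : Sylow q T) : 3 ≤ (S : Subgroup T).index := by
  haveI : Fact q.Prime := ⟨hq⟩
  have h0 : (S : Subgroup T).index ≠ 0 := Subgroup.index_ne_zero_of_finite
  have h1 : (S : Subgroup T).index ≠ 1 := by
    intro h
    have h2 : (S : Subgroup T) = ⊤ := Subgroup.index_eq_one.mp h
    have h3 : IsPGroup q (⊤ : Subgroup T) := h2 ▸ S.isPGroup'
    have h4 : IsPGroup q T := h3.of_equiv Subgroup.topEquiv
    haveI := h4.isNilpotent
    have h5 : commutator T < ⊤ := Group.IsSolvable.commutator_lt_top_of_nontrivial T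
    exact h5.ne hT
  have h2 : (S : Subgroup T).index ≠ 2 := by
    intro h
    haveI := Subgroup.normal_of_index_eq_two h
    have h3 : Nat.card (T ⧸ (S : Subgroup T)) = 2 := h
    haveI : Fact (Nat.Prime 2) := ⟨Nat.prime_two⟩
    haveI : IsCyclic (T ⧸ (S : Subgroup T)) := isCyclic_of_prime_card h3
    letI : CommGroup (T ⧸ (S : Subgroup T)) := IsCyclic.commGroup
    have h4 := perfect_hom hT (T ⧸ (S : Subgroup T)) (QuotientGroup.mk' (S : Subgroup T))
    have h5 : (S : Subgroup T) = ⊤ := by
      rw [← QuotientGroup.ker_mk' (S : Subgroup T), h4]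
      ext t
      simp
    rw [h5, Subgroup.index_top] at h
    norm_num at h
  omega

/-- the indices of the Sylow subgroups -/
def SS (T : Type) [Group T] : Set ℕ := {n | ∃ q : ℕ, q.Prime ∧ q ∣ Nat.card T ∧ ∃ S : Sylow q T,
  (S : Subgroup T).index = n}

theorem SS_gcd {T : Type} [Group T] [Finite T] [Nontrivial T] (d : ℕ) (h : ∀ n ∈ SS T, d ∣ n) :
    d = 1 := by
  by_contra hd
  obtain ⟨ℓ, hℓ, hℓd⟩ := Nat.exists_prime_and_dvd hd
  have h1 : ∃ q : ℕ, q.Prime ∧ q ∣ Nat.card T :=
    Nat.exists_prime_and_dvd (Finite.one_lt_card (α := T)).ne'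
  obtain ⟨q, hq, hqT⟩ := h1
  have h2 := h _ ⟨q, hq, hqT, default, rfl⟩
  have h3 : ℓ ∣ Nat.card T := (hℓd.trans h2).trans (Subgroup.index_dvd_card _)
  have h4 := h _ ⟨ℓ, hℓ, h3, default, rfl⟩
  haveI : Fact ℓ.Prime := ⟨hℓ⟩
  exact (default : Sylow ℓ T).not_dvd_index (hℓd.trans h4)

/-- a group which is not perfect has a quotient of prime order -/
theorem exists_prime_quot {G : Type} [Group G] [Finite G] (h : commutator G ≠ ⊤) :
    ∃ (A : Type) (_ : CommGroup A) (_ : Finite A) (f : G →* A), Function.Surjective f ∧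
      (Nat.card A).Prime := by
  obtain ⟨N, hN, hle⟩ := (eq_top_or_exists_le_coatom (commutator G)).resolve_left h
  have h1 : N.Normal := by
    constructor
    intro a ha g
    have h2 : g * a * g⁻¹ * a⁻¹ ∈ N := hle (Subgroup.commutator_mem_commutator
      (Subgroup.mem_top g) (Subgroup.mem_top a))
    have h3 := N.mul_mem h2 ha
    have h4 : g * a * g⁻¹ * a⁻¹ * a = g * a * g⁻¹ := by group
    rwa [h4] at h3
  have h2 : IsMulCommutative (G ⧸ N) :=
    Subgroup.Normal.quotient_commutative_iff_commutator_le.mpr hle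
  letI : CommGroup (G ⧸ N) :=
    { (inferInstance : Group (G ⧸ N)) with mul_comm := h2.is_comm.comm }
  refine ⟨G ⧸ N, inferInstance, inferInstance, QuotientGroup.mk' N,
    QuotientGroup.mk'_surjective N, ?_⟩
  haveI : Nontrivial (G ⧸ N) := by
    rw [← not_subsingleton_iff_nontrivial]
    intro h3
    exact hN.1 ((QuotientGroup.subgroup_eq_top_of_subsingleton N h3))
  haveI : IsSimpleGroup (G ⧸ N) := by
    constructor
    intro H _
    have h3 : N ≤ H.comap (QuotientGroup.mk' N) := by
      intro x hx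
      have : QuotientGroup.mk' N x = 1 := (QuotientGroup.eq_one_iff x).mpr hx
      rw [Subgroup.mem_comap, this]
      exact H.one_mem
    rcases h3.eq_or_lt with h4 | h4
    · left
      rw [Subgroup.eq_bot_iff_forall]
      intro x hx
      obtain ⟨g, rfl⟩ := QuotientGroup.mk'_surjective N x
      have h5 : g ∈ H.comap (QuotientGroup.mk' N) := hx
      rw [← h4] at h5
      exact (QuotientGroup.eq_one_iff g).mpr h5
    · right
      have h5 := hN.2 _ h4
      rw [eq_top_iff]
      intro x _
      obtain ⟨g, rfl⟩ := QuotientGroup.mk'_surjective N x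
      have h6 : g ∈ H.comap (QuotientGroup.mk' N) := by
        rw [h5]
        exact Subgroup.mem_top g
      exact h6
  exact IsSimpleGroup.prime_card

end Pool.Agent.H373.PG
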