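import Mathlib

/-!
# Affine groups over the prime `p` have characteristic `p`
-/

set_option autoImplicit false

namespace Pool.Agent.H373.PG

/-- `O_p(G)`, the intersection of the Sylow `p`-subgroups -/
def OP (p : ℕ) (G : Type) [Group G] : Subgroup G := ⨅ P : Sylow p G, (P : Subgroup G)

/-- a normal `p`-subgroup is contained in `O_p(G)` -/
theorem le_OP {p : ℕ} [Fact p.Prime] {G : Type} [Group G] [Finite G] (V : Subgroup G)
    (hn : V.Normal) (hV : IsPGroup p V) : V ≤ OP p G := by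
  obtain ⟨Q, hQ⟩ := hV.exists_le_sylow
  refine le_iInf fun P => ?_
  obtain ⟨g, rfl⟩ := MulAction.exists_smul_eq G Q P
  intro x hx
  have h1 : g⁻¹ * x * g ∈ V := by
    have := hn.conj_mem x hx g⁻¹
    rwa [inv_inv] at this
  have h2 : g⁻¹ * x * g ∈ (Q : Subgroup G) := hQ h1
  rw [Sylow.coe_subgroup_smul, Subgroup.mem_pointwise_smul_iff_inv_smul_mem]
  change (MulAut.conj g)⁻¹ x ∈ (Q : Subgroup G)
  rw [← map_inv, MulAut.conj_apply, inv_inv]
  exact h2

/-- a group with a normal `p`-subgroup which contains its centralizer -/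
theorem char_p {p : ℕ} [Fact p.Prime] {G : Type} [Group G] [Finite G] (V : Subgroup G)
    (hn : V.Normal) (hV : IsPGroup p V) (hc : Subgroup.centralizer (V : Set G) ≤ V) :
    Subgroup.centralizer (OP p G : Set G) ≤ OP p G ∧
      ∀ N : Subgroup G, N.Normal → ¬ p ∣ Nat.card N → N = ⊥ := by
  have h1 := le_OP V hn hV
  refine ⟨(Subgroup.centralizer_le h1).trans (hc.trans h1), fun N hN hp => ?_⟩
  have hdis : V ⊓ N = ⊥ := by
    obtain ⟨k, hk⟩ := IsPGroup.iff_card.mp hV
    have hco : Nat.Coprime (Nat.card V) (Nat.card N) := by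
      rw [hk]
      exact Nat.Coprime.pow_left _ (((Fact.out : p.Prime).coprime_iff_not_dvd).mpr hp)
    exact (Subgroup.disjoint_of_coprime_natCard hco).eq_bot
  have h2 : N ≤ Subgroup.centralizer (V : Set G) := by
    intro x hx
    rw [Subgroup.mem_centralizer_iff]
    intro v hv
    have h3 : v * x * v⁻¹ * x⁻¹ ∈ V ⊓ N := by
      constructor
      · have h4 : x * v⁻¹ * x⁻¹ ∈ V := hn.conj_mem _ (V.inv_mem hv) x
        have h5 := V.mul_mem hv h4
        rwa [show v * (x * v⁻¹ * x⁻¹) = v * x * v⁻¹ * x⁻¹ by group] at h5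
      · exact N.mul_mem (hN.conj_mem x hx v) (N.inv_mem hx)
    rw [hdis, Subgroup.mem_bot] at h3
    have h4 := mul_inv_eq_one.mp h3
    exact mul_inv_eq_iff_eq_mul.mp h4
  have h3 : N ≤ V ⊓ N := le_inf (h2.trans hc) le_rfl
  rw [hdis] at h3
  exact le_bot_iff.mp h3

end Pool.Agent.H373.PG
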