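import Pool.Agent.H373.PG.Wf
import Pool.Graph.R_pool_sql_team_seeded_5cf16337.K3h3.KB.Cov1

/-!
# Clifford theory for normal subgroups of prime index

`f : X → A` surjective onto an abelian group of prime order `r`, `M = ker f`. An irreducible character
`χ` of `X` is free or fixed, as `l χ ≠ χ` for the nontrivial linear characters `l` of `A`, or `l χ = χ`
for all `l`.
-/

set_option autoImplicit false
set_option linter.unusedSectionVars false
set_option linter.style.haveILetI false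

open scoped BigOperators Classical

noncomputable section

namespace Pool.Agent.H373.PG

open Pool.Agent.Helper884 Pool.Agent.H254R3.IN SemidirectProduct
open Pool.Agent.K3h3.KB (ndeg ndeg_eq ndeg_cast ndeg_pos exists_cj exists_mult cj_at_one cj_mem_M
  card_dual sum_dual dualFintype)
open Pool.Agent.Y63.AWC (res mult mult_spec res_eq res_class cj cj_irr cj_mul cj_one cj_res mult_cj
  clifford sum_M)
open Pool.Agent.Y62 (tw tw_irr tw_one)
open IC (Irr)

section cl

variable {X A : Type} [Group X] [CommGroup A] [Fintype X] [Fintype A] (f : X →* A)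

/-- the linear characters `l` of `A` with `l χ = χ` -/
def sb (χ : X → ℂ) : Subgroup (A →* ℂˣ) where
  carrier := {l | ∀ g, (l (f g) : ℂ) * χ g = χ g}
  one_mem' := by intro g; simp
  mul_mem' := by
    intro l m hl hm g
    rw [MonoidHom.mul_apply, Units.val_mul, mul_assoc, hm g, hl g]
  inv_mem' := by
    intro l hl g
    rw [MonoidHom.inv_apply]
    conv_lhs => rw [← hl g]
    rw [← mul_assoc, ← Units.val_mul, inv_mul_cancel, Units.val_one, one_mul]

omit [Fintype X] [Fintype A] in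
theorem mem_sb {χ : X → ℂ} {l : A →* ℂˣ} : l ∈ sb f χ ↔ tw (l.comp f) χ = χ :=
  ⟨fun h => funext h, fun h g => congrFun h g⟩

omit [Fintype X] [Fintype A] in
theorem sb_tw (l : A →* ℂˣ) (χ : X → ℂ) : sb f (tw (l.comp f) χ) = sb f χ := by
  ext m
  constructor
  · intro h g
    have h1 := h g
    change (m (f g) : ℂ) * ((l (f g) : ℂ) * χ g) = (l (f g) : ℂ) * χ g at h1
    have h2 : (l (f g) : ℂ) ≠ 0 := Units.ne_zero _
    apply mul_left_cancel₀ h2
    rw [← h1]
    ring
  · intro h g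
    change (m (f g) : ℂ) * ((l (f g) : ℂ) * χ g) = (l (f g) : ℂ) * χ g
    rw [mul_left_comm, h g]

theorem sb_cases (hA : (Nat.card A).Prime) (χ : X → ℂ) : sb f χ = ⊥ ∨ sb f χ = ⊤ := by
  haveI : Fact (Nat.card (A →* ℂˣ)).Prime := ⟨by rw [card_dual]; exact hA⟩
  exact Subgroup.eq_bot_or_eq_top_of_prime_card _

variable (hf : Function.Surjective f) (M : Subgroup X) (hM : ∀ g, g ∈ M ↔ f g = 1)

include hM in
theorem normal_M : M.Normal := by
  have : M = f.ker := by
    ext g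
    exact hM g
  rw [this]
  infer_instance

include hf hM in
theorem card_X : Nat.card X = Nat.card A * Nat.card M := by
  have : M = f.ker := by
    ext g
    exact hM g
  rw [this, ← f.ker.index_mul_card, Subgroup.index_ker, MonoidHom.range_eq_top.mpr hf,
    Subgroup.card_top]

variable [hN : M.Normal]

include hf hM in
theorem norm_res {χ : X → ℂ} (hχ : IsIrr χ) :
    IC.B (res M χ) (res M χ) = (Nat.card (sb f χ) : ℂ) := by
  have h1 : ∑ l : A →* ℂˣ, IC.B (tw (l.comp f) χ) χ = (Nat.card (sb f χ) : ℂ) := by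
    have h2 : ∀ l : A →* ℂˣ, IC.B (tw (l.comp f) χ) χ = if l ∈ sb f χ then 1 else 0 := by
      intro l
      rw [IC.B_irr (tw_irr _ hχ) hχ]
      simp only [mem_sb]
    simp_rw [h2]
    rw [Finset.sum_boole, Nat.card_eq_fintype_card, Fintype.card_subtype]
  rw [← h1]
  unfold IC.B
  rw [← Finset.mul_sum, Finset.sum_comm]
  have h3 : ∀ g : X, ∑ l : A →* ℂˣ, tw (l.comp f) χ g * χ g⁻¹ =
      (Nat.card A : ℂ) * (if f g = 1 then χ g * χ g⁻¹ else 0) := by
    intro g
    have h4 : ∀ l : A →* ℂˣ, tw (l.comp f) χ g * χ g⁻¹ = (l (f g) : ℂ) * (χ g * χ g⁻¹) := by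
      intro l
      change (l (f g) : ℂ) * χ g * χ g⁻¹ = _
      ring
    simp_rw [h4]
    rw [← Finset.sum_mul, sum_dual]
    split_ifs <;> ring
  simp_rw [h3]
  rw [← Finset.mul_sum, sum_M M (fun g => if f g = 1 then χ g * χ g⁻¹ else 0)
    (fun g hg => if_neg (fun h => hg ((hM g).mpr h))), card_X f hf M hM]
  have h5 : ∀ m : M, (if f (m : X) = 1 then χ (m : X) * χ (m : X)⁻¹ else 0) =
      res M χ m * res M χ m⁻¹ := by
    intro m
    rw [if_pos ((hM _).mp m.2)]
    rfl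
  simp_rw [h5]
  have h6 : (Nat.card A : ℂ) ≠ 0 := by exact_mod_cast Nat.card_pos.ne'
  have h7 : (Nat.card M : ℂ) ≠ 0 := by exact_mod_cast Nat.card_pos.ne'
  push_cast
  field_simp

include hf hM in
theorem mult_sq {χ : X → ℂ} (hχ : IsIrr χ) :
    ∑ θ ∈ Irr M, mult M χ θ ^ 2 = Nat.card (sb f χ) := by
  have h1 := norm_res f hf M hM hχ
  have h2 : IC.B (res M χ) (res M χ) =
      ∑ θ ∈ Irr M, (mult M χ θ : ℂ) ^ 2 := by
    have h3 : IC.B (res M χ) (res M χ) = IC.B (∑ θ ∈ Irr M, (mult M χ θ : ℂ) • θ) (res M χ) := by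
      rw [← res_eq M hχ]
    rw [h3, IC.B_sum_left]
    refine Finset.sum_congr rfl fun θ hθ => ?_
    rw [IC.B_smul_left, IC.B_comm, mult_spec M hχ (mem_Irr.mp hθ), pow_two]
  rw [h2] at h1
  exact_mod_cast h1

/-- the stabilizer of `θ` has index `1` or `r` -/
theorem clif (θ : M → ℂ) (h : IsIrr θ) (hA : (Nat.card A).Prime) (hX : Nat.card X = Nat.card A * Nat.card M) :
    (∑ χ ∈ Irr X, mult M χ θ ^ 2 = 1) ∨
      ((∑ χ ∈ Irr X, mult M χ θ ^ 2 = Nat.card A) ∧ ∀ x : X, cj M x θ = θ) := by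
  have h1 := clifford M θ θ h h
  let IT : Subgroup X :=
    { carrier := {x | cj M x θ = θ}
      one_mem' := cj_one M θ
      mul_mem' := by
        intro a b ha hb
        change cj M (a * b) θ = θ
        rw [cj_mul, show cj M a θ = θ from ha, show cj M b θ = θ from hb]
      inv_mem' := by
        intro a ha
        change cj M a⁻¹ θ = θ
        conv_lhs => rw [← (show cj M a θ = θ from ha)]
        rw [← cj_mul, mul_inv_cancel, cj_one] }
  have h2 : M ≤ IT := fun m hm => cj_mem_M M h ⟨m, hm⟩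
  have h3 : Nat.card {x : X // cj M x θ = θ} = Nat.card IT := rfl
  rw [h3] at h1
  have h4 : ∑ χ ∈ Irr X, mult M χ θ * mult M χ θ = ∑ χ ∈ Irr X, mult M χ θ ^ 2 :=
    Finset.sum_congr rfl fun χ _ => (pow_two _).symm
  rw [h4] at h1
  have h5 : Nat.card IT ∣ Nat.card X := Subgroup.card_subgroup_dvd_card IT
  rw [hX, ← h1, mul_comm (Nat.card A)] at h5
  have h6 := Nat.dvd_of_mul_dvd_mul_left Nat.card_pos h5
  rcases (Nat.dvd_prime hA).mp h6 with h7 | h7
  · exact Or.inl h7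
  · right
    refine ⟨h7, fun x => ?_⟩
    have h8 : IT = ⊤ := by
      apply Subgroup.eq_top_of_card_eq
      rw [← h1, h7, hX, mul_comm]
    have h9 : x ∈ IT := by
      rw [h8]
      exact Subgroup.mem_top x
    exact h9

theorem sq_sum_one {ι : Type} {s : Finset ι} {a : ι → ℕ} (h : ∑ i ∈ s, a i ^ 2 = 1) {i₀ : ι}
    (hi : i₀ ∈ s) (h0 : a i₀ ≠ 0) : a i₀ = 1 ∧ ∀ i ∈ s, i ≠ i₀ → a i = 0 := by
  rw [← Finset.add_sum_erase s _ hi] at h
  have h1 : 1 ≤ a i₀ ^ 2 := Nat.one_le_iff_ne_zero.mpr (pow_ne_zero 2 h0)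
  have h2 : ∑ i ∈ s.erase i₀, a i ^ 2 = 0 := by omega
  have h3 : a i₀ ^ 2 = 1 := by omega
  refine ⟨?_, fun i hi hne => ?_⟩
  · rcases Nat.lt_or_ge (a i₀) 2 with h4 | h4
    · omega
    · nlinarith
  · have h4 := Finset.sum_eq_zero_iff.mp h2 i (Finset.mem_erase.mpr ⟨hne, hi⟩)
    exact pow_eq_zero_iff (two_ne_zero) |>.mp h4

theorem mult_tw (hM : ∀ g, g ∈ M ↔ f g = 1) (l : A →* ℂˣ) (χ : X → ℂ) (θ : M → ℂ) :
    mult M (tw (l.comp f) χ) θ = mult M χ θ := by
  have h1 : res M (tw (l.comp f) χ) = res M χ := by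
    funext m
    change (l (f (m : X)) : ℂ) * χ m = χ m
    rw [(hM _).mp m.2, map_one, Units.val_one, one_mul]
  unfold mult
  rw [h1]

include hf hM in
/-- a free character restricts irreducibly -/
theorem res_free {χ : X → ℂ} (hχ : IsIrr χ) (h : sb f χ = ⊥) :
    IsIrr (res M χ) ∧ mult M χ (res M χ) = 1 ∧
      ∀ θ ∈ Irr M, mult M χ θ ≠ 0 → θ = res M χ := by
  have h1 := mult_sq f hf M hM hχ
  rw [h, Subgroup.card_bot] at h1
  obtain ⟨θ₀, h2, h3⟩ := exists_mult M hχ
  obtain ⟨h4, h5⟩ := sq_sum_one h1 (mem_Irr.mpr h2) h3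
  have h6 : res M χ = θ₀ := by
    rw [res_eq M hχ, Finset.sum_eq_single θ₀]
    · rw [h4, Nat.cast_one, one_smul]
    · intro θ hθ hne
      rw [h5 θ hθ hne, Nat.cast_zero, zero_smul]
    · intro h7
      exact absurd (mem_Irr.mpr h2) h7
  rw [h6]
  refine ⟨h2, h4, fun θ hθ hm => ?_⟩
  by_contra hne
  exact hm (h5 θ hθ hne)

theorem tw_inj {χ : X → ℂ} (h : sb f χ = ⊥) :
    Function.Injective fun l : A →* ℂˣ => tw (l.comp f) χ := by
  intro l m hlm
  have h1 : l * m⁻¹ ∈ sb f χ := by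
    intro g
    have h2 := congrFun hlm g
    change (l (f g) : ℂ) * χ g = (m (f g) : ℂ) * χ g at h2
    rw [MonoidHom.mul_apply, MonoidHom.inv_apply, mul_comm (l (f g)), Units.val_mul, mul_assoc, h2,
      ← mul_assoc, ← Units.val_mul, inv_mul_cancel, Units.val_one, one_mul]
  rw [h, Subgroup.mem_bot] at h1
  exact mul_inv_eq_one.mp h1

include hf hM in
/-- the characters over the restriction of a free character -/
theorem over_free (hA : (Nat.card A).Prime) {χ : X → ℂ} (hχ : IsIrr χ) (h : sb f χ = ⊥)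
    {θ : M → ℂ} (hθ : IsIrr θ) (hm : mult M χ θ ≠ 0) {χ' : X → ℂ} (hχ' : IsIrr χ')
    (hm' : mult M χ' θ ≠ 0) : ∃ l : A →* ℂˣ, χ' = tw (l.comp f) χ := by
  obtain ⟨h1, h2, h3⟩ := res_free f hf M hM hχ h
  have h4 := h3 θ (mem_Irr.mpr hθ) hm
  rw [← h4] at h2
  have h5 : ∑ ψ ∈ Irr X, mult M ψ θ ^ 2 ≤ Nat.card A := by
    rcases clif M θ hθ hA (card_X f hf M hM) with h6 | h6
    · rw [h6]
      exact hA.one_lt.le
    · exact h6.1.le
  by_contra hcon
  push Not at hcon
  have h6 : insert χ' (Finset.univ.image fun l : A →* ℂˣ => tw (l.comp f) χ) ⊆ Irr X := by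
    intro ψ hψ
    rcases Finset.mem_insert.mp hψ with rfl | hψ
    · exact mem_Irr.mpr hχ'
    · obtain ⟨l, -, rfl⟩ := Finset.mem_image.mp hψ
      exact mem_Irr.mpr (tw_irr _ hχ)
  have h7 := Finset.sum_le_sum_of_subset (f := fun ψ => mult M ψ θ ^ 2) h6
  rw [Finset.sum_insert, Finset.sum_image fun l _ m _ hlm => tw_inj f h hlm] at h7
  · simp only [mult_tw f M hM, h2, one_pow, Finset.sum_const, Finset.card_univ, smul_eq_mul,
      mul_one] at h7
    rw [← Nat.card_eq_fintype_card, card_dual] at h7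
    have h8 : 1 ≤ mult M χ' θ ^ 2 := Nat.one_le_iff_ne_zero.mpr (pow_ne_zero 2 hm')
    omega
  · intro h8
    obtain ⟨l, -, hl⟩ := Finset.mem_image.mp h8
    exact hcon l hl.symm

include hf hM in
/-- the characters under a fixed character -/
theorem over_fixed (hA : (Nat.card A).Prime) {χ : X → ℂ} (hχ : IsIrr χ) (h : sb f χ = ⊤)
    {θ : M → ℂ} (hθ : IsIrr θ) (hm : mult M χ θ ≠ 0) :
    (∀ χ' ∈ Irr X, mult M χ' θ ≠ 0 → χ' = χ) ∧ mult M χ θ = 1 := by
  rcases clif M θ hθ hA (card_X f hf M hM) with h1 | ⟨-, h1⟩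
  · obtain ⟨h2, h3⟩ := sq_sum_one h1 (mem_Irr.mpr hχ) hm
    refine ⟨fun χ' h4 h5 => ?_, h2⟩
    by_contra hne
    exact h5 (h3 χ' h4 hne)
  · exfalso
    have h2 := mult_sq f hf M hM hχ
    rw [h, Subgroup.card_top, card_dual, Finset.sum_eq_single θ] at h2
    · have h3 : Nat.Prime (mult M χ θ ^ 2) := h2 ▸ hA
      exact Nat.Prime.not_prime_pow le_rfl h3
    · intro θ' hθ' hne
      by_contra h3
      have h4 : mult M χ θ' ≠ 0 := fun h0 => h3 (by rw [h0]; rfl)
      obtain ⟨x, hx⟩ := exists_cj M hχ (mem_Irr.mp hθ') hθ h4 hm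
      rw [h1 x] at hx
      exact hne hx.symm
    · intro h3
      exact absurd (mem_Irr.mpr hθ) h3

include hf hM in
theorem fixed_deg (hA : (Nat.card A).Prime) {χ : X → ℂ} (hχ : IsIrr χ) (h : sb f χ = ⊤)
    {θ : M → ℂ} (hθ : IsIrr θ) (hm : mult M χ θ ≠ 0) :
    ((Irr M).filter fun θ' => mult M χ θ' ≠ 0).card = Nat.card A ∧
      ndeg χ = Nat.card A * ndeg θ := by
  have h1 : ∀ θ' ∈ (Irr M).filter (fun θ' => mult M χ θ' ≠ 0), mult M χ θ' = 1 := by
    intro θ' hθ'
    rw [Finset.mem_filter, mem_Irr] at hθ'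
    exact (over_fixed f hf M hM hA hχ h hθ'.1 hθ'.2).2
  have h2 : ((Irr M).filter fun θ' => mult M χ θ' ≠ 0).card = Nat.card A := by
    have h3 := mult_sq f hf M hM hχ
    rw [h, Subgroup.card_top, card_dual] at h3
    rw [← h3, Finset.card_filter]
    refine Finset.sum_congr rfl fun θ' hθ' => ?_
    by_cases h4 : mult M χ θ' ≠ 0
    · rw [if_pos h4, h1 θ' (Finset.mem_filter.mpr ⟨hθ', h4⟩)]
      rfl
    · rw [if_neg h4]
      push Not at h4
      rw [h4]
      rfl
  refine ⟨h2, ?_⟩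
  apply ndeg_eq
  have h3 := congrFun (res_eq M hχ) 1
  rw [Finset.sum_apply] at h3
  have h4 : ∀ θ' ∈ Irr M, ((mult M χ θ' : ℂ) • θ') 1 =
      if mult M χ θ' ≠ 0 then (ndeg θ : ℂ) else 0 := by
    intro θ' hθ'
    by_cases h5 : mult M χ θ' ≠ 0
    · rw [if_pos h5, h1 θ' (Finset.mem_filter.mpr ⟨hθ', h5⟩), Nat.cast_one, one_smul,
        ndeg_cast hθ]
      obtain ⟨x, hx⟩ := exists_cj M hχ (mem_Irr.mp hθ') hθ h5 hm
      rw [← hx, cj_at_one]
    · rw [if_neg h5]
      push Not at h5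
      rw [h5, Nat.cast_zero, zero_smul]
      rfl
  rw [Finset.sum_congr rfl h4, ← Finset.sum_filter, Finset.sum_const, h2, nsmul_eq_mul] at h3
  change χ 1 = _ at h3
  rw [h3]
  push_cast
  rfl

include hf hM in
/-- the weighted number of the characters over `θ` -/
theorem sum_card_sb (hA : (Nat.card A).Prime) {θ : M → ℂ} (hθ : IsIrr θ) :
    ∑ χ ∈ (Irr X).filter (fun χ => mult M χ θ ≠ 0), Nat.card (sb f χ) = Nat.card A := by
  obtain ⟨χ, hχ, hm⟩ : ∃ χ : X → ℂ, IsIrr χ ∧ mult M χ θ ≠ 0 := by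
    by_contra hcon
    push Not at hcon
    have h1 : ∑ χ ∈ Irr X, mult M χ θ ^ 2 = 0 :=
      Finset.sum_eq_zero fun χ hχ => by rw [hcon χ (mem_Irr.mp hχ)]; rfl
    rcases clif M θ hθ hA (card_X f hf M hM) with h2 | ⟨h2, -⟩
    · omega
    · have := hA.pos
      omega
  rcases sb_cases f hA χ with h | h
  · have h1 : (Irr X).filter (fun χ => mult M χ θ ≠ 0) =
        Finset.univ.image fun l : A →* ℂˣ => tw (l.comp f) χ := by
      ext ψ
      rw [Finset.mem_filter, mem_Irr, Finset.mem_image]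
      constructor
      · rintro ⟨h1, h2⟩
        obtain ⟨l, hl⟩ := over_free f hf M hM hA hχ h hθ hm h1 h2
        exact ⟨l, Finset.mem_univ _, hl.symm⟩
      · rintro ⟨l, -, rfl⟩
        refine ⟨tw_irr _ hχ, ?_⟩
        rw [mult_tw f M hM]
        exact hm
    rw [h1, Finset.sum_image fun l _ m _ hlm => tw_inj f h hlm]
    simp only [sb_tw, h, Subgroup.card_bot, Finset.sum_const, Finset.card_univ, smul_eq_mul,
      mul_one]
    rw [← Nat.card_eq_fintype_card, card_dual]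
  · have h1 : (Irr X).filter (fun χ => mult M χ θ ≠ 0) = {χ} := by
      ext ψ
      rw [Finset.mem_filter, Finset.mem_singleton]
      constructor
      · rintro ⟨h1, h2⟩
        exact (over_fixed f hf M hM hA hχ h hθ hm).1 ψ h1 h2
      · rintro rfl
        exact ⟨mem_Irr.mpr hχ, hm⟩
    rw [h1, Finset.sum_singleton, h, Subgroup.card_top, card_dual]

include hf hM in
/-- **sums over the irreducible characters of `M`** -/
theorem sum_over (hA : (Nat.card A).Prime) (F : (M → ℂ) → ℂ) :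
    (Nat.card A : ℂ) * ∑ θ ∈ Irr M, F θ =
      ∑ χ ∈ (Irr X).filter (fun χ => sb f χ = ⊥), F (res M χ) +
        (Nat.card A : ℂ) * ∑ χ ∈ (Irr X).filter (fun χ => sb f χ = ⊤),
          ∑ θ ∈ (Irr M).filter (fun θ => mult M χ θ ≠ 0), F θ := by
  have h1 : (Nat.card A : ℂ) * ∑ θ ∈ Irr M, F θ =
      ∑ χ ∈ Irr X, (Nat.card (sb f χ) : ℂ) *
        ∑ θ ∈ (Irr M).filter (fun θ => mult M χ θ ≠ 0), F θ := by
    rw [Finset.mul_sum]
    have h2 : ∀ θ ∈ Irr M, (Nat.card A : ℂ) * F θ =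
        ∑ χ ∈ Irr X, if mult M χ θ ≠ 0 then (Nat.card (sb f χ) : ℂ) * F θ else 0 := by
      intro θ hθ
      rw [← sum_card_sb f hf M hM hA (mem_Irr.mp hθ), Nat.cast_sum, Finset.sum_mul,
        Finset.sum_filter]
    rw [Finset.sum_congr rfl h2, Finset.sum_comm]
    refine Finset.sum_congr rfl fun χ _ => ?_
    rw [Finset.mul_sum, Finset.sum_filter]
  rw [h1, ← Finset.sum_filter_add_sum_filter_not (Irr X) (fun χ => sb f χ = ⊥)]
  congr 1
  · refine Finset.sum_congr rfl fun χ hχ => ?_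
    rw [Finset.mem_filter, mem_Irr] at hχ
    rw [hχ.2, Subgroup.card_bot, Nat.cast_one, one_mul]
    obtain ⟨h3, h4, h5⟩ := res_free f hf M hM hχ.1 hχ.2
    have h6 : (Irr M).filter (fun θ => mult M χ θ ≠ 0) = {res M χ} := by
      ext θ
      rw [Finset.mem_filter, Finset.mem_singleton]
      constructor
      · rintro ⟨h6, h7⟩
        exact h5 θ h6 h7
      · rintro rfl
        refine ⟨mem_Irr.mpr h3, ?_⟩
        rw [h4]
        exact one_ne_zero
    rw [h6, Finset.sum_singleton]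
  · rw [Finset.mul_sum]
    have h3 : (Irr X).filter (fun χ => ¬ sb f χ = ⊥) = (Irr X).filter (fun χ => sb f χ = ⊤) := by
      refine Finset.filter_congr fun χ _ => ?_
      constructor
      · intro h
        exact (sb_cases f hA χ).resolve_left h
      · intro h h'
        rw [h] at h'
        have h4 : Nat.card (⊤ : Subgroup (A →* ℂˣ)) = Nat.card (⊥ : Subgroup (A →* ℂˣ)) := by
          rw [h']
        rw [Subgroup.card_top, Subgroup.card_bot, card_dual] at h4
        exact hA.one_lt.ne' h4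
    rw [h3]
    refine Finset.sum_congr rfl fun χ hχ => ?_
    rw [Finset.mem_filter] at hχ
    rw [hχ.2, Subgroup.card_top, card_dual]

end cl

end Pool.Agent.H373.PG
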