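import Pool.Agent.H373.PG.Main

/-!
# Classes of groups and the induction
-/

set_option autoImplicit false
set_option linter.unusedSectionVars false
set_option linter.style.haveILetI false

open scoped BigOperators Classical

noncomputable section

namespace Pool.Agent.H373.PG

open SemidirectProduct
open Pool.Agent.K3h3.MK (NN)
open Pool.Agent.K3h3.KB (consE reE)
open Pool.Agent.E8helper60.CQ (piAct)

/-- Closure properties of a class `𝒢` of finite groups: isomorphic groups, normal subgroups, direct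
products of two groups, groups with a surjective homomorphism with kernel in `𝒢` onto a cyclic
`p'`-group or onto `T`, and groups with a surjective homomorphism with an abelian `p'`-group as kernel
onto a group of `𝒢`. -/
structure Cls (p : ℕ) (T : Type) [Group T] (𝒢 : (G : Type) → [Group G] → Prop) : Prop where
  iso : ∀ {G H : Type} [Group G] [Group H] [Finite G], G ≃* H → 𝒢 G → 𝒢 H
  normal : ∀ {G : Type} [Group G] [Finite G] (N : Subgroup G), N.Normal → 𝒢 G → 𝒢 N
  prod : ∀ {G H : Type} [Group G] [Group H] [Finite G] [Finite H], 𝒢 G → 𝒢 H → 𝒢 (G × H)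
  up : ∀ {G H : Type} [Group G] [Group H] [Finite G] (π : G →* H), Function.Surjective π →
    (Nonempty (H ≃* T) ∨ (IsCyclic H ∧ ¬ p ∣ Nat.card H)) → 𝒢 π.ker → 𝒢 G
  down : ∀ {G H : Type} [Group G] [Group H] [Finite G] (π : G →* H), Function.Surjective π →
    (∀ a ∈ π.ker, ∀ b ∈ π.ker, a * b = b * a) → ¬ p ∣ Nat.card π.ker → 𝒢 H → 𝒢 G

section

variable {p : ℕ} {T : Type} [Group T] {𝒢 : (G : Type) → [Group G] → Prop}

theorem Cls.pi (h : Cls p T 𝒢) {G I : Type} [Group G] [Finite G] [Fintype I] (hG : 𝒢 G) :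
    𝒢 (I → G) := by
  have key : ∀ n : ℕ, 𝒢 (Fin n → G) := by
    intro n
    induction n with
    | zero =>
      have h1 : 𝒢 (⊥ : Subgroup G) := h.normal ⊥ inferInstance hG
      haveI : Unique (Fin 0 → G) := inferInstance
      let e : (⊥ : Subgroup G) ≃* (Fin 0 → G) :=
        { toFun := fun _ => 1
          invFun := fun _ => 1
          left_inv := fun _ => Subsingleton.elim _ _
          right_inv := fun _ => Subsingleton.elim _ _
          map_mul' := fun _ _ => Subsingleton.elim _ _ }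
      exact h.iso e h1
    | succ n ih => exact h.iso (consE G n).symm (h.prod hG ih)
  exact h.iso (reE G (Fintype.equivFin I)).symm (key _)

/-- the kernel of the projection of a semidirect product -/
def kerR {N H : Type} [Group N] [Group H] (φ : H →* MulAut N) :
    (rightHom : N ⋊[φ] H →* H).ker ≃* N where
  toFun x := x.1.left
  invFun n := ⟨inl n, rfl⟩
  left_inv x := by
    apply Subtype.ext
    ext
    · rfl
    · exact x.2.symm
  right_inv _ := rfl
  map_mul' x y := by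
    change (x.1 * y.1).left = x.1.left * y.1.left
    have h1 : x.1.right = 1 := x.2
    rw [mul_left, h1, map_one, MulAut.one_apply]

theorem Cls.ww (h : Cls p T 𝒢) {G H Ω : Type} [Group G] [Finite G] [Group H] [Finite H]
    [Fintype Ω] [MulAction H Ω] (hH : Nonempty (H ≃* T) ∨ (IsCyclic H ∧ ¬ p ∣ Nat.card H))
    (hG : 𝒢 G) : 𝒢 (WW H Ω G) := by
  haveI : Finite (WW H Ω G) := Finite.of_equiv _ equivProd.symm
  exact h.up (rightHom : WW H Ω G →* H) rightHom_surjective hH
    (h.iso (kerR (arr H Ω G)).symm (h.pi hG))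

theorem Cls.ker (h : Cls p T 𝒢) {G A : Type} [Group G] [Group A] [Finite G] (f : G →* A)
    (hG : 𝒢 G) : 𝒢 f.ker := h.normal f.ker inferInstance hG

theorem Cls.sd (h : Cls p T 𝒢) [hp : Fact p.Prime] {X V : Type} [Group X] [Finite X] [CommGroup V]
    [Finite V] (hV : ¬ p ∣ Nat.card V) (k : ℕ) (φ : X →* MulAut (Fin k → V)) (hX : 𝒢 X) :
    𝒢 ((Fin k → V) ⋊[φ] X) := by
  haveI : Finite ((Fin k → V) ⋊[φ] X) := Finite.of_equiv _ equivProd.symm
  refine h.down (rightHom : (Fin k → V) ⋊[φ] X →* X) rightHom_surjective ?_ ?_ hX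
  · intro a ha b hb
    have h1 : (⟨a, ha⟩ * ⟨b, hb⟩ : (rightHom : (Fin k → V) ⋊[φ] X →* X).ker) =
        ⟨b, hb⟩ * ⟨a, ha⟩ := by
      apply (kerR φ).injective
      rw [map_mul, map_mul, mul_comm]
    exact congrArg Subtype.val h1
  · rw [Nat.card_congr (kerR φ).toEquiv, Nat.card_fun]
    intro h1
    exact hV (hp.out.dvd_of_dvd_pow h1)

end

/-! ### the induction -/

section ind

variable {p : ℕ} [hp : Fact p.Prime] (Γ : Set (ℂ ≃+* ℂ)) (w : ℕ →* ℂ)
  {T : Type} [Group T] [Finite T] [Nontrivial T] {𝒢 : (G : Type) → [Group G] → Prop}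

/-- the step for a homomorphism onto a group of order `p` -/
theorem indP (hw : ∀ n, w n = 0 ↔ p ∣ n) (hΓ : RF p Γ) (hΓp : HP p Γ w) (hT : commutator T = ⊤)
    (hTp : ¬ p ∣ Nat.card T) (h𝒢 : Cls p T 𝒢) (n : ℕ)
    (ih : ∀ m < n, ∀ (G : Type) [Group G] [Finite G], 𝒢 G → Bd (fun _ => True) m G →
      Good p Γ w G) (G : Type) [Group G] [Finite G] (hG : 𝒢 G) (hb : Bd (fun _ => True) n G)
    (A : Type) [CommGroup A] [Finite A] (f : G →* A) (hf : Function.Surjective f)
    (hA : Nat.card A = p) : Good p Γ w G := by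
  haveI := Fintype.ofFinite T
  let P : Sylow p G := default
  refine good_of Γ w P ?_
  have hA' : (Nat.card A).Prime := hA ▸ hp.out
  obtain ⟨t, ht, h1⟩ := hΓp G A f hf hA
  obtain ⟨t', ht', h2⟩ := hΓp (NN P) A (f.comp (NN P).subtype) (surj_NN hf hA' P) hA
  -- the module
  let m := p * Nat.card T + 1
  haveI : NeZero m := ⟨Nat.succ_ne_zero _⟩
  have hmp : ¬ p ∣ m := by
    intro h
    have := (Nat.dvd_add_right (Dvd.intro (Nat.card T) rfl)).mp h
    exact hp.out.one_lt.ne' (Nat.dvd_one.mp this)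
  have hm3 : 3 ≤ m := by
    have h3 := hp.out.two_le
    have h4 : 0 < Nat.card T := Nat.card_pos
    have h5 : 2 * 1 ≤ p * Nat.card T := Nat.mul_le_mul h3 h4
    change 3 ≤ p * Nat.card T + 1
    omega
  have hcop : (Nat.card T).Coprime (Nat.card (CC m)) := by
    rw [card_CC]
    change (Nat.card T).Coprime (p * Nat.card T + 1)
    rw [Nat.coprime_mul_right_add_right]
    exact Nat.coprime_one_right _
  refine alg_gcd ht ht' (S := SS T) SS_gcd ?_ ?_
  · rintro a ⟨q, hq, -, S, rfl⟩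
    exact three_le_index hT hq S
  · rintro a ⟨q, hq, -, S, rfl⟩
    haveI : Fintype (T ⧸ (S : Subgroup T)) := Fintype.ofFinite _
    have h3 : Fintype.card (T ⧸ (S : Subgroup T)) = (S : Subgroup T).index := by
      rw [← Nat.card_eq_fintype_card]
      rfl
    have h4 := three_le_index hT hq S
    rw [← h3] at h4 ⊢
    rw [← h1 _ (by omega), ← h2 _ (by omega)]
    congr 1
    haveI : Nontrivial (T ⧸ (S : Subgroup T)) := Fintype.one_lt_card_iff_nontrivial.mp (by omega)
    refine stepP Γ w hw (T := T) (Ω := T ⧸ (S : Subgroup T)) (C := CC m) f P hTp inferInstance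
      (vact_inj (Or.inl (CC_sq hm3))) (Or.inr (VV_dvd T m hmp)) (VV_fix Γ hΓ T m hmp) ?_
    intro k
    haveI : Finite (WW T (T ⧸ (S : Subgroup T)) G) := Finite.of_equiv _ equivProd.symm
    have hX : Bd (fun _ => True) (n / p)
        (WF f : WW T (T ⧸ (S : Subgroup T)) G →* A).ker := by
      apply bd_of_hom
      intro M _ _ ρ hρ _
      rw [Nat.le_div_iff_mul_le hp.out.pos, mul_comm]
      exact bd_ker f hf hA (fun _ h => h) h4 (fun M _ _ _ τ => perfect_hom hT M τ) hb M ρ hρ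
        trivial
    refine ih (n / p) (Nat.div_lt_self ?_ hp.out.one_lt) _ ?_ ?_
    · have h5 := hb ⊤ le_top trivial
      rw [Subgroup.index_top] at h5
      omega
    · exact h𝒢.sd (VV_dvd T m hmp) k _ (h𝒢.ker _ (h𝒢.ww (Or.inl ⟨MulEquiv.refl T⟩) hG))
    · exact bd_sd _ (pT_surj f) _ (fun M _ ρ hρ => no_inv hcop ρ hρ) hX

/-- the step for a homomorphism onto a group of prime order `r ≠ p`, with one cyclic group `J` -/
theorem indR_one (hw : ∀ n, w n = 0 ↔ p ∣ n) (hΓ : RF p Γ) (hT : commutator T = ⊤)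
    (hTp : ¬ p ∣ Nat.card T) (h𝒢 : Cls p T 𝒢) (n : ℕ)
    (ih : ∀ m < n, ∀ (G : Type) [Group G] [Finite G], 𝒢 G → Bd (fun _ => True) m G →
      Good p Γ w G) (G : Type) [Group G] [Finite G] (hG : 𝒢 G) (hb : Bd (fun _ => True) n G)
    (A : Type) [CommGroup A] [Finite A] (f : G →* A) (hf : Function.Surjective f)
    {r : ℕ} (hA : Nat.card A = r) (hr : r.Prime) (hrp : r ≠ p) (J : Type) [CommGroup J] [Fintype J]
    [IsCyclic J] (hJ : ¬ p ∣ Nat.card J) (P : Sylow p G) :
    wf Γ w (piF J f).ker = wf Γ w (piF J (f.comp (NN P).subtype)).ker := by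
  haveI := Fintype.ofFinite T
  have hpA : ¬ p ∣ Nat.card A := by
    rw [hA]
    intro h
    exact hrp ((Nat.prime_dvd_prime_iff_eq hp.out hr).mp h).symm
  refine good_ker_pi Γ w f P ?_ (Or.inr hpA)
  apply good_congr Γ w (ker1 f)
  haveI : Finite (WW J J G) := Finite.of_equiv _ equivProd.symm
  let P₁ : Sylow p (f1 J f).ker := default
  refine good_of Γ w P₁ ?_
  have hpAJ : ¬ p ∣ Nat.card (A × J) := by
    rw [Nat.card_prod]
    intro h
    rcases (Nat.Prime.dvd_mul hp.out).mp h with h | h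
    · exact hpA h
    · exact hJ h
  refine alg_gcd (t := 1) (t' := 1) Nat.one_pos Nat.one_pos (S := SS T) SS_gcd ?_ ?_
  · rintro a ⟨q, hq, -, S, rfl⟩
    exact three_le_index hT hq S
  · rintro a ⟨q, hq, -, S, rfl⟩
    haveI : Fintype (T ⧸ (S : Subgroup T)) := Fintype.ofFinite _
    have h3 : Fintype.card (T ⧸ (S : Subgroup T)) = (S : Subgroup T).index := by
      rw [← Nat.card_eq_fintype_card]
      rfl
    have h4 := three_le_index hT hq S
    rw [← h3] at h4 ⊢
    congr 1
    haveI : Finite (WW T (T ⧸ (S : Subgroup T)) (WW J J G)) := Finite.of_equiv _ equivProd.symm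
    haveI : Finite (WW T (T ⧸ (S : Subgroup T)) (A × J)) := Finite.of_equiv _ equivProd.symm
    let Y := (WF (MonoidHom.id (A × J)) : WW T (T ⧸ (S : Subgroup T)) (A × J) →* (A × J)).ker
    haveI : Fintype Y := Fintype.ofFinite _
    -- the module
    let m := p * Nat.card Y + 1
    haveI : NeZero m := ⟨Nat.succ_ne_zero _⟩
    have hmp : ¬ p ∣ m := by
      intro h
      have := (Nat.dvd_add_right (Dvd.intro (Nat.card Y) rfl)).mp h
      exact hp.out.one_lt.ne' (Nat.dvd_one.mp this)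
    have hm3 : 3 ≤ m := by
      have h3 := hp.out.two_le
      have h4 : 0 < Nat.card Y := Nat.card_pos
      have h5 : 2 * 1 ≤ p * Nat.card Y := Nat.mul_le_mul h3 h4
      change 3 ≤ p * Nat.card Y + 1
      omega
    have hcop : (Nat.card Y).Coprime (Nat.card (CC m)) := by
      rw [card_CC]
      change (Nat.card Y).Coprime (p * Nat.card Y + 1)
      rw [Nat.coprime_mul_right_add_right]
      exact Nat.coprime_one_right _
    refine stepR Γ w hw (T := T) (Ω := T ⧸ (S : Subgroup T)) (C := CC m) (f1 J f) (f1_surj hf) P₁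
      hTp hpAJ (vact_inj (Or.inl (CC_sq hm3))) (VV_dvd Y m hmp) (VV_fix Γ hΓ Y m hmp) ?_
    intro k
    have hX : Bd (fun _ => True) (n / r)
        (WF (f1 J f) : WW T (T ⧸ (S : Subgroup T)) (WW J J G) →* (A × J)).ker := by
      apply bd_of_hom
      intro M _ _ ρ hρ _
      rw [Nat.le_div_iff_mul_le hr.pos, mul_comm]
      have h5 := bd_ker (r := r * Nat.card J) (f1 J f) (f1_surj hf) (by rw [Nat.card_prod, hA])
        (fun _ h => h) h4 (fun M _ _ _ τ => perfect_hom hT M τ) (bd_wr hb) M ρ hρ trivial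
      have h6 : 0 < Nat.card J := Nat.card_pos
      refine Nat.le_of_mul_le_mul_right ?_ h6
      calc r * Nat.card M * Nat.card J = r * Nat.card J * Nat.card M := by ring
        _ ≤ n * Nat.card J := h5
    refine ih (n / r) (Nat.div_lt_self ?_ hr.one_lt) _ ?_ ?_
    · have h5 := hb ⊤ le_top trivial
      rw [Subgroup.index_top] at h5
      omega
    · exact h𝒢.sd (VV_dvd Y m hmp) k _ (h𝒢.ker _ (h𝒢.ww (Or.inl ⟨MulEquiv.refl T⟩)
        (h𝒢.ww (Or.inr ⟨inferInstance, hJ⟩) hG)))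
    · exact bd_sd _ (pA_surj (f1_surj hf)) _ (fun M _ ρ hρ => no_inv hcop ρ hρ) hX

/-- the step for a homomorphism onto a group of prime order `r ≠ p` -/
theorem indR (hp5 : 5 ≤ p) (hw : ∀ n, w n = 0 ↔ p ∣ n) (hw1 : ∀ n, ‖w n‖ ≤ 1) (hΓ : RF p Γ)
    (hΓr : ∀ r : ℕ, r.Prime → r ≠ p → HG r Γ) (hT : commutator T = ⊤)
    (hTp : ¬ p ∣ Nat.card T) (h𝒢 : Cls p T 𝒢) (n : ℕ)
    (ih : ∀ m < n, ∀ (G : Type) [Group G] [Finite G], 𝒢 G → Bd (fun _ => True) m G →
      Good p Γ w G) (G : Type) [Group G] [Finite G] (hG : 𝒢 G) (hb : Bd (fun _ => True) n G)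
    (A : Type) [CommGroup A] [Finite A] (f : G →* A) (hf : Function.Surjective f)
    {r : ℕ} (hA : Nat.card A = r) (hr : r.Prime) (hrp : r ≠ p) : Good p Γ w G := by
  let P : Sylow p G := default
  refine good_of Γ w P ?_
  have hwr : w r ≠ 0 := by
    rw [Ne, hw]
    intro h
    exact hrp ((Nat.prime_dvd_prime_iff_eq hp.out hr).mp h).symm
  have hc : 3 ≤ ‖(r : ℂ) ^ 2 / w r - 1‖ := by
    have h1 : (4 : ℝ) ≤ ‖(r : ℂ) ^ 2 / w r‖ := by
      rw [norm_div, norm_pow, Complex.norm_natCast, le_div_iff₀ (norm_pos_iff.mpr hwr)]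
      have h2 : (2 : ℝ) ≤ r := by exact_mod_cast hr.two_le
      have h3 := hw1 r
      nlinarith
    have h2 := norm_sub_norm_le ((r : ℂ) ^ 2 / w r) 1
    rw [norm_one] at h2
    linarith
  refine alg_four (a := wx Γ w f) (b := wx Γ w (f.comp (NN P).subtype)) hc ?_
  intro j hj1 hj4
  haveI : NeZero j := ⟨by omega⟩
  haveI : Fintype (CC j) := Fintype.ofFinite _
  have hcJ : Fintype.card (CC j) = j := by
    rw [← Nat.card_eq_fintype_card]
    exact card_CC j
  have hJ : ¬ p ∣ Nat.card (CC j) := by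
    rw [card_CC]
    intro h
    have := Nat.le_of_dvd (by omega) h
    omega
  have h1 := indR_one Γ w hw hΓ hT hTp h𝒢 n ih G hG hb A f hf hA hr hrp (CC j) hJ P
  have h2 := wf_ker_pi Γ w hr (hΓr r hr hrp) (I := CC j) f hf hA
  have h3 := wf_ker_pi Γ w hr (hΓr r hr hrp) (I := CC j) (f.comp (NN P).subtype)
    (surj_NN hf (hA ▸ hr) P) hA
  rw [h1, h3, hcJ] at h2
  apply mul_left_cancel₀ hwr
  have h4 : w r * ((r : ℂ) ^ 2 / w r - 1) = (r : ℂ) ^ 2 - w r := by
    field_simp
  linear_combination -h2 + h4 * (wx Γ w f ^ j - wx Γ w (f.comp (NN P).subtype) ^ j)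

/-- **The reduction to perfect groups.** -/
theorem reduction (hp5 : 5 ≤ p) (hw : ∀ n, w n = 0 ↔ p ∣ n) (hw1 : ∀ n, ‖w n‖ ≤ 1)
    (hΓ : RF p Γ) (hΓr : ∀ r : ℕ, r.Prime → r ≠ p → HG r Γ) (hΓp : HP p Γ w)
    (hT : commutator T = ⊤) (hTp : ¬ p ∣ Nat.card T) (h𝒢 : Cls p T 𝒢)
    (hperf : ∀ (G : Type) [Group G] [Finite G], 𝒢 G → commutator G = ⊤ → Good p Γ w G)
    (G : Type) [Group G] [Finite G] (hG : 𝒢 G) : Good p Γ w G := by
  have key : ∀ n : ℕ, ∀ (G : Type) [Group G] [Finite G], 𝒢 G → Bd (fun _ => True) n G →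
      Good p Γ w G := by
    intro n
    induction n using Nat.strong_induction_on with
    | _ n ih =>
      intro G _ _ hG hb
      by_cases hc : commutator G = ⊤
      · exact hperf G hG hc
      · obtain ⟨A, _, _, f, hf, hA⟩ := exists_prime_quot hc
        by_cases hA2 : Nat.card A = p
        · exact indP Γ w hw hΓ hΓp hT hTp h𝒢 n ih G hG hb A f hf hA2
        · exact indR Γ w hp5 hw hw1 hΓ hΓr hT hTp h𝒢 n ih G hG hb A f hf rfl hA hA2
  refine key (Nat.card G) G hG fun N _ _ => ?_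
  exact Nat.le_of_dvd Nat.card_pos N.index_dvd_card

end ind

end Pool.Agent.H373.PG
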