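import Mathlib

/-!
# Power sums of natural numbers which agree up to small errors
-/

set_option autoImplicit false

open scoped BigOperators Classical

noncomputable section

namespace Pool.Agent.H373.PG

theorem sum_fib {ι : Type} (U : Finset ι) (a : ι → ℕ) (S : Finset ℕ) (hS : ∀ u ∈ U, a u ∈ S)
    (j : ℕ) : ∑ u ∈ U, (a u : ℤ) ^ j =
      ∑ z ∈ S, ((U.filter fun u => a u = z).card : ℤ) * (z : ℤ) ^ j := by
  rw [← Finset.sum_fiberwise_of_maps_to hS]
  refine Finset.sum_congr rfl fun z _ => ?_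
  rw [Finset.sum_congr rfl (g := fun _ => (z : ℤ) ^ j), Finset.sum_const, nsmul_eq_mul]
  intro u hu
  rw [(Finset.mem_filter.mp hu).2]

/-- If the power sums of two families of natural numbers agree up to errors `C c ^ j` for infinitely
many `j`, then the numbers `> c` have the same multiplicities in the two families. -/
theorem grow {ι κ : Type} (U : Finset ι) (V : Finset κ) (a : ι → ℕ) (b : κ → ℕ) (c C : ℕ)
    (h : ∀ J : ℕ, ∃ j, J ≤ j ∧
      |(∑ u ∈ U, (a u : ℤ) ^ j) - ∑ v ∈ V, (b v : ℤ) ^ j| ≤ (C : ℤ) * (c : ℤ) ^ j)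
    (z : ℕ) (hz : c < z) :
    (U.filter fun u => a u = z).card = (V.filter fun v => b v = z).card := by
  let S : Finset ℕ := U.image a ∪ V.image b
  let D : ℕ → ℤ := fun z => ((U.filter fun u => a u = z).card : ℤ) -
    ((V.filter fun v => b v = z).card : ℤ)
  have hsum : ∀ j : ℕ, (∑ u ∈ U, (a u : ℤ) ^ j) - ∑ v ∈ V, (b v : ℤ) ^ j =
      ∑ z ∈ S, D z * (z : ℤ) ^ j := by
    intro j
    rw [sum_fib U a S (fun u hu => Finset.mem_union_left _ (Finset.mem_image_of_mem a hu)),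
      sum_fib V b S (fun v hv => Finset.mem_union_right _ (Finset.mem_image_of_mem b hv)),
      ← Finset.sum_sub_distrib]
    refine Finset.sum_congr rfl fun z _ => ?_
    change _ = (_ - _) * _
    ring
  have hDS : ∀ z, D z ≠ 0 → z ∈ S := by
    intro z hz
    by_contra hcon
    apply hz
    have h1 : (U.filter fun u => a u = z) = ∅ := by
      rw [Finset.filter_eq_empty_iff]
      intro u hu hau
      exact hcon (Finset.mem_union_left _ (hau ▸ Finset.mem_image_of_mem a hu))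
    have h2 : (V.filter fun u => b u = z) = ∅ := by
      rw [Finset.filter_eq_empty_iff]
      intro u hu hau
      exact hcon (Finset.mem_union_right _ (hau ▸ Finset.mem_image_of_mem b hu))
    change ((U.filter fun u => a u = z).card : ℤ) - ((V.filter fun v => b v = z).card : ℤ) = 0
    rw [h1, h2]
    simp
  by_contra hne
  have hDz : D z ≠ 0 := by
    intro h0
    apply hne
    have : ((U.filter fun u => a u = z).card : ℤ) = ((V.filter fun v => b v = z).card : ℤ) :=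
      sub_eq_zero.mp h0
    exact_mod_cast this
  obtain ⟨z₁, hz₁, hmax⟩ := Finset.exists_max_image (S.filter fun z => c < z ∧ D z ≠ 0) id
    ⟨z, Finset.mem_filter.mpr ⟨hDS z hDz, hz, hDz⟩⟩
  rw [Finset.mem_filter] at hz₁
  obtain ⟨hz₁S, hz₁c, hz₁D⟩ := hz₁
  set K : ℤ := ∑ z ∈ S, |D z| with hK
  have hK0 : 0 ≤ K := Finset.sum_nonneg fun _ _ => abs_nonneg _
  have hz1 : (1 : ℤ) ≤ z₁ := by exact_mod_cast (by omega : 1 ≤ z₁)
  have hc1 : (c : ℤ) ≤ (z₁ : ℤ) - 1 := by
    have : (c : ℤ) < z₁ := by exact_mod_cast hz₁c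
    omega
  have key : ∀ j : ℕ, |(∑ u ∈ U, (a u : ℤ) ^ j) - ∑ v ∈ V, (b v : ℤ) ^ j| ≤
      (C : ℤ) * (c : ℤ) ^ j → (z₁ : ℤ) ^ j ≤ (C + K) * ((z₁ : ℤ) - 1) ^ j := by
    intro j hj
    rw [hsum, ← Finset.add_sum_erase S _ hz₁S] at hj
    have h1 : |∑ z ∈ S.erase z₁, D z * (z : ℤ) ^ j| ≤ K * ((z₁ : ℤ) - 1) ^ j := by
      calc |∑ z ∈ S.erase z₁, D z * (z : ℤ) ^ j|
          ≤ ∑ z ∈ S.erase z₁, |D z * (z : ℤ) ^ j| := Finset.abs_sum_le_sum_abs _ _
        _ ≤ ∑ z ∈ S.erase z₁, |D z| * ((z₁ : ℤ) - 1) ^ j := by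
            refine Finset.sum_le_sum fun z hz => ?_
            rw [Finset.mem_erase] at hz
            rw [abs_mul, abs_of_nonneg (a := (z : ℤ) ^ j) (by positivity)]
            by_cases hD : D z = 0
            · rw [hD, abs_zero, zero_mul, zero_mul]
            · refine mul_le_mul_of_nonneg_left ?_ (abs_nonneg _)
              have h2 : z < z₁ := by
                by_contra hcon
                have h3 : z₁ < z := lt_of_le_of_ne (not_lt.mp hcon) (Ne.symm hz.1)
                have h4 := hmax z (Finset.mem_filter.mpr ⟨hz.2, by omega, hD⟩)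
                simp only [id] at h4
                omega
              have h3 : (z : ℤ) ≤ (z₁ : ℤ) - 1 := by
                have : (z : ℤ) < z₁ := by exact_mod_cast h2
                omega
              exact pow_le_pow_left₀ (by positivity) h3 j
        _ = (∑ z ∈ S.erase z₁, |D z|) * ((z₁ : ℤ) - 1) ^ j := by rw [Finset.sum_mul]
        _ ≤ K * ((z₁ : ℤ) - 1) ^ j := by
            refine mul_le_mul_of_nonneg_right ?_ (pow_nonneg (by omega) j)
            exact Finset.sum_le_sum_of_subset_of_nonneg (Finset.erase_subset _ _)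
              fun _ _ _ => abs_nonneg _
    have h2 : (z₁ : ℤ) ^ j ≤ |D z₁ * (z₁ : ℤ) ^ j| := by
      rw [abs_mul, abs_of_nonneg (a := (z₁ : ℤ) ^ j) (by positivity)]
      have : (1 : ℤ) ≤ |D z₁| := Int.one_le_abs hz₁D
      nlinarith [pow_nonneg (by omega : (0 : ℤ) ≤ z₁) j]
    have h3 : (c : ℤ) ^ j ≤ ((z₁ : ℤ) - 1) ^ j := pow_le_pow_left₀ (by positivity) hc1 j
    have h4 : (C : ℤ) * (c : ℤ) ^ j ≤ C * ((z₁ : ℤ) - 1) ^ j :=
      mul_le_mul_of_nonneg_left h3 (by positivity)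
    have h5 := abs_sub_abs_le_abs_sub (D z₁ * (z₁ : ℤ) ^ j)
      (-(∑ z ∈ S.erase z₁, D z * (z : ℤ) ^ j))
    rw [sub_neg_eq_add, abs_neg] at h5
    have h6 : (C + K) * ((z₁ : ℤ) - 1) ^ j = C * ((z₁ : ℤ) - 1) ^ j + K * ((z₁ : ℤ) - 1) ^ j := by
      ring
    rw [h6]
    linarith
  -- growth
  have hz1r : (0 : ℝ) < z₁ := by exact_mod_cast (by omega : 0 < z₁)
  set q : ℝ := ((z₁ : ℝ) - 1) / z₁ with hq
  have hq0 : 0 ≤ q := div_nonneg (by
    have : (1 : ℝ) ≤ z₁ := by exact_mod_cast (by omega : 1 ≤ z₁)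
    linarith) hz1r.le
  have hq1 : q < 1 := by
    rw [hq, div_lt_one hz1r]
    linarith
  have hCK : (0 : ℝ) < (C : ℝ) + K + 1 := by
    have h1 : (0 : ℝ) ≤ (K : ℝ) := by exact_mod_cast hK0
    positivity
  obtain ⟨J, hJ⟩ := exists_pow_lt_of_lt_one (show (0 : ℝ) < 1 / ((C : ℝ) + K + 1) by positivity) hq1
  obtain ⟨j, hj, hb⟩ := h J
  have h1 := key j hb
  have h2 : ((z₁ : ℝ)) ^ j ≤ ((C : ℝ) + K) * ((z₁ : ℝ) - 1) ^ j := by exact_mod_cast h1
  have h3 : q ^ j ≤ q ^ J := pow_le_pow_of_le_one hq0 hq1.le hj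
  have h4 : ((z₁ : ℝ) - 1) ^ j = q ^ j * (z₁ : ℝ) ^ j := by
    rw [hq, div_pow, div_mul_cancel₀]
    positivity
  rw [h4] at h2
  have h5 : (0 : ℝ) < (z₁ : ℝ) ^ j := by positivity
  have h6 : (1 : ℝ) ≤ ((C : ℝ) + K) * q ^ j := by
    have h7 : 1 * (z₁ : ℝ) ^ j ≤ (((C : ℝ) + K) * q ^ j) * (z₁ : ℝ) ^ j := by
      rw [one_mul, mul_assoc]
      exact h2
    exact le_of_mul_le_mul_right h7 h5
  have h7 : ((C : ℝ) + K + 1) * q ^ j < 1 := by
    have h8 := lt_of_le_of_lt h3 hJ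
    rw [lt_div_iff₀ hCK] at h8
    linarith
  have h8 : 0 ≤ q ^ j := pow_nonneg hq0 j
  linarith

end Pool.Agent.H373.PG
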