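import Mathlib

/-!
# Kernels in wreath products: abelian quotients
-/

set_option autoImplicit false
set_option linter.unusedSectionVars false
set_option linter.style.haveILetI false

open scoped BigOperators Classical commutatorElement

noncomputable section

namespace Pool.Agent.H373.PG

open SemidirectProduct

/-! ### abelian quotients of bounded order -/

/-- all abelian quotients of `G` whose order satisfies `Q` have order at most `n` -/
def Bd (Q : ℕ → Prop) (n : ℕ) (G : Type) [Group G] : Prop :=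
  ∀ N : Subgroup G, commutator G ≤ N → Q N.index → N.index ≤ n

theorem bd_of_hom {Q : ℕ → Prop} {n : ℕ} {G : Type} [Group G] [Finite G]
    (h : ∀ (M : Type) [CommGroup M] [Finite M] (ρ : G →* M), Function.Surjective ρ →
      Q (Nat.card M) → Nat.card M ≤ n) : Bd Q n G := by
  intro N hN hQ
  have h1 : N.Normal := by
    constructor
    intro a ha g
    have h2 : g * a * g⁻¹ * a⁻¹ ∈ N := hN (Subgroup.commutator_mem_commutator (Subgroup.mem_top g)
      (Subgroup.mem_top a))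
    have h3 := N.mul_mem h2 ha
    have h4 : g * a * g⁻¹ * a⁻¹ * a = g * a * g⁻¹ := by group
    rwa [h4] at h3
  have h2 : IsMulCommutative (G ⧸ N) :=
    Subgroup.Normal.quotient_commutative_iff_commutator_le.mpr hN
  letI : CommGroup (G ⧸ N) :=
    { (inferInstance : Group (G ⧸ N)) with mul_comm := h2.is_comm.comm }
  exact h (G ⧸ N) (QuotientGroup.mk' N) (QuotientGroup.mk'_surjective N) hQ

theorem ker_index {G M : Type} [Group G] [Group M] (ρ : G →* M) :
    ρ.ker.index = Nat.card ρ.range := Subgroup.index_ker ρ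

theorem comm_le_ker {G M : Type} [Group G] [CommGroup M] (ρ : G →* M) :
    commutator G ≤ ρ.ker := by
  rw [commutator_def, Subgroup.commutator_le]
  intro a _ b _
  rw [MonoidHom.mem_ker, map_commutatorElement, commutatorElement_eq_one_iff_mul_comm, mul_comm]

/-! ### the wreath product -/

section W

variable (T Ω G : Type) [Group T] [MulAction T Ω] [Group G]

/-- the action on the functions `Ω → G` -/
def arr : T →* MulAut (Ω → G) where
  toFun t :=
    { toFun := fun g ω => g (t⁻¹ • ω)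
      invFun := fun g ω => g (t • ω)
      left_inv := fun g => by
        funext ω
        simp
      right_inv := fun g => by
        funext ω
        simp
      map_mul' := fun _ _ => rfl }
  map_one' := by
    ext g ω
    simp
  map_mul' s t := by
    ext g ω
    simp [mul_smul]

theorem arr_apply (t : T) (g : Ω → G) (ω : Ω) : arr T Ω G t g ω = g (t⁻¹ • ω) := rfl

/-- the wreath product -/
abbrev WW : Type := (Ω → G) ⋊[arr T Ω G] T

variable {T Ω G}

theorem arr_mulSingle (t : T) (ω : Ω) (g : G) :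
    arr T Ω G t (Pi.mulSingle ω g) = Pi.mulSingle (t • ω) g := by
  funext i
  rw [arr_apply]
  by_cases h : i = t • ω
  · subst h
    rw [inv_smul_smul, Pi.mulSingle_eq_same, Pi.mulSingle_eq_same]
  · rw [Pi.mulSingle_eq_of_ne h, Pi.mulSingle_eq_of_ne]
    intro h1
    apply h
    rw [← h1, smul_inv_smul]

variable {A : Type} [CommGroup A] [Fintype Ω]

/-- `(g, t) ↦ ∏ f(g_ω)` -/
def WF (f : G →* A) : WW T Ω G →* A where
  toFun x := ∏ ω, f (x.left ω)
  map_one' := by simp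
  map_mul' x y := by
    rw [mul_left]
    simp only [Pi.mul_apply, map_mul, Finset.prod_mul_distrib]
    congr 1
    refine Fintype.prod_equiv (MulAction.toPerm x.right⁻¹) _ _ fun ω => ?_
    rfl

theorem WF_apply (f : G →* A) (x : WW T Ω G) : WF f x = ∏ ω, f (x.left ω) := rfl

theorem WF_inl (f : G →* A) (g : Ω → G) : WF f (inl g : WW T Ω G) = ∏ ω, f (g ω) := rfl

theorem WF_inr (f : G →* A) (t : T) : WF f (inr t : WW T Ω G) = 1 := by
  rw [WF_apply]
  simp

theorem prod_mulSingle (f : G →* A) (i : Ω) (g : G) :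
    ∏ ω, f ((Pi.mulSingle i g : Ω → G) ω) = f g := by
  rw [Finset.prod_eq_single i]
  · rw [Pi.mulSingle_eq_same]
  · intro j _ hj
    rw [Pi.mulSingle_eq_of_ne hj, map_one]
  · intro h
    exact absurd (Finset.mem_univ i) h

/-! ### homomorphisms of the kernel to abelian groups -/

section D

variable (f : G →* A)

/-- the base group of the kernel -/
def BB : Subgroup (Ω → G) where
  carrier := {g | ∏ ω, f (g ω) = 1}
  one_mem' := by simp
  mul_mem' := by
    intro a b ha hb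
    change ∏ ω, f (a ω * b ω) = 1
    simp only [map_mul, Finset.prod_mul_distrib]
    rw [show ∏ ω, f (a ω) = 1 from ha, show ∏ ω, f (b ω) = 1 from hb, one_mul]
  inv_mem' := by
    intro a ha
    change ∏ ω, f (a ω)⁻¹ = 1
    simp only [map_inv, Finset.prod_inv_distrib]
    rw [show ∏ ω, f (a ω) = 1 from ha, inv_one]

theorem mem_BB {g : Ω → G} : g ∈ BB f ↔ ∏ ω, f (g ω) = 1 := Iff.rfl

theorem arr_BB (t : T) {g : Ω → G} (hg : g ∈ BB f) : arr T Ω G t g ∈ BB f := by
  rw [mem_BB] at *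
  rw [← hg]
  refine Fintype.prod_equiv (MulAction.toPerm t⁻¹) _ _ fun ω => ?_
  rfl

/-- `g` at `ω` and `g⁻¹` at `ω'` -/
def dd (g : G) (ω ω' : Ω) : BB (Ω := Ω) f :=
  ⟨Pi.mulSingle ω g * Pi.mulSingle ω' g⁻¹, by
    rw [mem_BB]
    simp only [Pi.mul_apply, map_mul, Finset.prod_mul_distrib]
    rw [prod_mulSingle, prod_mulSingle, map_inv, mul_inv_cancel]⟩

/-- `g` at `ω` -/
def ss (ω : Ω) : f.ker →* BB (Ω := Ω) f where
  toFun g := ⟨Pi.mulSingle ω (g : G), by
    rw [mem_BB, prod_mulSingle]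
    exact g.2⟩
  map_one' := by
    apply Subtype.ext
    simp
  map_mul' a b := by
    apply Subtype.ext
    simp [Pi.mulSingle_mul]

theorem dd_apply_of_ne (g : G) {ω ω' ω'' : Ω} (h : ω'' ≠ ω) (h' : ω'' ≠ ω') :
    (dd f g ω ω' : Ω → G) ω'' = 1 := by
  change (Pi.mulSingle ω g * Pi.mulSingle ω' g⁻¹ : Ω → G) ω'' = 1
  rw [Pi.mul_apply, Pi.mulSingle_eq_of_ne h, Pi.mulSingle_eq_of_ne h', mul_one]

theorem dd_apply_right (g : G) {ω ω' : Ω} (h : ω ≠ ω') : (dd f g ω ω' : Ω → G) ω' = g⁻¹ := by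
  change (Pi.mulSingle ω g * Pi.mulSingle ω' g⁻¹ : Ω → G) ω' = g⁻¹
  rw [Pi.mul_apply, Pi.mulSingle_eq_of_ne h.symm, Pi.mulSingle_eq_same, one_mul]

theorem dd_apply_left (g : G) {ω ω' : Ω} (h : ω ≠ ω') : (dd f g ω ω' : Ω → G) ω = g := by
  change (Pi.mulSingle ω g * Pi.mulSingle ω' g⁻¹ : Ω → G) ω = g
  rw [Pi.mul_apply, Pi.mulSingle_eq_of_ne h, Pi.mulSingle_eq_same, mul_one]

theorem dd_mul (g : G) (ω ω' ω'' : Ω) : dd f g ω ω' * dd f g ω' ω'' = dd f g ω ω'' := by
  apply Subtype.ext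
  change (Pi.mulSingle ω g * Pi.mulSingle ω' g⁻¹) * (Pi.mulSingle ω' g * Pi.mulSingle ω'' g⁻¹) =
    (Pi.mulSingle ω g * Pi.mulSingle ω'' g⁻¹ : Ω → G)
  rw [mul_assoc, ← mul_assoc (Pi.mulSingle ω' g⁻¹ : Ω → G), ← Pi.mulSingle_mul, inv_mul_cancel,
    Pi.mulSingle_one, one_mul]

variable {M : Type} [CommGroup M] (ρ : BB (Ω := Ω) f →* M)
  (hρ : ∀ (t : T) (b : BB (Ω := Ω) f), ρ ⟨arr T Ω G t b, arr_BB f t b.2⟩ = ρ b)

include hρ in
theorem rho_dd (t : T) (g : G) (ω ω' : Ω) : ρ (dd f g (t • ω) (t • ω')) = ρ (dd f g ω ω') := by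
  rw [← hρ t (dd f g ω ω')]
  congr 1
  apply Subtype.ext
  change (Pi.mulSingle (t • ω) g * Pi.mulSingle (t • ω') g⁻¹ : Ω → G) =
    arr T Ω G t (Pi.mulSingle ω g * Pi.mulSingle ω' g⁻¹)
  rw [map_mul, arr_mulSingle, arr_mulSingle]

/-- the homomorphism `t ↦ ρ(d(g; ω, t ω))` -/
def phiD (g : G) (ω : Ω) : T →* M where
  toFun t := ρ (dd f g ω (t • ω))
  map_one' := by
    rw [one_smul]
    have : dd f g ω ω = 1 := by
      apply Subtype.ext
      change (Pi.mulSingle ω g * Pi.mulSingle ω g⁻¹ : Ω → G) = 1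
      rw [← Pi.mulSingle_mul, mul_inv_cancel, Pi.mulSingle_one]
    rw [this, map_one]
  map_mul' s t := by
    rw [← dd_mul f g ω (s • ω), map_mul, mul_smul, rho_dd f ρ hρ s g ω (t • ω)]

variable (hT : ∀ τ : T →* M, τ = 1) [MulAction.IsPretransitive T Ω]

include hρ hT in
theorem rho_dd_one (g : G) (ω ω' : Ω) : ρ (dd f g ω ω') = 1 := by
  obtain ⟨t, rfl⟩ := MulAction.exists_smul_eq T ω ω'
  exact DFunLike.congr_fun (hT (phiD f ρ hρ g ω)) t

theorem rho_reduce (hdd : ∀ (g : G) (ω ω' : Ω), ρ (dd f g ω ω') = 1) (ω₀ : Ω)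
    (b : BB (Ω := Ω) f) : ∃ c : f.ker, ρ b = ρ (ss f ω₀ c) := by
  have key : ∀ s : Finset Ω, ω₀ ∉ s → ∃ b' : BB (Ω := Ω) f, ρ b' = ρ b ∧
      ∀ ω ∈ s, (b' : Ω → G) ω = 1 := by
    intro s
    induction s using Finset.induction_on with
    | empty =>
      intro _
      exact ⟨b, rfl, fun ω h => absurd h (Finset.notMem_empty ω)⟩
    | insert ω s hω ih =>
      intro h0
      rw [Finset.mem_insert, not_or] at h0
      obtain ⟨b', h1, h2⟩ := ih h0.2
      refine ⟨b' * dd f ((b' : Ω → G) ω) ω₀ ω, ?_, ?_⟩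
      · rw [map_mul, hdd, mul_one, h1]
      · intro ω' hω'
        change (b' : Ω → G) ω' * (dd f ((b' : Ω → G) ω) ω₀ ω : Ω → G) ω' = 1
        by_cases h3 : ω' = ω
        · subst h3
          rw [dd_apply_right f _ h0.1, mul_inv_cancel]
        · rw [dd_apply_of_ne f _ ?_ h3, mul_one]
          · exact h2 ω' ((Finset.mem_insert.mp hω').resolve_left h3)
          · rintro rfl
            exact (Finset.mem_insert.mp hω').elim h0.1 h0.2
  obtain ⟨b', h1, h2⟩ := key (Finset.univ.erase ω₀) (Finset.notMem_erase ω₀ _)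
  have h3 : (b' : Ω → G) = Pi.mulSingle ω₀ ((b' : Ω → G) ω₀) := by
    funext ω
    by_cases h : ω = ω₀
    · subst h
      rw [Pi.mulSingle_eq_same]
    · rw [Pi.mulSingle_eq_of_ne h]
      exact h2 ω (Finset.mem_erase.mpr ⟨h, Finset.mem_univ _⟩)
  have h4 : f ((b' : Ω → G) ω₀) = 1 := by
    have h5 := b'.2
    rw [mem_BB, h3, prod_mulSingle] at h5
    exact h5
  refine ⟨⟨(b' : Ω → G) ω₀, h4⟩, ?_⟩
  rw [← h1]
  congr 1
  exact Subtype.ext h3

include hρ hT in
theorem rho_comm (hΩ : 3 ≤ Fintype.card Ω) (ω₀ : Ω) (g h : G) (hc : ⁅g, h⁆ ∈ f.ker) :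
    ρ (ss f ω₀ ⟨⁅g, h⁆, hc⟩) = 1 := by
  obtain ⟨ω₁, h1⟩ : ∃ ω₁ : Ω, ω₁ ≠ ω₀ := by
    by_contra hcon
    push Not at hcon
    have : Fintype.card Ω ≤ 1 := Fintype.card_le_one_iff.mpr fun a b => by rw [hcon a, hcon b]
    omega
  obtain ⟨ω₂, h2, h3⟩ : ∃ ω₂ : Ω, ω₂ ≠ ω₀ ∧ ω₂ ≠ ω₁ := by
    by_contra hcon
    push Not at hcon
    have h4 : (Finset.univ : Finset Ω) ⊆ {ω₀, ω₁} := by
      intro ω _
      rw [Finset.mem_insert, Finset.mem_singleton]
      by_cases h5 : ω = ω₀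
      · exact Or.inl h5
      · exact Or.inr (hcon ω h5)
    have h5 := Finset.card_le_card h4
    rw [Finset.card_univ] at h5
    have h6 := Finset.card_le_two (a := ω₀) (b := ω₁)
    omega
  have e : ss f ω₀ ⟨⁅g, h⁆, hc⟩ = ⁅dd f g ω₀ ω₁, dd f h ω₀ ω₂⁆ := by
    apply Subtype.ext
    funext ω
    change (Pi.mulSingle ω₀ ⁅g, h⁆ : Ω → G) ω =
      ⁅(dd f g ω₀ ω₁ : Ω → G) ω, (dd f h ω₀ ω₂ : Ω → G) ω⁆
    by_cases e0 : ω = ω₀
    · subst e0
      rw [Pi.mulSingle_eq_same, dd_apply_left f g h1.symm, dd_apply_left f h h2.symm]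
    · rw [Pi.mulSingle_eq_of_ne e0]
      by_cases e1 : ω = ω₁
      · subst e1
        rw [dd_apply_of_ne f h e0 h3.symm, commutatorElement_one_right]
      · rw [dd_apply_of_ne f g e0 e1, commutatorElement_one_left]
  rw [e, map_commutatorElement, commutatorElement_eq_one_iff_mul_comm, mul_comm]

end D

/-! ### the kernel of `WF f` -/

/-- the base group in the kernel -/
def iB (f : G →* A) : BB (Ω := Ω) f →* (WF f : WW T Ω G →* A).ker where
  toFun b := ⟨inl (b : Ω → G), b.2⟩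
  map_one' := rfl
  map_mul' a b := by
    apply Subtype.ext
    exact map_mul inl _ _

/-- the complement in the kernel -/
def iT (f : G →* A) : T →* (WF f : WW T Ω G →* A).ker where
  toFun t := ⟨inr t, WF_inr f t⟩
  map_one' := rfl
  map_mul' a b := by
    apply Subtype.ext
    exact map_mul inr _ _

theorem iB_iT (f : G →* A) (x : (WF f : WW T Ω G →* A).ker) :
    x = iB f ⟨x.1.left, x.2⟩ * iT f x.1.right := by
  apply Subtype.ext
  exact (inl_left_mul_inr_right x.1).symm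

theorem conj_iB (f : G →* A) (t : T) (b : BB (Ω := Ω) f) :
    iB f ⟨arr T Ω G t b, arr_BB f t b.2⟩ = iT f t * iB f b * (iT f t)⁻¹ := by
  apply Subtype.ext
  change inl (arr T Ω G t b) = inr t * inl (b : Ω → G) * (inr t)⁻¹
  rw [← map_inv]
  exact inl_aut t (b : Ω → G)

/-- **abelian quotients of the kernel** -/
theorem bd_ker {Q : ℕ → Prop} {n r : ℕ} [Finite G] [Finite T] (f : G →* A)
    (hf : Function.Surjective f) (hr : Nat.card A = r) (hQ : ∀ m, Q m → Q (r * m))
    [MulAction.IsPretransitive T Ω] (hΩ : 3 ≤ Fintype.card Ω)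
    (hT : ∀ (M : Type) [CommGroup M] [Finite M], Q (Nat.card M) → ∀ τ : T →* M, τ = 1)
    (hG : Bd Q n G) (M : Type) [CommGroup M] [Finite M]
    (ρ : (WF f : WW T Ω G →* A).ker →* M) (hρ : Function.Surjective ρ) (hM : Q (Nat.card M)) :
    r * Nat.card M ≤ n := by
  have hT' := hT M hM
  haveI : Nonempty Ω := Fintype.card_pos_iff.mp (by omega)
  let ω₀ : Ω := Classical.arbitrary Ω
  let ρ' : BB (Ω := Ω) f →* M := ρ.comp (iB f)
  have hinv : ∀ (t : T) (b : BB (Ω := Ω) f), ρ' ⟨arr T Ω G t b, arr_BB f t b.2⟩ = ρ' b := by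
    intro t b
    change ρ (iB f ⟨arr T Ω G t b, arr_BB f t b.2⟩) = ρ (iB f b)
    rw [conj_iB, map_mul, map_mul, map_inv, mul_right_comm, mul_inv_cancel, one_mul]
  let κ : f.ker →* M := ρ'.comp (ss f ω₀)
  have hκ : Function.Surjective κ := by
    intro m
    obtain ⟨x, rfl⟩ := hρ m
    obtain ⟨c, hc⟩ := rho_reduce f ρ' (rho_dd_one f ρ' hinv hT') ω₀ ⟨x.1.left, x.2⟩
    refine ⟨c, ?_⟩
    change ρ' (ss f ω₀ c) = ρ x
    rw [← hc]
    conv_rhs => rw [iB_iT f x]
    rw [map_mul]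
    have h1 : ρ (iT f x.1.right) = 1 := DFunLike.congr_fun (hT' (ρ.comp (iT f))) x.1.right
    rw [h1, mul_one]
    rfl
  let N : Subgroup G := κ.ker.map f.ker.subtype
  have hN : commutator G ≤ N := by
    rw [commutator_def, Subgroup.commutator_le]
    intro a _ b _
    have hc : ⁅a, b⁆ ∈ f.ker := comm_le_ker f (Subgroup.commutator_mem_commutator
      (Subgroup.mem_top a) (Subgroup.mem_top b))
    refine ⟨⟨⁅a, b⁆, hc⟩, ?_, rfl⟩
    exact rho_comm f ρ' hinv hT' hΩ ω₀ a b hc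
  have hidx : N.index = r * Nat.card M := by
    have h1 : N.index = f.ker.index * κ.ker.index := by
      have h2 : N = κ.ker.map f.ker.subtype := rfl
      rw [h2, Subgroup.index_map_subtype, mul_comm]
    rw [h1, Subgroup.index_ker, Subgroup.index_ker, MonoidHom.range_eq_top.mpr hf,
      MonoidHom.range_eq_top.mpr hκ, Subgroup.card_top, Subgroup.card_top, hr]
  have := hG N hN (by rw [hidx]; exact hQ _ hM)
  rwa [hidx] at this

end W

end Pool.Agent.H373.PG
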