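import Pool.Agent.H373.PG.Cl

/-!
# Weighted numbers for kernels of homomorphisms onto groups of prime order and for direct powers
-/

set_option autoImplicit false
set_option linter.unusedSectionVars false
set_option linter.style.haveILetI false

open scoped BigOperators Classical

noncomputable section

namespace Pool.Agent.H373.PG

open Pool.Agent.Helper884 Pool.Agent.H254R3.IN SemidirectProduct
open Pool.Agent.K3h3.KB (ndeg ndeg_eq ndeg_cast ndeg_pos exists_cj exists_mult cj_at_one cj_mem_M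
  card_dual sum_dual dualFintype bt bt_irr bt_inj ndeg_bt)
open Pool.Agent.K3h3.MK (cover_pi)
open Pool.Agent.Q90.WR (irr_gal)
open Pool.Agent.Y63.AWC (res mult mult_spec res_eq res_class cj cj_irr cj_mul cj_one cj_res mult_cj
  clifford sum_M)
open Pool.Agent.Y62 (tw tw_irr tw_one)
open IC (Irr)

variable (Γ : Set (ℂ ≃+* ℂ)) (w : ℕ →* ℂ)

/-- `∑ w(χ(1))` over the irreducible characters of `X` fixed by `Γ` and by the twists with the
characters of `A` -/
def wx {X A : Type} [Group X] [Finite X] [CommGroup A] (f : X →* A) : ℂ :=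
  letI := Fintype.ofFinite X
  ∑ χ ∈ ((Irr X).filter (fixd Γ)).filter (fun χ => sb f χ = ⊤), w (ndeg χ)

theorem wx_eq {X A : Type} [Group X] [i : Fintype X] [CommGroup A] (f : X →* A) :
    wx Γ w f = ∑ χ ∈ ((Irr X).filter (fixd Γ)).filter (fun χ => sb f χ = ⊤), w (ndeg χ) := by
  unfold wx
  have h : Fintype.ofFinite X = i := Subsingleton.elim _ _
  rw [h]

/-- the hypothesis on `Γ` for the primes different from `p` -/
def HG (r : ℕ) (Γ : Set (ℂ ≃+* ℂ)) : Prop :=
  ∀ (X A : Type) [Group X] [CommGroup A] [Fintype X] [Fintype A] (f : X →* A)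
    (_ : Function.Surjective f) (_ : Nat.card A = r) (M : Subgroup X) [M.Normal]
    (_ : ∀ g, g ∈ M ↔ f g = 1) (χ : X → ℂ) (_ : IsIrr χ),
    (sb f χ = ⊥ → (fixd Γ (res M χ) ↔ fixd Γ χ)) ∧
    (sb f χ = ⊤ → ∀ θ : M → ℂ, IsIrr θ → mult M χ θ ≠ 0 → (fixd Γ θ ↔ fixd Γ χ))

theorem HG_empty (r : ℕ) : HG r ∅ := by
  intro X A _ _ _ _ f _ _ M _ _ χ _
  refine ⟨fun _ => ⟨fun _ σ h => absurd h (Set.notMem_empty σ), fun _ σ h => absurd h (Set.notMem_empty σ)⟩,
    fun _ θ _ _ => ⟨fun _ σ h => absurd h (Set.notMem_empty σ), fun _ σ h => absurd h (Set.notMem_empty σ)⟩⟩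

theorem ndeg_res {X : Type} [Group X] [Fintype X] (M : Subgroup X) (χ : X → ℂ) :
    ndeg (res M χ) = ndeg χ := rfl

/-- **the weighted number for the kernel of `f`** -/
theorem wf_ker {r : ℕ} (hr : r.Prime) (hΓ : HG r Γ) {X A : Type} [Group X] [CommGroup A] [Finite X]
    [Finite A] (f : X →* A) (hf : Function.Surjective f) (hA : Nat.card A = r) :
    (r : ℂ) * w r * wf Γ w f.ker =
      w r * (wf Γ w X - wx Γ w f) + (r : ℂ) ^ 2 * wx Γ w f := by
  haveI := Fintype.ofFinite X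
  haveI := Fintype.ofFinite A
  obtain ⟨M, hMk⟩ : ∃ M : Subgroup X, M = f.ker := ⟨_, rfl⟩
  have hM : ∀ g, g ∈ M ↔ f g = 1 := by
    intro g
    rw [hMk]
    rfl
  haveI : M.Normal := normal_M f M hM
  rw [← hMk]
  have hA' : (Nat.card A).Prime := hA ▸ hr
  have h1 := sum_over f hf M hM hA' (fun θ => if fixd Γ θ then w (ndeg θ) else 0)
  rw [← Finset.sum_filter, ← wf_eq] at h1
  have h2 : ∑ χ ∈ (Irr X).filter (fun χ => sb f χ = ⊥),
      (if fixd Γ (res M χ) then w (ndeg (res M χ)) else 0) = wf Γ w X - wx Γ w f := by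
    rw [eq_sub_iff_add_eq, wx_eq, wf_eq]
    rw [← Finset.sum_filter_add_sum_filter_not ((Irr X).filter (fixd Γ)) (fun χ => sb f χ = ⊤),
      add_comm]
    congr 1
    have h3 : ((Irr X).filter (fixd Γ)).filter (fun χ => ¬ sb f χ = ⊤) =
        ((Irr X).filter (fun χ => sb f χ = ⊥)).filter (fixd Γ) := by
      rw [Finset.filter_comm]
      congr 1
      refine Finset.filter_congr fun χ _ => ?_
      constructor
      · intro h
        exact (sb_cases f hA' χ).resolve_right h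
      · intro h h'
        rw [h] at h'
        have h4 : Nat.card (⊤ : Subgroup (A →* ℂˣ)) = Nat.card (⊥ : Subgroup (A →* ℂˣ)) := by
          rw [h']
        rw [Subgroup.card_top, Subgroup.card_bot, card_dual] at h4
        exact hA'.one_lt.ne' h4
    rw [h3, Finset.sum_filter (s := (Irr X).filter (fun χ => sb f χ = ⊥))]
    refine Finset.sum_congr rfl fun χ hχ => ?_
    rw [Finset.mem_filter, mem_Irr] at hχ
    rw [ndeg_res]
    exact if_congr ((hΓ X A f hf hA M hM χ hχ.1).1 hχ.2) rfl rfl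
  have h3 : w r * ∑ χ ∈ (Irr X).filter (fun χ => sb f χ = ⊤),
      ∑ θ ∈ (Irr M).filter (fun θ => mult M χ θ ≠ 0), (if fixd Γ θ then w (ndeg θ) else 0) =
        (r : ℂ) * wx Γ w f := by
    rw [wx_eq, Finset.filter_comm, Finset.mul_sum, Finset.mul_sum,
      Finset.sum_filter (s := (Irr X).filter (fun χ => sb f χ = ⊤)) (fixd Γ)]
    refine Finset.sum_congr rfl fun χ hχ => ?_
    rw [Finset.mem_filter, mem_Irr] at hχ
    have h4 : ∀ θ ∈ (Irr M).filter (fun θ => mult M χ θ ≠ 0),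
        w r * (if fixd Γ θ then w (ndeg θ) else 0) = if fixd Γ χ then w (ndeg χ) else 0 := by
      intro θ hθ
      rw [Finset.mem_filter, mem_Irr] at hθ
      obtain ⟨h5, h6⟩ := fixed_deg f hf M hM hA' hχ.1 hχ.2 hθ.1 hθ.2
      rw [mul_ite, mul_zero, h6, hA, map_mul]
      exact if_congr ((hΓ X A f hf hA M hM χ hχ.1).2 hχ.2 θ hθ.1 hθ.2) rfl rfl
    rw [Finset.mul_sum, Finset.sum_congr rfl h4, Finset.sum_const, nsmul_eq_mul]
    obtain ⟨θ, hθ, hm⟩ := exists_mult M hχ.1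
    rw [(fixed_deg f hf M hM hA' hχ.1 hχ.2 hθ hm).1, hA]
    split_ifs <;> ring
  rw [h2, hA] at h1
  calc (r : ℂ) * w r * wf Γ w M = w r * ((r : ℂ) * wf Γ w M) := by ring
    _ = w r * (wf Γ w X - wx Γ w f) + (r : ℂ) * (w r * ∑ χ ∈ (Irr X).filter (fun χ => sb f χ = ⊤),
      ∑ θ ∈ (Irr M).filter (fun θ => mult M χ θ ≠ 0), (if fixd Γ θ then w (ndeg θ) else 0)) := by
        rw [h1]
        ring
    _ = _ := by
        rw [h3]
        ring

/-! ### direct powers -/

section pi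

variable {I G A : Type} [Fintype I] [Group G] [CommGroup A]

/-- `g ↦ ∏ f(g_i)` -/
def piF (I : Type) [Fintype I] (f : G →* A) : (I → G) →* A where
  toFun g := ∏ i, f (g i)
  map_one' := by simp
  map_mul' g h := by simp [Finset.prod_mul_distrib]

theorem piF_apply (f : G →* A) (g : I → G) : piF I f g = ∏ i, f (g i) := rfl

theorem piF_mulSingle (f : G →* A) (i : I) (g : G) : piF I f (Pi.mulSingle i g) = f g := by
  rw [piF_apply, Finset.prod_eq_single i]
  · rw [Pi.mulSingle_eq_same]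
  · intro j _ hj
    rw [Pi.mulSingle_eq_of_ne hj, map_one]
  · intro h
    exact absurd (Finset.mem_univ i) h

theorem piF_surj [Nonempty I] {f : G →* A} (hf : Function.Surjective f) :
    Function.Surjective (piF I f) := by
  intro a
  obtain ⟨g, rfl⟩ := hf a
  exact ⟨Pi.mulSingle (Classical.arbitrary I) g, piF_mulSingle f _ g⟩

variable [Fintype G]

theorem fixd_bt {ψ : I → G → ℂ} (h : ∀ i, IsIrr (ψ i)) :
    fixd Γ (bt ψ) ↔ ∀ i, fixd Γ (ψ i) := by
  constructor
  · intro h1 i σ hσ g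
    have h2 : bt (fun i g => σ (ψ i g)) = bt ψ := by
      funext x
      rw [← h1 σ hσ x]
      unfold bt
      rw [map_prod]
    have h3 := bt_inj (fun i => irr_gal σ (h i)) h h2
    exact congrFun (congrFun h3 i) g
  · intro h1 σ hσ x
    unfold bt
    rw [map_prod]
    exact Finset.prod_congr rfl fun i _ => h1 i σ hσ _

theorem mem_sb_bt (f : G →* A) {ψ : I → G → ℂ} (h : ∀ i, IsIrr (ψ i)) (l : A →* ℂˣ) :
    l ∈ sb (piF I f) (bt ψ) ↔ ∀ i, l ∈ sb f (ψ i) := by
  have h1 : tw (l.comp (piF I f)) (bt ψ) = bt (fun i => tw (l.comp f) (ψ i)) := by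
    funext x
    unfold bt tw
    rw [Finset.prod_mul_distrib]
    congr 1
    rw [MonoidHom.comp_apply, piF_apply, map_prod, Units.coe_prod]
    rfl
  rw [mem_sb, h1]
  constructor
  · intro h2 i
    rw [mem_sb]
    exact congrFun (bt_inj (fun i => tw_irr _ (h i)) h h2) i
  · intro h2
    congr 1
    funext i
    exact (mem_sb f).mp (h2 i)

theorem sum_pi (Q : (G → ℂ) → Prop) (Q' : ((I → G) → ℂ) → Prop)
    (hQ : ∀ ψ : I → G → ℂ, (∀ i, IsIrr (ψ i)) → (Q' (bt ψ) ↔ ∀ i, Q (ψ i))) :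
    ∑ χ ∈ (Irr (I → G)).filter Q', w (ndeg χ) =
      (∑ χ ∈ (Irr G).filter Q, w (ndeg χ)) ^ Fintype.card I := by
  rw [← Finset.card_univ, ← Finset.prod_const, Finset.prod_univ_sum]
  symm
  refine Finset.sum_bij (fun ψ _ => bt ψ) ?_ ?_ ?_ ?_
  · intro ψ h
    rw [Fintype.mem_piFinset] at h
    have h1 : ∀ i, IsIrr (ψ i) := fun i => mem_Irr.mp (Finset.mem_filter.mp (h i)).1
    rw [Finset.mem_filter]
    exact ⟨mem_Irr.mpr (bt_irr h1), (hQ ψ h1).mpr fun i => (Finset.mem_filter.mp (h i)).2⟩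
  · intro ψ h ψ' h' e
    rw [Fintype.mem_piFinset] at h h'
    exact bt_inj (fun i => mem_Irr.mp (Finset.mem_filter.mp (h i)).1)
      (fun i => mem_Irr.mp (Finset.mem_filter.mp (h' i)).1) e
  · intro χ hχ
    rw [Finset.mem_filter] at hχ
    obtain ⟨ψ, h1, rfl⟩ := cover_pi (mem_Irr.mp hχ.1)
    refine ⟨ψ, Fintype.mem_piFinset.mpr fun i => ?_, rfl⟩
    rw [Finset.mem_filter]
    exact ⟨mem_Irr.mpr (h1 i), (hQ ψ h1).mp hχ.2 i⟩
  · intro ψ h
    rw [Fintype.mem_piFinset] at h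
    rw [ndeg_bt fun i => mem_Irr.mp (Finset.mem_filter.mp (h i)).1, map_prod]

end pi

theorem wf_pi (I G : Type) [Group G] [Finite G] [Fintype I] :
    wf Γ w (I → G) = wf Γ w G ^ Fintype.card I := by
  haveI := Fintype.ofFinite G
  rw [wf_eq, wf_eq]
  exact sum_pi (I := I) (G := G) w (fixd Γ) (fixd Γ) (fun ψ h => fixd_bt Γ h)

theorem wx_pi (I G A : Type) [Group G] [Finite G] [Fintype I] [CommGroup A] (f : G →* A) :
    wx Γ w (piF I f) = wx Γ w f ^ Fintype.card I := by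
  haveI := Fintype.ofFinite G
  rw [wx_eq, wx_eq, Finset.filter_filter, Finset.filter_filter]
  have hQ : ∀ ψ : I → G → ℂ, (∀ i, IsIrr (ψ i)) → ((fixd Γ (bt ψ) ∧ sb (piF I f) (bt ψ) = ⊤) ↔
      ∀ i, (fixd Γ (ψ i) ∧ sb f (ψ i) = ⊤)) := by
    intro ψ h
    rw [fixd_bt Γ h, forall_and]
    refine and_congr Iff.rfl ?_
    constructor
    · intro h1 i
      rw [eq_top_iff]
      intro l _
      have h2 : l ∈ sb (piF I f) (bt ψ) := by
        rw [h1]
        exact Subgroup.mem_top l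
      exact (mem_sb_bt f h l).mp h2 i
    · intro h1
      rw [eq_top_iff]
      intro l _
      rw [mem_sb_bt f h l]
      intro i
      rw [h1 i]
      exact Subgroup.mem_top l
  have key := sum_pi (I := I) (G := G) w (fun χ => fixd Γ χ ∧ sb f χ = ⊤)
    (fun χ => fixd Γ χ ∧ sb (piF I f) χ = ⊤) hQ
  convert key

/-- **the weighted number for the kernel of `g ↦ ∏ f(g_i)`** -/
theorem wf_ker_pi {r : ℕ} (hr : r.Prime) (hΓ : HG r Γ) {I G A : Type} [Fintype I] [Nonempty I]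
    [Group G] [CommGroup A] [Finite G] [Finite A] (f : G →* A) (hf : Function.Surjective f)
    (hA : Nat.card A = r) :
    (r : ℂ) * w r * wf Γ w (piF I f).ker =
      w r * (wf Γ w G ^ Fintype.card I - wx Γ w f ^ Fintype.card I) +
        (r : ℂ) ^ 2 * wx Γ w f ^ Fintype.card I := by
  rw [wf_ker Γ w hr hΓ (piF I f) (piF_surj hf) hA, wf_pi, wx_pi]

end Pool.Agent.H373.PG
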