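import Pool.Agent.H373.PG.ThA
import Pool.Agent.H373.PG.Pw

/-!
# Sylow normalizers of kernels of `(g_i) ↦ ∏ f(g_i)`
-/

set_option autoImplicit false
set_option linter.unusedSectionVars false
set_option linter.style.haveILetI false

open scoped BigOperators Classical

noncomputable section

namespace Pool.Agent.H373.PG

open Pool.Agent.K3h3.MK (NN)

section

variable {p : ℕ} [hp : Fact p.Prime]

/-- the intersection of a Sylow subgroup with a normal subgroup is a Sylow subgroup -/
theorem card_subgroupOf_sylow {H : Type} [Group H] [Finite H] (K : Subgroup H) [K.Normal]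
    (R : Sylow p H) :
    Nat.card ((R : Subgroup H).subgroupOf K) = p ^ (Nat.card K).factorization p := by
  obtain ⟨Q, hQ⟩ := Sylow.exists_comap_subtype_eq (default : Sylow p K)
  obtain ⟨h, rfl⟩ := MulAction.exists_smul_eq H Q R
  rw [← (default : Sylow p K).card_eq_multiplicity, ← hQ]
  symm
  refine Nat.card_congr
    { toFun := fun x => ⟨MulAut.conjNormal h x.1, ?_⟩
      invFun := fun y => ⟨MulAut.conjNormal h⁻¹ y.1, ?_⟩
      left_inv := fun x => ?_
      right_inv := fun y => ?_ }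
  · rw [Subgroup.mem_subgroupOf, MulAut.conjNormal_apply]
    have h1 : ((x.1 : K) : H) ∈ (Q : Subgroup H) := x.2
    exact ⟨_, h1, rfl⟩
  · have h1 := y.2
    rw [Subgroup.mem_subgroupOf] at h1
    obtain ⟨z, hz, hz'⟩ := h1
    have h2 : h * z * h⁻¹ = ((y.1 : K) : H) := hz'
    change ((MulAut.conjNormal h⁻¹ y.1 : K) : H) ∈ (Q : Subgroup H)
    rw [MulAut.conjNormal_apply, ← h2]
    have h3 : h⁻¹ * (h * z * h⁻¹) * h⁻¹⁻¹ = z := by group
    rw [h3]
    exact hz
  · apply Subtype.ext
    change MulAut.conjNormal h⁻¹ (MulAut.conjNormal h x.1) = x.1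
    rw [← MulAut.mul_apply, ← map_mul, inv_mul_cancel, map_one, MulAut.one_apply]
  · apply Subtype.ext
    change MulAut.conjNormal h (MulAut.conjNormal h⁻¹ y.1) = y.1
    rw [← MulAut.mul_apply, ← map_mul, mul_inv_cancel, map_one, MulAut.one_apply]

/-- the group `P ^ I` -/
def pw {G : Type} [Group G] (I : Type) (P : Subgroup G) : Subgroup (I → G) :=
  Subgroup.pi Set.univ fun _ => P

theorem mem_pw {G I : Type} [Group G] {P : Subgroup G} {g : I → G} :
    g ∈ pw I P ↔ ∀ i, g i ∈ P := by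
  unfold pw
  rw [Subgroup.mem_pi]
  simp

theorem card_pw {G I : Type} [Group G] [Fintype I] (P : Subgroup G) :
    Nat.card (pw I P) = Nat.card P ^ Fintype.card I := by
  have e : pw I P ≃ (I → P) :=
    { toFun := fun x i => ⟨x.1 i, mem_pw.mp x.2 i⟩
      invFun := fun y => ⟨fun i => y i, mem_pw.mpr fun i => (y i).2⟩
      left_inv := fun _ => rfl
      right_inv := fun _ => rfl }
  rw [Nat.card_congr e, Nat.card_fun, Nat.card_eq_fintype_card (α := I)]

/-- `P ^ I` as a Sylow subgroup -/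
def pwS {G : Type} [Group G] [Finite G] (I : Type) [Fintype I] (P : Sylow p G) :
    Sylow p (I → G) :=
  Sylow.ofCard (pw I (P : Subgroup G)) (by
    rw [card_pw, P.card_eq_multiplicity, Nat.card_fun, Nat.card_eq_fintype_card (α := I),
      Nat.factorization_pow, Finsupp.smul_apply, smul_eq_mul, ← pow_mul, mul_comm])

/-- **the normalizer of a Sylow subgroup of `ker (g ↦ ∏ f(g_i))`** -/
theorem exists_NN_pi {G A I : Type} [Group G] [Finite G] [CommGroup A] [Fintype I]
    (f : G →* A) (P : Sylow p G)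
    (hq : ∀ i : I, ∀ u ∈ P, ∃ q : I → G, (∀ j, q j ∈ P) ∧ piF I f q = 1 ∧ q i = u) :
    ∃ Q : Sylow p (piF I f).ker, Nonempty (NN Q ≃* (piF I (f.comp (NN P).subtype)).ker) := by
  have h0 := card_subgroupOf_sylow (piF I f).ker (pwS I P)
  refine ⟨Sylow.ofCard _ h0, ⟨?_⟩⟩
  have hmem : ∀ x : (piF I f).ker, x ∈ ((pwS I P : Sylow p (I → G)) : Subgroup (I → G)).subgroupOf
      (piF I f).ker ↔ ∀ i, (x : I → G) i ∈ P := by
    intro x
    rw [Subgroup.mem_subgroupOf]
    exact mem_pw
  have h1 : ∀ x : (piF I f).ker, x ∈ NN (Sylow.ofCard _ h0) ↔ ∀ i, (x : I → G) i ∈ NN P := by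
    intro x
    have e : (NN (Sylow.ofCard _ h0) : Subgroup (piF I f).ker) =
      Subgroup.normalizer ((((pwS I P : Sylow p (I → G)) : Subgroup (I → G)).subgroupOf
        (piF I f).ker : Subgroup (piF I f).ker) : Set (piF I f).ker) := rfl
    rw [e, Subgroup.mem_normalizer_iff]
    have half : ∀ x : (piF I f).ker, (∀ h : (piF I f).ker,
        h ∈ ((pwS I P : Sylow p (I → G)) : Subgroup (I → G)).subgroupOf (piF I f).ker →
          x * h * x⁻¹ ∈ ((pwS I P : Sylow p (I → G)) : Subgroup (I → G)).subgroupOf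
            (piF I f).ker) → ∀ i, ∀ u ∈ P, (x : I → G) i * u * ((x : I → G) i)⁻¹ ∈ P := by
      intro x hx i u hu
      obtain ⟨q, hq1, hq2, hq3⟩ := hq i u hu
      have h2 := hx ⟨q, hq2⟩ ((hmem _).mpr hq1)
      rw [hmem] at h2
      have h3 := h2 i
      rw [← hq3]
      exact h3
    constructor
    · intro h i
      have h2 := half x (fun y hy => (h y).mp hy) i
      have h3 := half x⁻¹ (fun y hy => by
        rw [h]
        have : x * (x⁻¹ * y * x⁻¹⁻¹) * x⁻¹ = y := by group
        rw [this]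
        exact hy) i
      rw [Subgroup.mem_normalizer_iff]
      intro u
      refine ⟨h2 u, fun h4 => ?_⟩
      have h5 := h3 _ h4
      have h6 : ((x⁻¹ : (piF I f).ker) : I → G) i = ((x : I → G) i)⁻¹ := rfl
      rw [h6] at h5
      have h7 : ((x : I → G) i)⁻¹ * ((x : I → G) i * u * ((x : I → G) i)⁻¹) *
          ((x : I → G) i)⁻¹⁻¹ = u := by group
      rw [h7] at h5
      exact h5
    · intro h y
      rw [hmem, hmem]
      refine forall_congr' fun i => ?_
      have h2 := h i
      rw [Subgroup.mem_normalizer_iff] at h2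
      exact h2 _
  exact
    { toFun := fun x => ⟨fun i => ⟨x.1.1 i, (h1 x.1).mp x.2 i⟩, x.1.2⟩
      invFun := fun y => ⟨⟨fun i => (y.1 i : G), y.2⟩, (h1 _).mpr fun i => (y.1 i).2⟩
      left_inv := fun _ => rfl
      right_inv := fun _ => rfl
      map_mul' := fun _ _ => rfl }

/-- at least two factors -/
theorem hq_of_nontrivial {G A I : Type} [Group G] [CommGroup A] [Fintype I] [Nontrivial I]
    (f : G →* A) (P : Subgroup G) (i : I) (u : G) (hu : u ∈ P) :
    ∃ q : I → G, (∀ j, q j ∈ P) ∧ piF I f q = 1 ∧ q i = u := by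
  obtain ⟨j, hj⟩ := exists_ne i
  refine ⟨Pi.mulSingle i u * Pi.mulSingle j u⁻¹, fun k => ?_, ?_, ?_⟩
  · rw [Pi.mul_apply]
    have h1 : ∀ (a : I) (v : G), v ∈ P → (Pi.mulSingle a v : I → G) k ∈ P := by
      intro a v hv
      by_cases h : k = a
      · subst h
        rwa [Pi.mulSingle_eq_same]
      · rw [Pi.mulSingle_eq_of_ne h]
        exact P.one_mem
    exact P.mul_mem (h1 i u hu) (h1 j _ (P.inv_mem hu))
  · rw [map_mul, piF_mulSingle, piF_mulSingle, map_inv, mul_inv_cancel]
  · rw [Pi.mul_apply, Pi.mulSingle_eq_same, Pi.mulSingle_eq_of_ne hj.symm, mul_one]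

/-- `f` is trivial on `P` -/
theorem hq_of_trivial {G A I : Type} [Group G] [CommGroup A] [Fintype I]
    (f : G →* A) (P : Subgroup G) (h : ∀ u ∈ P, f u = 1) (i : I) (u : G) (hu : u ∈ P) :
    ∃ q : I → G, (∀ j, q j ∈ P) ∧ piF I f q = 1 ∧ q i = u := by
  refine ⟨Pi.mulSingle i u, fun k => ?_, ?_, Pi.mulSingle_eq_same _ _⟩
  · by_cases h : k = i
    · subst h
      rwa [Pi.mulSingle_eq_same]
    · rw [Pi.mulSingle_eq_of_ne h]
      exact P.one_mem
  · rw [piF_mulSingle, h u hu]

/-- a homomorphism onto a group of prime order is onto on the normalizer of a Sylow subgroup -/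
theorem surj_NN {G A : Type} [Group G] [CommGroup A] [Finite G] [Finite A]
    {f : G →* A} (hf : Function.Surjective f) (hA : (Nat.card A).Prime) (P : Sylow p G) :
    Function.Surjective (f.comp (NN P).subtype) := by
  by_cases hpA : p = Nat.card A
  · -- the image of `P` is not trivial
    have h1 : ∃ u ∈ P, f u ≠ 1 := by
      by_contra hcon
      push Not at hcon
      have h2 : (P : Subgroup G) ≤ f.ker := hcon
      have h3 := Subgroup.index_dvd_of_le h2
      rw [Subgroup.index_ker, MonoidHom.range_eq_top.mpr hf, Subgroup.card_top, ← hpA] at h3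
      exact P.not_dvd_index h3
    obtain ⟨u, hu, hne⟩ := h1
    have hr : (f.comp (NN P).subtype).range = ⊤ := by
      haveI : Fact (Nat.card A).Prime := ⟨hA⟩
      rcases Subgroup.eq_bot_or_eq_top_of_prime_card (f.comp (NN P).subtype).range with h | h
      · exfalso
        have h2 : f u ∈ (f.comp (NN P).subtype).range :=
          ⟨⟨u, Subgroup.le_normalizer hu⟩, rfl⟩
        rw [h, Subgroup.mem_bot] at h2
        exact hne h2
      · exact h
    exact MonoidHom.range_eq_top.mp hr
  · refine frattini hf P (le_ker f ?_ P)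
    intro h
    exact hpA ((Nat.prime_dvd_prime_iff_eq hp.out hA).mp h)

/-- `P ^ I` -/
theorem exists_NN_pow {G : Type} (I : Type) [Group G] [Finite G] [Fintype I] (P : Sylow p G) :
    ∃ Q : Sylow p (I → G), Nonempty (NN Q ≃* (I → NN P)) := by
  obtain ⟨Q, ⟨e⟩⟩ := exists_NN_pi (A := Unit) (I := I) (1 : G →* Unit) P
    (fun i u hu => hq_of_trivial _ _ (fun _ _ => rfl) i u hu)
  have h1 : (piF I (1 : G →* Unit)).ker = ⊤ := by
    ext x
    simp only [Subgroup.mem_top, iff_true]
    rfl
  have e1 : (piF I (1 : G →* Unit)).ker ≃* (I → G) :=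
    (MulEquiv.subgroupCongr h1).trans Subgroup.topEquiv
  have h2 : (piF I ((1 : G →* Unit).comp (NN P).subtype)).ker = ⊤ := by
    ext x
    simp only [Subgroup.mem_top, iff_true]
    rfl
  obtain ⟨R, ⟨e2⟩⟩ := exists_NN_iso e1 Q
  exact ⟨R, ⟨e2.symm.trans (e.trans ((MulEquiv.subgroupCongr h2).trans Subgroup.topEquiv))⟩⟩

end

section good

variable {p : ℕ} [hp : Fact p.Prime] (Γ : Set (ℂ ≃+* ℂ)) (w : ℕ →* ℂ)

theorem good_ker_pi {G A I : Type} [Group G] [Finite G] [CommGroup A] [Finite A] [Fintype I]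
    (f : G →* A) (P : Sylow p G) (h : Good p Γ w (piF I f).ker)
    (hI : Nontrivial I ∨ ¬ p ∣ Nat.card A) :
    wf Γ w (piF I f).ker = wf Γ w (piF I (f.comp (NN P).subtype)).ker := by
  obtain ⟨Q, ⟨e⟩⟩ := exists_NN_pi (I := I) f P (by
    rcases hI with hI | hI
    · exact fun i u hu => hq_of_nontrivial f _ i u hu
    · exact fun i u hu => hq_of_trivial f _ (fun u hu => le_ker f hI P hu) i u hu)
  rw [h Q, wf_congr Γ w e]

theorem good_pow {G : Type} (I : Type) [Group G] [Finite G] [Fintype I] (P : Sylow p G)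
    (h : Good p Γ w (I → G)) :
    wf Γ w G ^ Fintype.card I = wf Γ w (NN P) ^ Fintype.card I := by
  obtain ⟨Q, ⟨e⟩⟩ := exists_NN_pow I P
  rw [← wf_pi, h Q, wf_congr Γ w e, wf_pi]

end good

end Pool.Agent.H373.PG
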