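import Pool.Agent.H373.PG.Grp
import Pool.Agent.H373.PG.SylK

/-!
# The groups of the reduction: modules, semidirect products, homomorphisms onto `p'`-groups
-/

set_option autoImplicit false
set_option linter.unusedSectionVars false
set_option linter.style.haveILetI false

open scoped BigOperators Classical commutatorElement

noncomputable section

namespace Pool.Agent.H373.PG

open SemidirectProduct
open Pool.Agent.E8helper60.CQ (piAct)

theorem Bd.hom {Q : ℕ → Prop} {n : ℕ} {G M : Type} [Group G] [CommGroup M] (h : Bd Q n G)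
    (ρ : G →* M) (hρ : Function.Surjective ρ) (hM : Q (Nat.card M)) : Nat.card M ≤ n := by
  have h1 : ρ.ker.index = Nat.card M := by
    rw [Subgroup.index_ker, MonoidHom.range_eq_top.mpr hρ, Subgroup.card_top]
  have h2 := h ρ.ker (comm_le_ker ρ) (by rw [h1]; exact hM)
  rwa [h1] at h2

/-! ### the module -/

section mod

variable (Y C : Type) [Group Y] [CommGroup C] [Fintype Y]

/-- the functions `Y → C` with product `1` -/
abbrev VV : Subgroup (Y → C) := BB (G := C) (A := C) (Ω := Y) (MonoidHom.id C)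

/-- the regular action -/
def vact : Y →* MulAut (VV Y C) where
  toFun y :=
    { toFun := fun v => ⟨arr Y Y C y v, arr_BB _ y v.2⟩
      invFun := fun v => ⟨arr Y Y C y⁻¹ v, arr_BB _ y⁻¹ v.2⟩
      left_inv := fun v => by
        apply Subtype.ext
        change arr Y Y C y⁻¹ (arr Y Y C y v) = v
        rw [← MulAut.mul_apply, ← map_mul, inv_mul_cancel, map_one, MulAut.one_apply]
      right_inv := fun v => by
        apply Subtype.ext
        change arr Y Y C y (arr Y Y C y⁻¹ v) = v
        rw [← MulAut.mul_apply, ← map_mul, mul_inv_cancel, map_one, MulAut.one_apply]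
      map_mul' := fun a b => by
        apply Subtype.ext
        exact map_mul (arr Y Y C y) (a : Y → C) (b : Y → C) }
  map_one' := by
    apply MulEquiv.ext
    intro v
    apply Subtype.ext
    change arr Y Y C 1 v = v
    rw [map_one, MulAut.one_apply]
  map_mul' y z := by
    apply MulEquiv.ext
    intro v
    apply Subtype.ext
    change arr Y Y C (y * z) v = arr Y Y C y (arr Y Y C z v)
    rw [map_mul, MulAut.mul_apply]

variable {Y C}

/-- there are no invariant homomorphisms -/
theorem no_inv (hYC : (Nat.card Y).Coprime (Nat.card C)) {M : Type} [CommGroup M]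
    (ρ : VV Y C →* M) (hρ : ∀ (y : Y) (v : VV Y C), ρ (vact Y C y v) = ρ v) : ρ = 1 := by
  have hdd : ∀ (c : C) (ω ω' : Y), ρ (dd (MonoidHom.id C) c ω ω') = 1 := by
    intro c ω ω'
    have h1 : ρ (dd (MonoidHom.id C) c ω ω') ^ Nat.card Y = 1 := by
      have h2 : ρ (dd (MonoidHom.id C) c ω ω') =
          phiD (MonoidHom.id C) ρ hρ c ω (ω' * ω⁻¹) := by
        change _ = ρ (dd (MonoidHom.id C) c ω ((ω' * ω⁻¹) • ω))
        rw [smul_eq_mul, inv_mul_cancel_right]
      rw [h2, ← map_pow, pow_card_eq_one', map_one]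
    have h3 : ρ (dd (MonoidHom.id C) c ω ω') ^ Nat.card C = 1 := by
      have h4 : ∀ n : ℕ, dd (MonoidHom.id C) c ω ω' ^ n = dd (MonoidHom.id C) (c ^ n) ω ω' := by
        intro n
        apply Subtype.ext
        change ((Pi.mulSingle ω c * Pi.mulSingle ω' c⁻¹ : Y → C)) ^ n =
          (Pi.mulSingle ω (c ^ n) * Pi.mulSingle ω' (c ^ n)⁻¹ : Y → C)
        rw [mul_pow, ← inv_pow, Pi.mulSingle_pow, Pi.mulSingle_pow]
      rw [← map_pow, h4, pow_card_eq_one']
      have h5 : dd (MonoidHom.id C) (1 : C) ω ω' = 1 := by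
        apply Subtype.ext
        change (Pi.mulSingle ω 1 * Pi.mulSingle ω' 1⁻¹ : Y → C) = 1
        rw [inv_one, Pi.mulSingle_one, Pi.mulSingle_one, mul_one]
      rw [h5, map_one]
    have h6 := Nat.dvd_gcd (orderOf_dvd_of_pow_eq_one h1) (orderOf_dvd_of_pow_eq_one h3)
    rw [hYC.gcd_eq_one] at h6
    exact orderOf_eq_one_iff.mp (Nat.dvd_one.mp h6)
  ext b
  obtain ⟨c, hc⟩ := rho_reduce (MonoidHom.id C) ρ hdd 1 b
  rw [hc]
  have h1 : c = 1 := Subtype.ext c.2
  rw [h1, map_one, map_one]
  rfl

/-- the module is faithful -/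
theorem vact_inj (h : (∃ c : C, c ^ 2 ≠ 1) ∨ ((∃ c : C, c ≠ 1) ∧ ∀ y : Y, y ≠ 1 → y ^ 2 ≠ 1)) :
    Function.Injective (vact Y C) := by
  rw [injective_iff_map_eq_one]
  intro y hy
  by_contra hne
  have key : ∀ c : C, arr Y Y C y (dd (MonoidHom.id C) c 1 y : Y → C) =
      (dd (MonoidHom.id C) c 1 y : Y → C) := by
    intro c
    have h1 : vact Y C y (dd (MonoidHom.id C) c 1 y) = dd (MonoidHom.id C) c 1 y := by
      rw [hy, MulAut.one_apply]
    exact congrArg Subtype.val h1
  have key2 : ∀ c : C, c = c⁻¹ := by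
    intro c
    have h1 := congrFun (key c) y
    rw [arr_apply, smul_eq_mul, inv_mul_cancel, dd_apply_left _ c (Ne.symm hne),
      dd_apply_right _ c (Ne.symm hne)] at h1
    exact h1
  rcases h with ⟨c, hc⟩ | ⟨⟨c, hc⟩, h2⟩
  · apply hc
    rw [pow_two]
    nth_rewrite 1 [key2 c]
    exact inv_mul_cancel c
  · have h1 := congrFun (key c) (y * y)
    have h3 : y * y ≠ 1 := by
      rw [← pow_two]
      exact h2 y hne
    have h4 : y * y ≠ y := by
      intro h
      exact hne (mul_eq_left.mp h)
    rw [arr_apply, smul_eq_mul, inv_mul_cancel_left, dd_apply_right _ c (Ne.symm hne),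
      dd_apply_of_ne _ c h3 h4] at h1
    exact hc (inv_eq_one.mp h1)

end mod

/-! ### semidirect products -/

/-- `V ^ k ⋊ X` has no further abelian quotients -/
theorem bd_sd {Q : ℕ → Prop} {n k : ℕ} {X Y V : Type} [Group X] [Group Y] [CommGroup V] [Finite X]
    [Finite V] (π : X →* Y) (hπ : Function.Surjective π) (φ : Y →* MulAut V)
    (hV : ∀ (M : Type) [CommGroup M] (ρ : V →* M), (∀ (y : Y) (v : V), ρ (φ y v) = ρ v) → ρ = 1)
    (h : Bd Q n X) : Bd Q n ((Fin k → V) ⋊[(piAct k φ).comp π] X) := by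
  haveI : Finite ((Fin k → V) ⋊[(piAct k φ).comp π] X) := Finite.of_equiv _ equivProd.symm
  apply bd_of_hom
  intro M _ _ ρ hρ hM
  have h1 : ∀ v : Fin k → V, ρ (inl v) = 1 := by
    intro v
    have h2 : ∀ i : Fin k, (ρ.comp (inl.comp (MonoidHom.mulSingle (fun _ => V) i)) : V →* M) = 1 := by
      intro i
      apply hV
      intro y u
      obtain ⟨x, rfl⟩ := hπ y
      have h3 : (Pi.mulSingle i (φ (π x) u) : Fin k → V) =
          ((piAct k φ).comp π) x (Pi.mulSingle i u) := by
        funext j
        change Pi.mulSingle (M := fun _ => V) i (φ (π x) u) j =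
          φ (π x) (Pi.mulSingle (M := fun _ => V) i u j)
        by_cases hj : j = i
        · subst hj
          rw [Pi.mulSingle_eq_same, Pi.mulSingle_eq_same]
        · rw [Pi.mulSingle_eq_of_ne hj, Pi.mulSingle_eq_of_ne hj, map_one]
      change ρ (inl (Pi.mulSingle i (φ (π x) u))) = ρ (inl (Pi.mulSingle i u))
      rw [h3, inl_aut, map_mul, map_mul, mul_right_comm, ← map_mul ρ (inr x), ← map_mul inr,
        mul_inv_cancel, map_one, map_one, one_mul]
    have h4 : v = ∏ i, Pi.mulSingle i (v i) := (Finset.univ_prod_mulSingle v).symm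
    change (ρ.comp inl) v = 1
    rw [h4, map_prod]
    refine Finset.prod_eq_one fun i _ => ?_
    exact DFunLike.congr_fun (h2 i) (v i)
  refine h.hom (ρ.comp inr) ?_ hM
  intro m
  obtain ⟨x, rfl⟩ := hρ m
  refine ⟨x.right, ?_⟩
  change ρ (inr x.right) = ρ x
  conv_rhs => rw [← inl_left_mul_inr_right x, map_mul, h1, one_mul]

/-! ### the projections -/

section proj

variable {T Ω G A : Type} [Group T] [MulAction T Ω] [Group G] [CommGroup A] [Fintype Ω]

/-- the projection of the kernel to `T` -/
def pT (f : G →* A) : (WF f : WW T Ω G →* A).ker →* T := rightHom.comp (Subgroup.subtype _)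

theorem pT_surj (f : G →* A) : Function.Surjective (pT (T := T) (Ω := Ω) f) := fun t =>
  ⟨iT f t, rfl⟩

/-- the kernel of the projection -/
def kerT (f : G →* A) : (pT (T := T) (Ω := Ω) f).ker ≃* (piF Ω f).ker where
  toFun x := ⟨x.1.1.left, x.1.2⟩
  invFun y := ⟨⟨inl (y : Ω → G), y.2⟩, rfl⟩
  left_inv x := by
    apply Subtype.ext
    apply Subtype.ext
    ext
    · rfl
    · exact x.2.symm
  right_inv _ := rfl
  map_mul' x y := by
    apply Subtype.ext
    change (x.1.1 * y.1.1).left = x.1.1.left * y.1.1.left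
    have h1 : x.1.1.right = 1 := x.2
    rw [mul_left, h1, map_one, MulAut.one_apply]

/-- the projection of the kernel to the kernel for `A` -/
def pA (f : G →* A) : (WF f : WW T Ω G →* A).ker →*
    (WF (MonoidHom.id A) : WW T Ω A →* A).ker where
  toFun x := ⟨⟨fun ω => f (x.1.left ω), x.1.right⟩, x.2⟩
  map_one' := by
    apply Subtype.ext
    ext
    · simp
    · rfl
  map_mul' x y := by
    apply Subtype.ext
    ext
    · change f ((x.1.1 * arr T Ω G x.1.right y.1.left) _) = _
      rw [Pi.mul_apply, map_mul]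
      rfl
    · rfl

theorem pA_surj {f : G →* A} (hf : Function.Surjective f) :
    Function.Surjective (pA (T := T) (Ω := Ω) f) := by
  intro y
  choose g hg using fun ω => hf (y.1.left ω)
  refine ⟨⟨⟨g, y.1.right⟩, ?_⟩, ?_⟩
  · have h1 := y.2
    rw [MonoidHom.mem_ker, WF_apply] at h1 ⊢
    simp only [hg]
    exact h1
  · apply Subtype.ext
    ext ω
    · exact hg ω
    · rfl

/-- the kernel of the projection -/
def kerA (f : G →* A) : (pA (T := T) (Ω := Ω) f).ker ≃* (Ω → f.ker) where
  toFun x ω := ⟨x.1.1.left ω, by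
    have h1 : pA f x.1 = 1 := x.2
    exact congrFun (congrArg (fun z => z.1.left) h1) ω⟩
  invFun y := ⟨⟨inl (fun ω => (y ω : G)), by
    rw [MonoidHom.mem_ker, WF_inl]
    exact Finset.prod_eq_one fun ω _ => (y ω).2⟩, by
    rw [MonoidHom.mem_ker]
    apply Subtype.ext
    ext ω
    · exact (y ω).2
    · rfl⟩
  left_inv x := by
    apply Subtype.ext
    apply Subtype.ext
    ext
    · rfl
    · have h1 : pA f x.1 = 1 := x.2
      exact (congrArg (fun z => z.1.right) h1).symm
  right_inv _ := rfl
  map_mul' x y := by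
    funext ω
    apply Subtype.ext
    change (x.1.1 * y.1.1).left ω = x.1.1.left ω * y.1.1.left ω
    have h1 : x.1.1.right = 1 := by
      have h1 : pA f x.1 = 1 := x.2
      exact (congrArg (fun z => z.1.right) h1)
    rw [mul_left, h1, map_one, MulAut.one_apply]
    rfl

end proj

/-! ### the wreath product with `C` and the homomorphism to `A × C` -/

section wr

variable {G A C : Type} [Group G] [CommGroup A] [CommGroup C] [Fintype C]

/-- `(g, c) ↦ (∏ f(g_i), c)` -/
def f1 (C : Type) [CommGroup C] [Fintype C] (f : G →* A) : WW C C G →* A × C :=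
  MonoidHom.prod (WF f) rightHom

theorem f1_surj {f : G →* A} (hf : Function.Surjective f) : Function.Surjective (f1 C f) := by
  rintro ⟨a, c⟩
  obtain ⟨g, rfl⟩ := hf a
  refine ⟨⟨Pi.mulSingle 1 g, c⟩, ?_⟩
  apply Prod.ext
  · exact prod_mulSingle f 1 g
  · rfl

/-- the kernel of `f1` -/
def ker1 (f : G →* A) : (f1 C f).ker ≃* (piF C f).ker where
  toFun x := ⟨x.1.left, congrArg Prod.fst (show f1 C f x.1 = 1 from x.2)⟩
  invFun y := ⟨inl (y : C → G), by
    rw [MonoidHom.mem_ker]
    apply Prod.ext
    · exact y.2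
    · rfl⟩
  left_inv x := by
    apply Subtype.ext
    ext
    · rfl
    · exact (congrArg Prod.snd (show f1 C f x.1 = 1 from x.2)).symm
  right_inv _ := rfl
  map_mul' x y := by
    apply Subtype.ext
    change (x.1 * y.1).left = x.1.left * y.1.left
    have h1 : x.1.right = 1 := congrArg Prod.snd (show f1 C f x.1 = 1 from x.2)
    rw [mul_left, h1, map_one, MulAut.one_apply]

/-- abelian quotients of the wreath product -/
theorem bd_wr {n : ℕ} [Finite G] (h : Bd (fun _ => True) n G) :
    Bd (fun _ => True) (n * Nat.card C) (WW C C G) := by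
  haveI : Finite (WW C C G) := Finite.of_equiv _ equivProd.symm
  apply bd_of_hom
  intro M _ _ ρ hρ _
  let ρ₁ : G →* M := ρ.comp (inl.comp (MonoidHom.mulSingle (fun _ => G) 1))
  have h1 : Nat.card ρ₁.range ≤ n := by
    have := h ρ₁.ker (comm_le_ker ρ₁) trivial
    rwa [Subgroup.index_ker] at this
  have h2 : ∀ (c : C) (g : G), ρ (inl (Pi.mulSingle c g)) = ρ₁ g := by
    intro c g
    have h3 : (Pi.mulSingle c g : C → G) = arr C C G c (Pi.mulSingle 1 g) := by
      rw [arr_mulSingle, smul_eq_mul, mul_one]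
    change _ = ρ (inl (Pi.mulSingle 1 g))
    rw [h3, inl_aut, map_mul, map_mul, mul_right_comm, ← map_mul ρ (inr c), ← map_mul inr,
      mul_inv_cancel, map_one, map_one, one_mul]
  have h3 : ∀ g : C → G, ρ (inl g) ∈ ρ₁.range := by
    intro g
    have key : ∀ s : Finset C, ∀ g : C → G, (∀ c ∉ s, g c = 1) → ρ (inl g) ∈ ρ₁.range := by
      intro s
      induction s using Finset.induction_on with
      | empty =>
        intro g hg
        have : g = 1 := funext fun c => hg c (Finset.notMem_empty c)
        rw [this, map_one, map_one]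
        exact Subgroup.one_mem _
      | insert c s hc ih =>
        intro g hg
        have h4 : g = Pi.mulSingle c (g c) * ((Pi.mulSingle c (g c))⁻¹ * g) := by
          rw [mul_inv_cancel_left]
        rw [h4, map_mul, map_mul, h2]
        refine Subgroup.mul_mem _ ⟨_, rfl⟩ (ih _ fun d hd => ?_)
        rw [Pi.mul_apply, Pi.inv_apply]
        by_cases h5 : d = c
        · subst h5
          rw [Pi.mulSingle_eq_same, inv_mul_cancel]
        · rw [Pi.mulSingle_eq_of_ne h5, inv_one, one_mul]
          exact hg d (by rw [Finset.mem_insert, not_or]; exact ⟨h5, hd⟩)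
    exact key Finset.univ g fun c hc => absurd (Finset.mem_univ c) hc
  have h4 : Function.Surjective fun x : ρ₁.range × C => (x.1 : M) * ρ (inr x.2) := by
    intro m
    obtain ⟨x, rfl⟩ := hρ m
    refine ⟨⟨⟨ρ (inl x.left), h3 _⟩, x.right⟩, ?_⟩
    change ρ (inl x.left) * ρ (inr x.right) = ρ x
    rw [← map_mul, inl_left_mul_inr_right]
  have h5 := Nat.card_le_card_of_surjective _ h4
  rw [Nat.card_prod] at h5
  exact h5.trans (Nat.mul_le_mul_right _ h1)

end wr

end Pool.Agent.H373.PG
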