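import Pool.Agent.H373.PG.Nf

/-!
# The number of fixed characters of the kernel of `g ↦ ∏ f(g_i)`; parity; comparison of two groups
-/

set_option autoImplicit false
set_option linter.unusedSectionVars false
set_option linter.style.haveILetI false

open scoped BigOperators Classical

noncomputable section

namespace Pool.Agent.H373.PG

open Pool.Agent.Helper884 Pool.Agent.H254R3.IN SemidirectProduct
open Pool.Agent.K3h3.KB (ndeg ndeg_eq ndeg_cast ndeg_pos exists_cj exists_mult cj_at_one cj_mem_M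
  card_dual sum_dual dualFintype bt bt_irr bt_inj ndeg_bt)
open Pool.Agent.K3h3.MK (cover_pi)
open Pool.Agent.Q90.WR (irr_gal irr_of_norm B_nat)
open Pool.Agent.Y63.AWC (res mult mult_spec res_eq res_class cj cj_irr cj_mul cj_one cj_res mult_cj
  clifford sum_M)
open Pool.Agent.Y62 (tw tw_irr tw_one)
open Pool.Agent.E8helper62.MG (mult_gal)
open IC (Irr)

variable (p : ℕ) [hp : Fact p.Prime] (Γ : Set (ℂ ≃+* ℂ))

section ker

variable {X A : Type} [Group X] [CommGroup A] [Fintype X] [Fintype A] (f : X →* A)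
  (hf : Function.Surjective f) (M : Subgroup X) (hM : ∀ g, g ∈ M ↔ f g = 1) [hN : M.Normal]

include hf hM in
/-- the restriction of a free character is fixed by `Γ` if and only if the character has a type -/
theorem fixd_res (hA : (Nat.card A).Prime) {χ : X → ℂ} (hχ : IsIrr χ) (h : sb f χ = ⊥) :
    fixd Γ (res M χ) ↔ qf Γ f χ := by
  obtain ⟨h1, h2, -⟩ := res_free f hf M hM hχ h
  constructor
  · intro h3 σ hσ
    have h4 : res M (fun g => σ (χ g)) = res M χ := funext fun m => h3 σ hσ m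
    have h5 : mult M (fun g => σ (χ g)) (res M χ) ≠ 0 := by
      have h6 : mult M (fun g => σ (χ g)) (res M χ) = mult M χ (res M χ) := by
        unfold mult
        rw [h4]
      rw [h6, h2]
      exact one_ne_zero
    obtain ⟨l, hl⟩ := over_free f hf M hM hA hχ h h1 (by rw [h2]; exact one_ne_zero)
      (irr_gal σ hχ) h5
    exact ⟨l, fun g => congrFun hl g⟩
  · intro h3 σ hσ m
    obtain ⟨l, hl⟩ := h3 σ hσ
    have h4 := hl (m : X)
    rw [(hM _).mp m.2, map_one, Units.val_one, one_mul] at h4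
    exact h4

include hf hM in
/-- a character over which there is a fixed constituent is fixed -/
theorem fixd_of_over (hA : (Nat.card A).Prime) {χ : X → ℂ} (hχ : IsIrr χ) (h : sb f χ = ⊤)
    {θ : M → ℂ} (hθ : IsIrr θ) (hm : mult M χ θ ≠ 0) (hfix : fixd Γ θ) : fixd Γ χ := by
  intro σ hσ
  have h1 : mult M (fun g => σ (χ g)) θ ≠ 0 := by
    have h2 := mult_gal M σ hχ hθ
    have h3 : (fun m => σ (θ m)) = θ := funext fun m => hfix σ hσ m
    rw [h3] at h2
    rw [h2]
    exact hm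
  have h2 := (over_fixed f hf M hM hA hχ h hθ hm).1 _ (mem_Irr.mpr (irr_gal σ hχ)) h1
  exact fun g => congrFun h2 g

include hf hM in
/-- the number of fixed characters of the kernel: a homomorphism onto a group of prime order -/
theorem nf_kerM {r : ℕ} (hr : r.Prime) (hrp : r ≠ p) (hA : Nat.card A = r) :
    ∃ E : ℕ, E ≤ r * xl p Γ f ∧ r * nf p Γ M = qn p Γ f + r * E := by
  have hA' : (Nat.card A).Prime := hA ▸ hr
  have h1 := sum_over f hf M hM hA' (fun θ => if fixd Γ θ then w0 p (ndeg θ) else 0)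
  rw [← Finset.sum_filter, ← cn_cast, hA] at h1
  have h2 : ∑ χ ∈ (Irr X).filter (fun χ => sb f χ = ⊥),
      (if fixd Γ (res M χ) then w0 p (ndeg (res M χ)) else 0) = (qn p Γ f : ℂ) := by
    unfold qn
    rw [← Finset.sum_filter, Finset.filter_filter]
    simp only [ndeg_res]
    exact cn_sum p fun χ hχ => and_congr_right fun h => fixd_res Γ f hf M hM hA' hχ h
  let E : ℕ := ∑ χ ∈ (Irr X).filter (fun χ => sb f χ = ⊤),
    (((Irr M).filter fun θ => mult M χ θ ≠ 0).filter fun θ => fixd Γ θ ∧ ¬ p ∣ ndeg θ).card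
  have h3 : ∑ χ ∈ (Irr X).filter (fun χ => sb f χ = ⊤),
      ∑ θ ∈ (Irr M).filter (fun θ => mult M χ θ ≠ 0),
        (if fixd Γ θ then w0 p (ndeg θ) else 0) = (E : ℂ) := by
    change _ = ((∑ χ ∈ (Irr X).filter (fun χ => sb f χ = ⊤),
      (((Irr M).filter fun θ => mult M χ θ ≠ 0).filter fun θ => fixd Γ θ ∧ ¬ p ∣ ndeg θ).card : ℕ)
        : ℂ)
    push_cast
    refine Finset.sum_congr rfl fun χ _ => ?_
    rw [← Finset.sum_boole]
    refine Finset.sum_congr rfl fun θ _ => ?_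
    rw [w0_apply]
    by_cases h4 : fixd Γ θ
    · by_cases h5 : p ∣ ndeg θ
      · rw [if_pos h4, if_pos h5, if_neg fun h => h.2 h5]
      · rw [if_pos h4, if_neg h5, if_pos ⟨h4, h5⟩]
    · rw [if_neg h4, if_neg fun h => h4 h.1]
  rw [h2, h3] at h1
  refine ⟨E, ?_, ?_⟩
  · have h4 : xl p Γ f = ∑ χ ∈ (Irr X).filter (fun χ => sb f χ = ⊤),
        if fixd Γ χ ∧ ¬ p ∣ ndeg χ then 1 else 0 := by
      unfold xl
      rw [Finset.sum_boole, Nat.cast_id, Finset.filter_filter]
      symm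
      exact cn_of p fun χ _ => by tauto
    rw [h4, Finset.mul_sum]
    refine Finset.sum_le_sum fun χ hχ => ?_
    rw [Finset.mem_filter, mem_Irr] at hχ
    by_cases h5 : fixd Γ χ ∧ ¬ p ∣ ndeg χ
    · rw [if_pos h5, mul_one]
      obtain ⟨θ, hθ, hm⟩ := exists_mult M hχ.1
      refine (Finset.card_filter_le _ _).trans ?_
      rw [(fixed_deg f hf M hM hA' hχ.1 hχ.2 hθ hm).1, hA]
    · rw [if_neg h5, mul_zero, Nat.le_zero, Finset.card_eq_zero, Finset.filter_eq_empty_iff]
      rintro θ hθ ⟨h6, h7⟩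
      rw [Finset.mem_filter, mem_Irr] at hθ
      apply h5
      refine ⟨fixd_of_over Γ f hf M hM hA' hχ.1 hχ.2 hθ.1 hθ.2 h6, ?_⟩
      rw [(fixed_deg f hf M hM hA' hχ.1 hχ.2 hθ.1 hθ.2).2, hA, hp.out.dvd_mul, not_or]
      exact ⟨fun h8 => hrp ((Nat.prime_dvd_prime_iff_eq hp.out hr).mp h8).symm, h7⟩
  · exact_mod_cast h1

end ker

/-- all characters of degree prime to `p` are free, for a homomorphism onto a group of order `p` -/
theorem xl_zero {X A : Type} [Group X] [CommGroup A] [Finite X] [Finite A] (f : X →* A)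
    (hf : Function.Surjective f) (hA : Nat.card A = p) : xl p Γ f = 0 := by
  haveI := Fintype.ofFinite X
  haveI := Fintype.ofFinite A
  exact cn_zero p fun χ hχ h1 h2 => h1 (dvd_of_top hp.out f hf hA hχ h2.1)

/-- **the number of the fixed characters for the kernel of `g ↦ ∏ f(g_i)`** -/
theorem nf_ker_pi {r : ℕ} (hr : r.Prime) {I G A : Type} [Fintype I] [Nonempty I] [Group G]
    [CommGroup A] [Finite G] [Finite A] (f : G →* A) (hf : Function.Surjective f)
    (hA : Nat.card A = r) (hI : r ≠ p ∨ 2 ≤ Fintype.card I) :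
    |(r : ℤ) * nf p Γ (piF I f).ker - ∑ u ∈ UU p Γ f, (xu p Γ f u : ℤ) ^ Fintype.card I| ≤
      (((UU p Γ f).card + r ^ 2 : ℕ) : ℤ) * (xl p Γ f : ℤ) ^ Fintype.card I := by
  haveI := Fintype.ofFinite G
  haveI := Fintype.ofFinite A
  have hA' : (Nat.card A).Prime := hA ▸ hr
  obtain ⟨M, hMk⟩ : ∃ M : Subgroup (I → G), M = (piF I f).ker := ⟨_, rfl⟩
  have hM : ∀ g, g ∈ M ↔ piF I f g = 1 := by
    intro g
    rw [hMk]
    rfl
  haveI : M.Normal := normal_M (piF I f) M hM
  have key : ∃ E : ℕ, E ≤ r * xl p Γ (piF I f) ∧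
      r * nf p Γ (piF I f).ker = qn p Γ (piF I f) + r * E := by
    rw [← hMk]
    by_cases hrp : r = p
    · subst hrp
      refine ⟨0, Nat.zero_le _, ?_⟩
      have h2I : 2 ≤ Fintype.card I := hI.resolve_left fun h => h rfl
      have h1 := sum_ker_pi hr h2I f hf hA M hM (fun θ => if fixd Γ θ then w0 r (ndeg θ) else 0)
        (fun θ _ h => by
          rw [(w0_zero r _).mpr h]
          split_ifs <;> rfl)
      rw [← Finset.sum_filter, ← cn_cast] at h1
      have h2 : ∑ χ ∈ (Irr (I → G)).filter (fun χ => ¬ r ∣ ndeg χ),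
          (if fixd Γ (res M χ) then w0 r (ndeg (res M χ)) else 0) = (qn r Γ (piF I f) : ℂ) := by
        unfold qn
        rw [← Finset.sum_filter, Finset.filter_filter]
        have h3 : ∀ χ ∈ (Irr (I → G)).filter (fun χ => ¬ r ∣ ndeg χ ∧ fixd Γ (res M χ)),
            w0 r (ndeg (res M χ)) = 1 := by
          intro χ hχ
          rw [Finset.mem_filter] at hχ
          rw [ndeg_res, w0_apply, if_neg hχ.2.1]
        rw [Finset.sum_congr rfl h3, Finset.sum_const, nsmul_eq_mul, mul_one]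
        congr 1
        refine cn_of r fun χ hχ => and_congr_right fun h4 => ?_
        have h6 : sb (piF I f) χ = ⊥ := (sb_cases _ hA' χ).resolve_right fun h6 =>
          h4 (dvd_of_top hr (piF I f) (piF_surj hf) hA hχ h6)
        rw [fixd_res Γ (piF I f) (piF_surj hf) M hM hA' hχ h6]
        exact ⟨fun h => ⟨h6, h⟩, fun h => h.2⟩
      rw [h2] at h1
      rw [mul_zero, add_zero]
      exact_mod_cast h1
    · exact nf_kerM p Γ (piF I f) (piF_surj hf) M hM hr hrp hA
  obtain ⟨E, hE, h1⟩ := key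
  have h2 := qn_pi p Γ (I := I) hA' f
  rw [Finset.sum_sub_distrib, Finset.sum_const, nsmul_eq_mul] at h2
  have h3 : (r : ℤ) * nf p Γ (piF I f).ker = qn p Γ (piF I f) + r * E := by exact_mod_cast h1
  rw [h3, h2]
  rw [xl_pi] at hE
  have h4 : (E : ℤ) ≤ r * (xl p Γ f : ℤ) ^ Fintype.card I := by exact_mod_cast hE
  have h5 : ∀ S T U : ℤ, S - T + U - S = U - T := fun S T U => by ring
  rw [h5, abs_le]
  have h6 : (0 : ℤ) ≤ (xl p Γ f : ℤ) ^ Fintype.card I := by positivity
  have h7 : (0 : ℤ) ≤ r := by positivity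
  have h8 : (0 : ℤ) ≤ r * E := by positivity
  have h9 : (0 : ℤ) ≤ ((UU p Γ f).card : ℤ) * (xl p Γ f : ℤ) ^ Fintype.card I := by positivity
  have h10 : (r : ℤ) * E ≤ r * (r * (xl p Γ f : ℤ) ^ Fintype.card I) :=
    mul_le_mul_of_nonneg_left h4 h7
  have h11 : (0 : ℤ) ≤ (r : ℤ) ^ 2 * (xl p Γ f : ℤ) ^ Fintype.card I := by positivity
  push_cast
  constructor
  · nlinarith
  · nlinarith

/-! ### the dual character and parity -/

theorem irr_dual {G : Type} [Group G] [Finite G] {χ : G → ℂ} (h : IsIrr χ) :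
    IsIrr (fun g => χ g⁻¹) := by
  haveI := Fintype.ofFinite G
  have hcl := IC.IsIrrChar.isClass h
  refine irr_of_norm (fun g y => ?_) (fun ψ hψ => ?_) ?_ ?_
  · have h1 := hcl g⁻¹ y
    rw [← h1]
    congr 1
    group
  · obtain ⟨V, _, _, _, ρ, _, rfl⟩ := h
    obtain ⟨W, _, _, _, τ, _, rfl⟩ := hψ
    obtain ⟨n, hn⟩ := B_nat ρ.dual τ
    exact ⟨n, by
      rw [Int.cast_natCast, ← hn]
      congr 1
      funext g
      exact (Representation.char_dual ρ g).symm⟩
  · have h1 := IC.B_irr h h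
    rw [if_pos rfl] at h1
    rw [← h1]
    unfold IC.B
    congr 1
    refine Finset.sum_congr rfl fun g _ => ?_
    simp only [inv_inv]
    exact mul_comm _ _
  · obtain ⟨n, _, hn⟩ := Pool.Agent.Q90.WR.deg_pos h
    exact ⟨n, by simp only [inv_one]; exact hn⟩

theorem ndeg_dual {G : Type} [Group G] (χ : G → ℂ) : ndeg (fun g => χ g⁻¹) = ndeg χ := by
  unfold ndeg
  simp only [inv_one]

section par

variable {X A : Type} [Group X] [CommGroup A] [Finite X] [Finite A] (f : X →* A)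

theorem sb_dual (χ : X → ℂ) : sb f (fun g => χ g⁻¹) = sb f χ := by
  have key : ∀ χ : X → ℂ, sb f χ ≤ sb f (fun g => χ g⁻¹) := by
    intro χ l hl g
    have h1 := (sb f χ).inv_mem hl g⁻¹
    rw [MonoidHom.inv_apply, map_inv, map_inv, inv_inv] at h1
    exact h1
  refine le_antisymm ?_ (key χ)
  have h1 := key (fun g => χ g⁻¹)
  simp only [inv_inv] at h1
  exact h1

theorem isty_dual (u : (ℂ ≃+* ℂ) → (A →* ℂˣ)) (χ : X → ℂ) :
    isty Γ f u⁻¹ (fun g => χ g⁻¹) ↔ isty Γ f u χ := by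
  refine forall₂_congr fun σ _ => ?_
  constructor
  · intro h g
    have h1 := h g⁻¹
    change σ (χ g⁻¹⁻¹) = ((u⁻¹ σ) (f g⁻¹) : ℂ) * χ g⁻¹⁻¹ at h1
    rw [inv_inv] at h1
    rw [h1, Pi.inv_apply, MonoidHom.inv_apply, map_inv, map_inv, inv_inv]
  · intro h g
    have h1 := h g⁻¹
    change σ (χ g⁻¹) = ((u⁻¹ σ) (f g) : ℂ) * χ g⁻¹
    rw [h1, Pi.inv_apply, MonoidHom.inv_apply, map_inv, map_inv]

theorem xu_dual (u : (ℂ ≃+* ℂ) → (A →* ℂˣ)) : xu p Γ f u⁻¹ = xu p Γ f u := by
  haveI := Fintype.ofFinite X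
  unfold xu
  rw [cn_eq, cn_eq]
  symm
  refine Finset.card_bij' (fun χ _ => fun g => χ g⁻¹) (fun χ _ => fun g => χ g⁻¹) ?_ ?_ ?_ ?_
  · intro χ hχ
    rw [Finset.mem_filter, mem_Irr] at hχ ⊢
    exact ⟨irr_dual hχ.1, by rw [ndeg_dual]; exact hχ.2.1, (isty_dual Γ f u χ).mpr hχ.2.2⟩
  · intro χ hχ
    rw [Finset.mem_filter, mem_Irr] at hχ ⊢
    refine ⟨irr_dual hχ.1, by rw [ndeg_dual]; exact hχ.2.1, ?_⟩
    rw [← isty_dual]
    simp only [inv_inv]
    exact hχ.2.2
  · intro χ _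
    simp only [inv_inv]
  · intro χ _
    simp only [inv_inv]

theorem UU_inv {u : (ℂ ≃+* ℂ) → (A →* ℂˣ)} (hu : u ∈ UU p Γ f) : u⁻¹ ∈ UU p Γ f := by
  rw [mem_UU] at hu ⊢
  obtain ⟨h1, χ, h2, h3, h4, h5⟩ := hu
  refine ⟨fun σ hσ => MonoidHom.ext fun a => by
    rw [Pi.inv_apply, MonoidHom.inv_apply, h1 σ hσ, MonoidHom.one_apply, inv_one], fun g => χ g⁻¹, irr_dual h2, ?_, ?_,
    (isty_dual Γ f u χ).mpr h5⟩
  · rw [ndeg_dual]
    exact h3
  · rw [sb_dual]
    exact h4

theorem irr_one {G : Type} [Group G] [Finite G] : IsIrr (fun _ : G => (1 : ℂ)) := by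
  haveI := Fintype.ofFinite G
  refine irr_of_norm (fun g y => rfl) (fun ψ hψ => ?_) ?_ ⟨1, by simp⟩
  · obtain ⟨W, _, _, _, τ, _, rfl⟩ := hψ
    obtain ⟨n, hn⟩ := B_nat (Representation.trivial ℂ G ℂ) τ
    refine ⟨n, ?_⟩
    rw [Int.cast_natCast, ← hn]
    congr 1
    funext g
    change (1 : ℂ) = LinearMap.trace ℂ ℂ ((Representation.trivial ℂ G ℂ) g)
    have h1 : (Representation.trivial ℂ G ℂ) g = LinearMap.id := by
      ext
      simp
    rw [h1, LinearMap.trace_id]
    simp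
  · unfold IC.B
    simp

/-- the trivial character -/
theorem one_mem_UU (hf : Function.Surjective f) : (1 : (ℂ ≃+* ℂ) → (A →* ℂˣ)) ∈ UU p Γ f := by
  rw [mem_UU]
  refine ⟨fun _ _ => rfl, fun _ => 1, irr_one, ?_, ?_, ?_⟩
  · rw [ndeg_eq (n := 1) (by simp)]
    exact fun h => hp.out.one_lt.ne' (Nat.dvd_one.mp h)
  · rw [eq_bot_iff]
    intro l hl
    rw [Subgroup.mem_bot]
    ext a
    obtain ⟨g, rfl⟩ := hf a
    have h1 := hl g
    rw [mul_one] at h1
    exact h1
  · intro σ _ g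
    rw [Pi.one_apply, MonoidHom.one_apply, Units.val_one, mul_one, map_one]

theorem xu_one : xu p Γ f 1 = nf p Γ X := by
  refine cn_congr p fun χ _ _ => forall₂_congr fun σ _ => forall_congr' fun g => ?_
  rw [Pi.one_apply, MonoidHom.one_apply, Units.val_one, one_mul]

theorem xl_lt (hf : Function.Surjective f) (hA : (Nat.card A).Prime) :
    xl p Γ f < nf p Γ X := by
  refine cn_lt p (fun χ _ _ h => h.2) ⟨fun _ => 1, irr_one, ?_, fun σ _ g => map_one σ, ?_⟩
  · rw [ndeg_eq (n := 1) (by simp)]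
    exact fun h => hp.out.one_lt.ne' (Nat.dvd_one.mp h)
  · rintro ⟨h2, -⟩
    have h3 : sb f (fun _ => (1 : ℂ)) = ⊥ := by
      rw [eq_bot_iff]
      intro l hl
      rw [Subgroup.mem_bot]
      ext a
      obtain ⟨g, rfl⟩ := hf a
      have h1 := hl g
      rw [mul_one] at h1
      exact h1
    rw [h3] at h2
    exact bot_ne_top hA h2

/-- the groups of automorphisms for which the homomorphisms onto a group of order `r` can be
treated -/
def PR (r : ℕ) (Γ : Set (ℂ ≃+* ℂ)) : Prop :=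
  Odd r ∨ (r = 2 ∧ ∀ σ ∈ Γ, ∀ (G : Type) [Group G] [Finite G] (χ : G → ℂ), IsIrr χ →
    ∃ m : ℕ, Odd m ∧ ∀ g, (σ ^ m) (χ g) = χ g)

/-- a linear character of a group of odd prime order which is its own inverse is trivial -/
theorem inv_ne_odd {r : ℕ} (hr : Odd r) (hA : Nat.card A = r) {u : (ℂ ≃+* ℂ) → (A →* ℂˣ)}
    (h : u⁻¹ = u) : u = 1 := by
  funext σ
  ext a
  have h1 : (u σ) a ^ 2 = 1 := by
    have h2 : (u σ)⁻¹ = u σ := congrFun h σ
    have h3 : ((u σ) a)⁻¹ = (u σ) a := DFunLike.congr_fun h2 a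
    rw [pow_two]
    nth_rewrite 1 [← h3]
    exact inv_mul_cancel _
  have h2 : (u σ) a ^ r = 1 := by
    rw [← map_pow, ← hA, pow_card_eq_one', map_one]
  obtain ⟨k, hk⟩ := hr
  rw [hk, pow_succ, pow_mul, h1, one_pow, one_mul] at h2
  rw [h2]
  rfl

/-- if all elements of `Γ` act with odd order, then there is only the trivial type for `r = 2` -/
theorem UU_two (hf : Function.Surjective f) (hA : Nat.card A = 2)
    (hΓ : ∀ σ ∈ Γ, ∀ (G : Type) [Group G] [Finite G] (χ : G → ℂ), IsIrr χ →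
      ∃ m : ℕ, Odd m ∧ ∀ g, (σ ^ m) (χ g) = χ g) : UU p Γ f = {1} := by
  ext u
  rw [Finset.mem_singleton]
  constructor
  · intro hu
    obtain ⟨h1, χ, h2, h3, h4, h5⟩ := (mem_UU p Γ).mp hu
    have hsq : ∀ (l : A →* ℂˣ) (a : A), ((l a : ℂˣ) : ℂ) ^ 2 = 1 := by
      intro l a
      rw [← Units.val_pow_eq_pow_val, ← map_pow, ← hA, pow_card_eq_one', map_one, Units.val_one]
    have hfx : ∀ (σ : ℂ ≃+* ℂ) (l : A →* ℂˣ) (a : A), σ ((l a : ℂˣ) : ℂ) = l a := by
      intro σ l a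
      rcases mul_self_eq_one_iff.mp ((pow_two _).symm.trans (hsq l a)) with h | h
      · rw [h, map_one]
      · rw [h, map_neg, map_one]
    refine isty_unique Γ h4 h5 (v := 1) ?_ h1 (fun _ _ => rfl)
    intro σ hσ g
    rw [Pi.one_apply, MonoidHom.one_apply, Units.val_one, one_mul]
    have h6 : ∀ g, (σ ^ 2) (χ g) = χ g := by
      intro g
      rw [pow_two]
      change σ (σ (χ g)) = χ g
      rw [h5 σ hσ g, map_mul, h5 σ hσ g, hfx, ← mul_assoc, ← pow_two, hsq, one_mul]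
    obtain ⟨m, ⟨k, hk⟩, h7⟩ := hΓ σ hσ X χ h2
    have h8 : ∀ k : ℕ, ∀ g, (σ ^ (2 * k)) (χ g) = χ g := by
      intro k
      induction k with
      | zero => intro g; rfl
      | succ k ih =>
        intro g
        rw [mul_add, mul_one, pow_add]
        change (σ ^ (2 * k)) ((σ ^ 2) (χ g)) = χ g
        rw [h6, ih]
    have h9 := h7 g
    rw [hk, add_comm, pow_add, pow_one] at h9
    change σ ((σ ^ (2 * k)) (χ g)) = χ g at h9
    rw [h8] at h9
    exact h9
  · rintro rfl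
    exact one_mem_UU p Γ f hf

/-- **parity**: the number of the types with `x` characters is odd if and only if `x` is the number
of the fixed characters -/
theorem parity {r : ℕ} (hΓ : PR r Γ) (hf : Function.Surjective f) (hA : Nat.card A = r) (z : ℕ) :
    (((UU p Γ f).filter fun u => xu p Γ f u = z).card : ZMod 2) =
      if nf p Γ X = z then 1 else 0 := by
  have h1 : (((UU p Γ f).filter fun u => xu p Γ f u = z).card : ZMod 2) =
      ∑ u ∈ UU p Γ f, if xu p Γ f u = z then (1 : ZMod 2) else 0 := by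
    rw [Finset.sum_boole]
  rw [h1]
  rcases hΓ with hr | ⟨hr, hΓ⟩
  · rw [← Finset.add_sum_erase _ _ (one_mem_UU p Γ f hf), xu_one]
    have h2 : ∑ u ∈ (UU p Γ f).erase 1, (if xu p Γ f u = z then (1 : ZMod 2) else 0) = 0 := by
      refine Finset.sum_involution (fun u _ => u⁻¹) ?_ ?_ ?_ ?_
      · intro u _
        rw [xu_dual]
        split_ifs
        · decide
        · decide
      · intro u hu _ h3
        exact (Finset.mem_erase.mp hu).1 (inv_ne_odd hr hA h3)
      · intro u hu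
        rw [Finset.mem_erase] at hu ⊢
        refine ⟨fun h3 => hu.1 ?_, UU_inv p Γ f hu.2⟩
        funext σ
        ext a
        have h4 := DFunLike.congr_fun (congrFun h3 σ) a
        have h5 : ((u σ) a)⁻¹ = 1 := h4
        rw [inv_eq_one.mp h5]
        rfl
      · intro u _
        exact inv_inv u
    rw [h2, add_zero]
  · rw [UU_two p Γ f hf (hA.trans hr) hΓ, Finset.sum_singleton, xu_one]

end par

/-- **comparison**: if the numbers of the fixed characters of the kernels agree for infinitely many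
direct powers, then they agree for the groups -/
theorem compare {r : ℕ} (hr : r.Prime) (hΓ : PR r Γ) {G H A : Type} [Group G] [Group H]
    [CommGroup A] [Finite G] [Finite H] [Finite A] (f : G →* A) (hf : Function.Surjective f)
    (f' : H →* A) (hf' : Function.Surjective f') (hA : Nat.card A = r)
    (h : ∀ J : ℕ, ∃ (I : Type) (_ : Fintype I), J ≤ Fintype.card I ∧
      nf p Γ (piF I f).ker = nf p Γ (piF I f').ker) : nf p Γ G = nf p Γ H := by
  have hA' : (Nat.card A).Prime := hA ▸ hr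
  by_contra hne
  -- the estimate
  let c := max (xl p Γ f) (xl p Γ f')
  let C := ((UU p Γ f).card + r ^ 2) + ((UU p Γ f').card + r ^ 2)
  have hest : ∀ J : ℕ, ∃ j, J ≤ j ∧ |(∑ u ∈ UU p Γ f, (xu p Γ f u : ℤ) ^ j) -
      ∑ v ∈ UU p Γ f', (xu p Γ f' v : ℤ) ^ j| ≤ (C : ℤ) * (c : ℤ) ^ j := by
    intro J
    obtain ⟨I, _, hI, h1⟩ := h (max J 2)
    have hI2 : 2 ≤ Fintype.card I := (le_max_right _ _).trans hI
    haveI : Nonempty I := Fintype.card_pos_iff.mp (by omega)
    refine ⟨Fintype.card I, (le_max_left _ _).trans hI, ?_⟩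
    have h2 := nf_ker_pi p Γ hr (I := I) f hf hA (Or.inr hI2)
    have h3 := nf_ker_pi p Γ hr (I := I) f' hf' hA (Or.inr hI2)
    rw [h1] at h2
    have h4 : (xl p Γ f : ℤ) ^ Fintype.card I ≤ (c : ℤ) ^ Fintype.card I :=
      pow_le_pow_left₀ (by positivity) (by exact_mod_cast le_max_left _ _) _
    have h5 : (xl p Γ f' : ℤ) ^ Fintype.card I ≤ (c : ℤ) ^ Fintype.card I :=
      pow_le_pow_left₀ (by positivity) (by exact_mod_cast le_max_right _ _) _
    have h6 : (((UU p Γ f).card + r ^ 2 : ℕ) : ℤ) * (xl p Γ f : ℤ) ^ Fintype.card I ≤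
        (((UU p Γ f).card + r ^ 2 : ℕ) : ℤ) * (c : ℤ) ^ Fintype.card I :=
      mul_le_mul_of_nonneg_left h4 (by positivity)
    have h7 : (((UU p Γ f').card + r ^ 2 : ℕ) : ℤ) * (xl p Γ f' : ℤ) ^ Fintype.card I ≤
        (((UU p Γ f').card + r ^ 2 : ℕ) : ℤ) * (c : ℤ) ^ Fintype.card I :=
      mul_le_mul_of_nonneg_left h5 (by positivity)
    have h8 : ((C : ℕ) : ℤ) * (c : ℤ) ^ Fintype.card I =
        (((UU p Γ f).card + r ^ 2 : ℕ) : ℤ) * (c : ℤ) ^ Fintype.card I +
        (((UU p Γ f').card + r ^ 2 : ℕ) : ℤ) * (c : ℤ) ^ Fintype.card I := by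
      rw [← add_mul, ← Nat.cast_add]
    rw [h8]
    rw [abs_le] at h2 h3 ⊢
    constructor
    · linarith [h2.1, h2.2, h3.1, h3.2]
    · linarith [h2.1, h2.2, h3.1, h3.2]
  have hcG := xl_lt p Γ f hf hA'
  have hcH := xl_lt p Γ f' hf' hA'
  rcases lt_or_gt_of_ne hne with hlt | hlt
  · have h1 := grow (UU p Γ f) (UU p Γ f') (xu p Γ f) (xu p Γ f') c C hest (nf p Γ H)
      (max_lt (hcG.trans hlt) hcH)
    have h2 : (((UU p Γ f).filter fun u => xu p Γ f u = nf p Γ H).card : ZMod 2) =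
        (((UU p Γ f').filter fun u => xu p Γ f' u = nf p Γ H).card : ZMod 2) := by rw [h1]
    rw [parity p Γ f hΓ hf hA, parity p Γ f' hΓ hf' hA, if_neg hne, if_pos rfl] at h2
    exact zero_ne_one h2
  · have h1 := grow (UU p Γ f) (UU p Γ f') (xu p Γ f) (xu p Γ f') c C hest (nf p Γ G)
      (max_lt hcG (hcH.trans hlt))
    have h2 : (((UU p Γ f).filter fun u => xu p Γ f u = nf p Γ G).card : ZMod 2) =
        (((UU p Γ f').filter fun u => xu p Γ f' u = nf p Γ G).card : ZMod 2) := by rw [h1]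
    rw [parity p Γ f hΓ hf hA, parity p Γ f' hΓ hf' hA, if_pos rfl, if_neg (Ne.symm hne)] at h2
    exact one_ne_zero h2

end Pool.Agent.H373.PG
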