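import Pool.Agent.H373.PG.Main
import Pool.Agent.H373.PG.Nf2

/-!
# Abelian quotients whose order has a property `Q`; the module over the field with two elements
-/

set_option autoImplicit false
set_option linter.unusedSectionVars false
set_option linter.style.haveILetI false

open scoped BigOperators Classical commutatorElement

noncomputable section

namespace Pool.Agent.H373.PG

open SemidirectProduct
open Pool.Agent.K3h3.MK (NN)
open Pool.Agent.E8helper60.CQ (piAct)

/-- there are no nontrivial homomorphisms to finite abelian groups whose order has the property `Q` -/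
def TH (Q : ℕ → Prop) (T : Type) [Group T] : Prop :=
  ∀ (M : Type) [CommGroup M] [Finite M], Q (Nat.card M) → ∀ τ : T →* M, τ = 1

theorem TH.pi {Q : ℕ → Prop} {T : Type} [Group T] (h : TH Q T) (k : ℕ) : TH Q (Fin k → T) := by
  intro M _ _ hM τ
  have h1 : ∀ i : Fin k, ∀ t : T, τ (Pi.mulSingle i t) = 1 := fun i t =>
    DFunLike.congr_fun (h M hM (τ.comp (MonoidHom.mulSingle (fun _ => T) i))) t
  have key : ∀ s : Finset (Fin k), ∀ g : Fin k → T, (∀ c ∉ s, g c = 1) → τ g = 1 := by
    intro s
    induction s using Finset.induction_on with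
    | empty =>
      intro g hg
      have : g = 1 := funext fun c => hg c (Finset.notMem_empty c)
      rw [this, map_one]
    | insert c s hc ih =>
      intro g hg
      have h4 : g = Pi.mulSingle c (g c) * ((Pi.mulSingle c (g c))⁻¹ * g) := by
        rw [mul_inv_cancel_left]
      rw [h4, map_mul, h1, one_mul]
      refine ih _ fun d hd => ?_
      rw [Pi.mul_apply, Pi.inv_apply]
      by_cases h5 : d = c
      · subst h5
        rw [Pi.mulSingle_eq_same, inv_mul_cancel]
      · rw [Pi.mulSingle_eq_of_ne h5, inv_one, one_mul]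
        exact hg d (by rw [Finset.mem_insert, not_or]; exact ⟨h5, hd⟩)
  ext g
  exact key Finset.univ g fun c hc => absurd (Finset.mem_univ c) hc

/-- only surjective homomorphisms have to be considered -/
theorem TH_of_surj {Q : ℕ → Prop} (hQd : ∀ m d, Q m → d ∣ m → Q d) {T : Type} [Group T]
    (h : ∀ (M : Type) [CommGroup M] [Finite M], Q (Nat.card M) → ∀ τ : T →* M,
      Function.Surjective τ → Nat.card M ≤ 1) : TH Q T := by
  intro M _ _ hM τ
  have h1 := h τ.range (hQd _ _ hM (Subgroup.card_subgroup_dvd_card _)) τ.rangeRestrict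
    τ.rangeRestrict_surjective
  have h2 : τ.range = ⊥ := Subgroup.card_le_one_iff_eq_bot _ |>.mp h1
  exact MonoidHom.range_eq_bot_iff.mp h2

/-- there are no invariant homomorphisms -/
theorem no_inv2 {Q : ℕ → Prop} {Y C : Type} [Group Y] [Fintype Y] [CommGroup C] (hY : TH Q Y)
    (M : Type) [CommGroup M] [Finite M] (hM : Q (Nat.card M))
    (ρ : VV Y C →* M) (hρ : ∀ (y : Y) (v : VV Y C), ρ (vact Y C y v) = ρ v) : ρ = 1 := by
  have hdd : ∀ (c : C) (ω ω' : Y), ρ (dd (MonoidHom.id C) c ω ω') = 1 := by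
    intro c ω ω'
    have h2 : ρ (dd (MonoidHom.id C) c ω ω') =
        phiD (MonoidHom.id C) ρ hρ c ω (ω' * ω⁻¹) := by
      change _ = ρ (dd (MonoidHom.id C) c ω ((ω' * ω⁻¹) • ω))
      rw [smul_eq_mul, inv_mul_cancel_right]
    rw [h2, hY M hM (phiD (MonoidHom.id C) ρ hρ c ω)]
    rfl
  ext b
  obtain ⟨c, hc⟩ := rho_reduce (MonoidHom.id C) ρ hdd 1 b
  rw [hc]
  have h1 : c = 1 := Subtype.ext c.2
  rw [h1, map_one, map_one]
  rfl

/-- the module is faithful -/
theorem vact_inj2 {Y : Type} [Group Y] [Fintype Y] (h : 3 ≤ Fintype.card Y) :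
    Function.Injective (vact Y (CC 2)) := by
  rw [injective_iff_map_eq_one]
  intro y hy
  by_contra hne
  -- an element different from `1` and `y`
  obtain ⟨z, hz1, hzy⟩ : ∃ z : Y, z ≠ 1 ∧ z ≠ y := by
    by_contra hcon
    push Not at hcon
    have h4 : (Finset.univ : Finset Y) ⊆ {1, y} := by
      intro ω _
      rw [Finset.mem_insert, Finset.mem_singleton]
      by_cases h5 : ω = 1
      · exact Or.inl h5
      · exact Or.inr (hcon ω h5)
    have h5 := Finset.card_le_card h4
    rw [Finset.card_univ] at h5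
    have h6 := Finset.card_le_two (a := (1 : Y)) (b := y)
    omega
  let c : CC 2 := Multiplicative.ofAdd (1 : ZMod 2)
  have hc : c ≠ 1 := by
    change Multiplicative.ofAdd (1 : ZMod 2) ≠ Multiplicative.ofAdd 0
    decide
  have h1 : vact Y (CC 2) y (dd (MonoidHom.id (CC 2)) c 1 z) = dd (MonoidHom.id (CC 2)) c 1 z := by
    rw [hy, MulAut.one_apply]
  have h2 := congrFun (congrArg Subtype.val h1) y
  have h3 : (vact Y (CC 2) y (dd (MonoidHom.id (CC 2)) c 1 z) : Y → CC 2) y =
      (dd (MonoidHom.id (CC 2)) c 1 z : Y → CC 2) (y⁻¹ • y) := rfl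
  rw [h3, smul_eq_mul, inv_mul_cancel, dd_apply_left _ c (Ne.symm hz1),
    dd_apply_of_ne _ c hne (Ne.symm hzy)] at h2
  exact hc h2

/-- all automorphisms fix the linear characters of the module -/
theorem VV_fix2 (Γ : Set (ℂ ≃+* ℂ)) (Y : Type) [Group Y] [Fintype Y] :
    ∀ θ : VV Y (CC 2) →* ℂˣ, ∀ σ ∈ Γ, ∀ v, σ (θ v : ℂ) = (θ v : ℂ) := by
  intro θ σ _ v
  have h1 : v ^ 2 = 1 := by
    apply Subtype.ext
    funext y
    change (v : Y → CC 2) y ^ 2 = 1
    have h2 : (v : Y → CC 2) y ^ Nat.card (CC 2) = 1 := pow_card_eq_one'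
    rwa [card_CC] at h2
  have h2 : (θ v : ℂ) ^ 2 = 1 := by
    rw [← Units.val_pow_eq_pow_val, ← map_pow, h1, map_one, Units.val_one]
  rcases mul_self_eq_one_iff.mp ((pow_two _).symm.trans h2) with h | h
  · rw [h, map_one]
  · rw [h, map_neg, map_one]

/-- `V ^ k ⋊ X` has no further abelian quotients -/
theorem bd_sd2 {Q : ℕ → Prop} {n k : ℕ} {X Y V : Type} [Group X] [Group Y] [CommGroup V] [Finite X]
    [Finite V] (π : X →* Y) (hπ : Function.Surjective π) (φ : Y →* MulAut V)
    (hV : ∀ (M : Type) [CommGroup M] [Finite M], Q (Nat.card M) → ∀ ρ : V →* M,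
      (∀ (y : Y) (v : V), ρ (φ y v) = ρ v) → ρ = 1)
    (h : Bd Q n X) : Bd Q n ((Fin k → V) ⋊[(piAct k φ).comp π] X) := by
  haveI : Finite ((Fin k → V) ⋊[(piAct k φ).comp π] X) := Finite.of_equiv _ equivProd.symm
  apply bd_of_hom
  intro M _ _ ρ hρ hM
  have h1 : ∀ v : Fin k → V, ρ (inl v) = 1 := by
    intro v
    have h2 : ∀ i : Fin k, (ρ.comp (inl.comp (MonoidHom.mulSingle (fun _ => V) i)) : V →* M) = 1 := by
      intro i
      apply hV M hM
      intro y u
      obtain ⟨x, rfl⟩ := hπ y
      have h3 : (Pi.mulSingle i (φ (π x) u) : Fin k → V) =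
          ((piAct k φ).comp π) x (Pi.mulSingle i u) := by
        funext j
        change Pi.mulSingle (M := fun _ => V) i (φ (π x) u) j =
          φ (π x) (Pi.mulSingle (M := fun _ => V) i u j)
        by_cases hj : j = i
        · subst hj
          rw [Pi.mulSingle_eq_same, Pi.mulSingle_eq_same]
        · rw [Pi.mulSingle_eq_of_ne hj, Pi.mulSingle_eq_of_ne hj, map_one]
      change ρ (inl (Pi.mulSingle i (φ (π x) u))) = ρ (inl (Pi.mulSingle i u))
      rw [h3, inl_aut, map_mul, map_mul, mul_right_comm, ← map_mul ρ (inr x), ← map_mul inr,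
        mul_inv_cancel, map_one, map_one, one_mul]
    have h4 : v = ∏ i, Pi.mulSingle i (v i) := (Finset.univ_prod_mulSingle v).symm
    change (ρ.comp inl) v = 1
    rw [h4, map_prod]
    refine Finset.prod_eq_one fun i _ => ?_
    exact DFunLike.congr_fun (h2 i) (v i)
  refine h.hom (ρ.comp inr) ?_ hM
  intro m
  obtain ⟨x, rfl⟩ := hρ m
  refine ⟨x.right, ?_⟩
  change ρ (inr x.right) = ρ x
  conv_rhs => rw [← inl_left_mul_inr_right x, map_mul, h1, one_mul]

/-- abelian quotients of the wreath product -/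
theorem bd_wr2 {Q : ℕ → Prop} (hQd : ∀ m d, Q m → d ∣ m → Q d) {G C : Type} [Group G] [CommGroup C]
    [Fintype C] {n : ℕ} [Finite G] (h : Bd Q n G) : Bd Q (n * Nat.card C) (WW C C G) := by
  haveI : Finite (WW C C G) := Finite.of_equiv _ equivProd.symm
  apply bd_of_hom
  intro M _ _ ρ hρ hM
  let ρ₁ : G →* M := ρ.comp (inl.comp (MonoidHom.mulSingle (fun _ => G) 1))
  have h1 : Nat.card ρ₁.range ≤ n := by
    have := h ρ₁.ker (comm_le_ker ρ₁) (by
      rw [Subgroup.index_ker]
      exact hQd _ _ hM (Subgroup.card_subgroup_dvd_card _))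
    rwa [Subgroup.index_ker] at this
  have h2 : ∀ (c : C) (g : G), ρ (inl (Pi.mulSingle c g)) = ρ₁ g := by
    intro c g
    have h3 : (Pi.mulSingle c g : C → G) = arr C C G c (Pi.mulSingle 1 g) := by
      rw [arr_mulSingle, smul_eq_mul, mul_one]
    change _ = ρ (inl (Pi.mulSingle 1 g))
    rw [h3, inl_aut, map_mul, map_mul, mul_right_comm, ← map_mul ρ (inr c), ← map_mul inr,
      mul_inv_cancel, map_one, map_one, one_mul]
  have h3 : ∀ g : C → G, ρ (inl g) ∈ ρ₁.range := by
    intro g
    have key : ∀ s : Finset C, ∀ g : C → G, (∀ c ∉ s, g c = 1) → ρ (inl g) ∈ ρ₁.range := by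
      intro s
      induction s using Finset.induction_on with
      | empty =>
        intro g hg
        have : g = 1 := funext fun c => hg c (Finset.notMem_empty c)
        rw [this, map_one, map_one]
        exact Subgroup.one_mem _
      | insert c s hc ih =>
        intro g hg
        have h4 : g = Pi.mulSingle c (g c) * ((Pi.mulSingle c (g c))⁻¹ * g) := by
          rw [mul_inv_cancel_left]
        rw [h4, map_mul, map_mul, h2]
        refine Subgroup.mul_mem _ ⟨_, rfl⟩ (ih _ fun d hd => ?_)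
        rw [Pi.mul_apply, Pi.inv_apply]
        by_cases h5 : d = c
        · subst h5
          rw [Pi.mulSingle_eq_same, inv_mul_cancel]
        · rw [Pi.mulSingle_eq_of_ne h5, inv_one, one_mul]
          exact hg d (by rw [Finset.mem_insert, not_or]; exact ⟨h5, hd⟩)
    exact key Finset.univ g fun c hc => absurd (Finset.mem_univ c) hc
  have h4 : Function.Surjective fun x : ρ₁.range × C => (x.1 : M) * ρ (inr x.2) := by
    intro m
    obtain ⟨x, rfl⟩ := hρ m
    refine ⟨⟨⟨ρ (inl x.left), h3 _⟩, x.right⟩, ?_⟩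
    change ρ (inl x.left) * ρ (inr x.right) = ρ x
    rw [← map_mul, inl_left_mul_inr_right]
  have h5 := Nat.card_le_card_of_surjective _ h4
  rw [Nat.card_prod] at h5
  exact h5.trans (Nat.mul_le_mul_right _ h1)

/-- the kernel for an abelian group has no abelian quotients with the property -/
theorem TH_ker {Q : ℕ → Prop} (hQd : ∀ m d, Q m → d ∣ m → Q d) {T Ω A : Type} [Group T] [Finite T]
    [Fintype Ω] [MulAction T Ω] [MulAction.IsPretransitive T Ω] (hΩ : 3 ≤ Fintype.card Ω)
    [CommGroup A] [Finite A] (hQA : ∀ m, Q m → Q (Nat.card A * m)) (hT : TH Q T) :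
    TH Q (WF (MonoidHom.id A) : WW T Ω A →* A).ker := by
  apply TH_of_surj hQd
  intro M _ _ hM τ hτ
  have h1 : Bd Q (Nat.card A) A := by
    intro N _ _
    exact Nat.le_of_dvd Nat.card_pos N.index_dvd_card
  have h2 := bd_ker (MonoidHom.id A) Function.surjective_id rfl hQA hΩ
    (fun M _ _ h => hT M h) h1 M τ hτ hM
  have h3 : 0 < Nat.card A := Nat.card_pos
  exact Nat.le_of_mul_le_mul_left (by rw [mul_one]; exact h2) h3

end Pool.Agent.H373.PG
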