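import Pool.Agent.H373.PG.Pw

/-!
# The weighted number for the kernel of `g ↦ ∏ f(g_i)` for a homomorphism `f` onto a group of order `p`
-/

set_option autoImplicit false
set_option linter.unusedSectionVars false
set_option linter.style.haveILetI false

open scoped BigOperators Classical

noncomputable section

namespace Pool.Agent.H373.PG

open Pool.Agent.Helper884 Pool.Agent.H254R3.IN SemidirectProduct
open Pool.Agent.K3h3.KB (ndeg ndeg_eq ndeg_cast ndeg_pos exists_cj exists_mult cj_at_one cj_mem_M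
  card_dual sum_dual dualFintype bt bt_irr bt_inj ndeg_bt)
open Pool.Agent.K3h3.MK (cover_pi)
open Pool.Agent.Q90.WR (irr_gal)
open Pool.Agent.Y63.AWC (res mult mult_spec res_eq res_class cj cj_irr cj_mul cj_one cj_res mult_cj
  clifford sum_M)
open Pool.Agent.Y62 (tw tw_irr tw_one)
open IC (Irr)

variable (Γ : Set (ℂ ≃+* ℂ)) (w : ℕ →* ℂ)

/-- the hypothesis on `Γ` for the prime `p` -/
def HP (p : ℕ) (Γ : Set (ℂ ≃+* ℂ)) (w : ℕ →* ℂ) : Prop :=
  ∀ (G A : Type) [Group G] [CommGroup A] [Finite G] [Finite A] (f : G →* A),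
    Function.Surjective f → Nat.card A = p → ∃ t : ℕ, 0 < t ∧ ∀ (I : Type) [Fintype I],
      2 ≤ Fintype.card I →
        (p : ℂ) * wf Γ w (piF I f).ker = (t : ℂ) * wf Γ w G ^ Fintype.card I

/-- the degrees of the fixed characters are divisible by `p` -/
theorem dvd_of_top {p : ℕ} (hp : p.Prime) {X A : Type} [Group X] [CommGroup A] [Fintype X]
    [Fintype A] (f : X →* A) (hf : Function.Surjective f) (hA : Nat.card A = p) {χ : X → ℂ}
    (hχ : IsIrr χ) (h : sb f χ = ⊤) : p ∣ ndeg χ := by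
  obtain ⟨M, hMk⟩ : ∃ M : Subgroup X, M = f.ker := ⟨_, rfl⟩
  have hM : ∀ g, g ∈ M ↔ f g = 1 := by
    intro g
    rw [hMk]
    rfl
  haveI : M.Normal := normal_M f M hM
  obtain ⟨θ, hθ, hm⟩ := exists_mult M hχ
  rw [(fixed_deg f hf M hM (hA ▸ hp) hχ h hθ hm).2, hA]
  exact Dvd.intro _ rfl

/-- sums over the irreducible characters of the kernel, if the functions vanish on the characters of
degree divisible by `p` -/
theorem sum_ker_pi {p : ℕ} (hp : p.Prime) {G A I : Type} [Group G] [CommGroup A] [Fintype G]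
    [Fintype A] [Fintype I] (hI : 2 ≤ Fintype.card I) (f : G →* A) (hf : Function.Surjective f)
    (hA : Nat.card A = p) (M : Subgroup (I → G)) [M.Normal] (hM : ∀ g, g ∈ M ↔ piF I f g = 1)
    (F : (M → ℂ) → ℂ) (hF : ∀ θ, IsIrr θ → p ∣ ndeg θ → F θ = 0) :
    (p : ℂ) * ∑ θ ∈ Irr M, F θ = ∑ χ ∈ (Irr (I → G)).filter (fun χ => ¬ p ∣ ndeg χ),
      F (res M χ) := by
  haveI : Nonempty I := Fintype.card_pos_iff.mp (by omega)
  have hf' : Function.Surjective (piF I f) := piF_surj hf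
  have hA' : (Nat.card A).Prime := hA ▸ hp
  have h1 := sum_over (piF I f) hf' M hM hA' F
  rw [hA] at h1
  rw [h1]
  have h2 : ∑ χ ∈ (Irr (I → G)).filter (fun χ => sb (piF I f) χ = ⊤),
      ∑ θ ∈ (Irr M).filter (fun θ => mult M χ θ ≠ 0), F θ = 0 := by
    refine Finset.sum_eq_zero fun χ hχ => Finset.sum_eq_zero fun θ hθ => ?_
    rw [Finset.mem_filter, mem_Irr] at hχ hθ
    refine hF θ hθ.1 ?_
    obtain ⟨ψ, hψ, rfl⟩ := cover_pi hχ.1
    have h3 : ∀ i, sb f (ψ i) = ⊤ := by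
      intro i
      rw [eq_top_iff]
      intro l _
      have h4 : l ∈ sb (piF I f) (bt ψ) := by
        rw [hχ.2]
        exact Subgroup.mem_top l
      exact (mem_sb_bt f hψ l).mp h4 i
    have h4 : ∀ i, p ∣ ndeg (ψ i) := fun i => dvd_of_top hp f hf hA (hψ i) (h3 i)
    have h5 : p ^ Fintype.card I ∣ ndeg (bt ψ) := by
      rw [ndeg_bt hψ, ← Finset.card_univ, ← Finset.prod_const]
      exact Finset.prod_dvd_prod_of_dvd _ _ fun i _ => h4 i
    rw [(fixed_deg (piF I f) hf' M hM hA' hχ.1 hχ.2 hθ.1 hθ.2).2, hA] at h5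
    have h6 : p * p ∣ p * ndeg θ := by
      rw [← pow_two]
      exact (pow_dvd_pow p hI).trans h5
    exact Nat.dvd_of_mul_dvd_mul_left hp.pos h6
  rw [h2, mul_zero, add_zero]
  -- the free characters with degree divisible by `p` do not contribute
  have h3 : (Irr (I → G)).filter (fun χ => ¬ p ∣ ndeg χ) =
      ((Irr (I → G)).filter (fun χ => sb (piF I f) χ = ⊥)).filter (fun χ => ¬ p ∣ ndeg χ) := by
    ext χ
    simp only [Finset.mem_filter, mem_Irr]
    constructor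
    · rintro ⟨h4, h5⟩
      exact ⟨⟨h4, (sb_cases _ hA' χ).resolve_right fun h6 =>
        h5 (dvd_of_top hp (piF I f) hf' hA h4 h6)⟩, h5⟩
    · rintro ⟨⟨h4, -⟩, h5⟩
      exact ⟨h4, h5⟩
  rw [h3]
  symm
  apply Finset.sum_filter_of_ne
  intro χ hχ hne h4
  rw [Finset.mem_filter, mem_Irr] at hχ
  exact hne (hF _ (res_free (piF I f) hf' M hM hχ.1 hχ.2).1 h4)

theorem HP_empty {p : ℕ} (hp : p.Prime) (hw : ∀ n, w n = 0 ↔ p ∣ n) : HP p ∅ w := by
  intro G A _ _ _ _ f hf hA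
  refine ⟨1, Nat.one_pos, fun I _ hI => ?_⟩
  haveI := Fintype.ofFinite G
  haveI := Fintype.ofFinite A
  obtain ⟨M, hMk⟩ : ∃ M : Subgroup (I → G), M = (piF I f).ker := ⟨_, rfl⟩
  have hM : ∀ g, g ∈ M ↔ piF I f g = 1 := by
    intro g
    rw [hMk]
    rfl
  haveI : M.Normal := normal_M (piF I f) M hM
  have hfix : ∀ {X : Type} (χ : X → ℂ) [Group X], fixd ∅ χ :=
    fun χ _ σ hσ => absurd hσ (Set.notMem_empty σ)
  have h1 := sum_ker_pi hp hI f hf hA M hM (fun θ => w (ndeg θ))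
    (fun θ _ h => (hw _).mpr h)
  rw [wf_congr ∅ w (MulEquiv.subgroupCongr hMk.symm), ← wf_pi, Nat.cast_one, one_mul, wf_eq, wf_eq,
    Finset.filter_true_of_mem fun χ _ => hfix χ, Finset.filter_true_of_mem fun χ _ => hfix χ, h1]
  apply Finset.sum_filter_of_ne
  intro χ hχ hne h4
  exact hne ((hw _).mpr h4)

end Pool.Agent.H373.PG
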