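import Pool.Agent.H373.PG.Grp3
import Pool.Agent.H373.PG.Cls

/-!
# The induction for the numbers of the fixed characters of degree prime to `p`
-/

set_option autoImplicit false
set_option linter.unusedSectionVars false
set_option linter.style.haveILetI false

open scoped BigOperators Classical

noncomputable section

namespace Pool.Agent.H373.PG

open SemidirectProduct
open Pool.Agent.K3h3.MK (NN)
open Pool.Agent.K3h3.KB (consE reE)
open Pool.Agent.E8helper60.CQ (piAct)

/-- Closure properties of a class `𝒢` of finite groups: isomorphic groups, normal subgroups, direct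
products of two groups, groups with a normal subgroup in `𝒢` with a factor group of order prime to
`p`, and groups with an abelian normal subgroup of order prime to `p` with factor group in `𝒢`. -/
structure Cl2 (p : ℕ) (𝒢 : (G : Type) → [Group G] → Prop) : Prop where
  iso : ∀ {G H : Type} [Group G] [Group H] [Finite G], G ≃* H → 𝒢 G → 𝒢 H
  normal : ∀ {G : Type} [Group G] [Finite G] (N : Subgroup G), N.Normal → 𝒢 G → 𝒢 N
  prod : ∀ {G H : Type} [Group G] [Group H] [Finite G] [Finite H], 𝒢 G → 𝒢 H → 𝒢 (G × H)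
  up : ∀ {G H : Type} [Group G] [Group H] [Finite G] (π : G →* H), Function.Surjective π →
    ¬ p ∣ Nat.card H → 𝒢 π.ker → 𝒢 G
  down : ∀ {G H : Type} [Group G] [Group H] [Finite G] (π : G →* H), Function.Surjective π →
    (∀ a ∈ π.ker, ∀ b ∈ π.ker, a * b = b * a) → ¬ p ∣ Nat.card π.ker → 𝒢 H → 𝒢 G

theorem Cl2.pi {p : ℕ} {𝒢 : (G : Type) → [Group G] → Prop} (h : Cl2 p 𝒢) {G I : Type} [Group G]
    [Finite G] [Fintype I] (hG : 𝒢 G) : 𝒢 (I → G) := by
  have key : ∀ n : ℕ, 𝒢 (Fin n → G) := by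
    intro n
    induction n with
    | zero =>
      have h1 : 𝒢 (⊥ : Subgroup G) := h.normal ⊥ inferInstance hG
      haveI : Unique (Fin 0 → G) := inferInstance
      let e : (⊥ : Subgroup G) ≃* (Fin 0 → G) :=
        { toFun := fun _ => 1
          invFun := fun _ => 1
          left_inv := fun _ => Subsingleton.elim _ _
          right_inv := fun _ => Subsingleton.elim _ _
          map_mul' := fun _ _ => Subsingleton.elim _ _ }
      exact h.iso e h1
    | succ n ih => exact h.iso (consE G n).symm (h.prod hG ih)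
  exact h.iso (reE G (Fintype.equivFin I)).symm (key _)

theorem Cl2.ww {p : ℕ} {𝒢 : (G : Type) → [Group G] → Prop} (h : Cl2 p 𝒢) {G H Ω : Type} [Group G]
    [Finite G] [Group H] [Finite H] [Fintype Ω] [MulAction H Ω] (hH : ¬ p ∣ Nat.card H)
    (hG : 𝒢 G) : 𝒢 (WW H Ω G) := by
  haveI : Finite (WW H Ω G) := Finite.of_equiv _ equivProd.symm
  exact h.up (rightHom : WW H Ω G →* H) rightHom_surjective hH
    (h.iso (kerR (arr H Ω G)).symm (h.pi hG))

theorem Cl2.ker {p : ℕ} {𝒢 : (G : Type) → [Group G] → Prop} (h : Cl2 p 𝒢) {G A : Type} [Group G]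
    [Group A] [Finite G] (f : G →* A) (hG : 𝒢 G) : 𝒢 f.ker := h.normal f.ker inferInstance hG

theorem Cl2.sd {p : ℕ} [hp : Fact p.Prime] {𝒢 : (G : Type) → [Group G] → Prop} (h : Cl2 p 𝒢)
    {X V : Type} [Group X] [Finite X] [CommGroup V] [Finite V] (hV : ¬ p ∣ Nat.card V) (k : ℕ)
    (φ : X →* MulAut (Fin k → V)) (hX : 𝒢 X) : 𝒢 ((Fin k → V) ⋊[φ] X) := by
  haveI : Finite ((Fin k → V) ⋊[φ] X) := Finite.of_equiv _ equivProd.symm
  refine h.down (rightHom : (Fin k → V) ⋊[φ] X →* X) rightHom_surjective ?_ ?_ hX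
  · intro a ha b hb
    have h1 : (⟨a, ha⟩ * ⟨b, hb⟩ : (rightHom : (Fin k → V) ⋊[φ] X →* X).ker) =
        ⟨b, hb⟩ * ⟨a, ha⟩ := by
      apply (kerR φ).injective
      rw [map_mul, map_mul, mul_comm]
    exact congrArg Subtype.val h1
  · rw [Nat.card_congr (kerR φ).toEquiv, Nat.card_fun]
    intro h1
    exact hV (hp.out.dvd_of_dvd_pow h1)

section ind

variable {p : ℕ} [hp : Fact p.Prime] (Γ : Set (ℂ ≃+* ℂ))

/-- the numbers of fixed characters of degree prime to `p` agree -/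
def Gd (p : ℕ) [Fact p.Prime] (Γ : Set (ℂ ≃+* ℂ)) (G : Type) [Group G] [Finite G] : Prop :=
  ∀ P : Sylow p G, nf p Γ G = nf p Γ (NN P)

theorem good_iff (G : Type) [Group G] [Finite G] : Good p Γ (w0 p) G ↔ Gd p Γ G := by
  refine forall_congr' fun P => ?_
  rw [wf_w0, wf_w0]
  exact Nat.cast_inj

theorem two_ndvd (hp2 : p ≠ 2) : ¬ p ∣ 2 := fun h =>
  hp2 ((Nat.prime_dvd_prime_iff_eq hp.out Nat.prime_two).mp h)

variable {Q : ℕ → Prop} {T : Type} [Group T] [Finite T] {𝒢 : (G : Type) → [Group G] → Prop}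

/-- the step for a homomorphism onto a group of order `p` -/
theorem indP3 (hp2 : p ≠ 2) (hQm : ∀ r j m : ℕ, r.Prime → Q r → Odd j → Q m → Q (r * j * m))
    (hPR : PR p Γ) (hT : TH Q T) (hT3 : 3 ≤ Nat.card T)
    (hTp : ¬ p ∣ Nat.card T) (h𝒢 : Cl2 p 𝒢) (n : ℕ)
    (ih : ∀ m < n, ∀ (G : Type) [Group G] [Finite G], 𝒢 G → Bd Q m G → Gd p Γ G)
    (G : Type) [Group G] [Finite G] (hG : 𝒢 G) (hb : Bd Q n G)
    (A : Type) [CommGroup A] [Finite A] (f : G →* A) (hf : Function.Surjective f)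
    (hA : Nat.card A = p) (hQp : Q p) : Gd p Γ G := by
  intro P
  have hA' : (Nat.card A).Prime := hA ▸ hp.out
  refine compare p Γ hp.out hPR f hf (f.comp (NN P).subtype) (surj_NN hf hA' P) hA ?_
  intro J
  haveI := Fintype.ofFinite T
  let S : Type := Fin (J + 1) → T
  have hS : Fintype.card S = Fintype.card T ^ (J + 1) := by
    rw [Fintype.card_fun, Fintype.card_fin]
  have hT3' : 3 ≤ Fintype.card T := by rwa [← Nat.card_eq_fintype_card]
  have hS3 : 3 ≤ Fintype.card S := by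
    rw [hS, pow_succ]
    have : 1 ≤ Fintype.card T ^ J := Nat.one_le_pow _ _ (by omega)
    nlinarith
  have hSJ : J ≤ Fintype.card S := by
    rw [hS]
    have h1 : J + 1 < Fintype.card T ^ (J + 1) := Nat.lt_pow_self (by omega)
    omega
  have hSp : ¬ p ∣ Nat.card S := by
    rw [Nat.card_eq_fintype_card, hS, ← Nat.card_eq_fintype_card]
    exact fun h => hTp (hp.out.dvd_of_dvd_pow h)
  have hSH : TH Q S := hT.pi (J + 1)
  refine ⟨S, inferInstance, hSJ, ?_⟩
  haveI : Nontrivial S := Fintype.one_lt_card_iff_nontrivial.mp (by omega)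
  have hVp : ¬ p ∣ Nat.card (VV S (CC 2)) := VV_dvd S 2 (two_ndvd hp2)
  have h1 := stepP Γ (w0 p) (w0_zero p) (T := S) (Ω := S) (C := CC 2) f P hSp inferInstance
    (vact_inj2 hS3) (Or.inr hVp) (VV_fix2 Γ S) ?_
  · rw [wf_w0, wf_w0] at h1
    exact_mod_cast h1
  intro k
  rw [good_iff]
  haveI : Finite (WW S S G) := Finite.of_equiv _ equivProd.symm
  have hX : Bd Q (n / p) (WF f : WW S S G →* A).ker := by
    apply bd_of_hom
    intro M _ _ ρ hρ hM
    rw [Nat.le_div_iff_mul_le hp.out.pos, mul_comm]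
    exact bd_ker f hf hA (fun m h => by
      have := hQm p 1 m hp.out hQp odd_one h
      rwa [mul_one] at this) hS3 (fun M _ _ h => hSH M h) hb M ρ hρ hM
  refine ih (n / p) (Nat.div_lt_self ?_ hp.out.one_lt) _ ?_ ?_
  · have h5 := hb f.ker (comm_le_ker f) (by
      rw [Subgroup.index_ker, MonoidHom.range_eq_top.mpr hf, Subgroup.card_top, hA]
      exact hQp)
    rw [Subgroup.index_ker, MonoidHom.range_eq_top.mpr hf, Subgroup.card_top, hA] at h5
    exact lt_of_lt_of_le hp.out.pos h5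
  · exact h𝒢.sd hVp k _ (h𝒢.ker _ (h𝒢.ww hSp hG))
  · exact bd_sd2 _ (pT_surj f) _ (fun M _ _ hM ρ hρ => no_inv2 hSH M hM ρ hρ) hX

/-- the step for a homomorphism onto a group of prime order `r ≠ p` -/
theorem indR3 (hp2 : p ≠ 2) (hQd : ∀ m d, Q m → d ∣ m → Q d)
    (hQm : ∀ r j m : ℕ, r.Prime → Q r → Odd j → Q m → Q (r * j * m))
    (hT : TH Q T) (hT3 : 3 ≤ Nat.card T)
    (hTp : ¬ p ∣ Nat.card T) (h𝒢 : Cl2 p 𝒢) (n : ℕ)
    (ih : ∀ m < n, ∀ (G : Type) [Group G] [Finite G], 𝒢 G → Bd Q m G → Gd p Γ G)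
    (G : Type) [Group G] [Finite G] (hG : 𝒢 G) (hb : Bd Q n G)
    (A : Type) [CommGroup A] [Finite A] (f : G →* A) (hf : Function.Surjective f)
    {r : ℕ} (hA : Nat.card A = r) (hr : r.Prime) (hrp : r ≠ p) (hQr : Q r) (hPR : PR r Γ) :
    Gd p Γ G := by
  intro P
  have hA' : (Nat.card A).Prime := hA ▸ hr
  have hpA : ¬ p ∣ Nat.card A := by
    rw [hA]
    intro h
    exact hrp ((Nat.prime_dvd_prime_iff_eq hp.out hr).mp h).symm
  refine compare p Γ hr hPR f hf (f.comp (NN P).subtype) (surj_NN hf hA' P) hA ?_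
  intro J₀
  haveI := Fintype.ofFinite T
  have hT3' : 3 ≤ Fintype.card T := by rwa [← Nat.card_eq_fintype_card]
  -- the cyclic group
  let j : ℕ := 2 * p * J₀ + 1
  haveI : NeZero j := ⟨Nat.succ_ne_zero _⟩
  let J : Type := CC j
  haveI : Fintype J := Fintype.ofFinite _
  have hcJ : Fintype.card J = j := by
    rw [← Nat.card_eq_fintype_card]
    exact card_CC j
  have hJ : ¬ p ∣ Nat.card J := by
    change ¬ p ∣ Nat.card (CC j)
    rw [card_CC]
    intro h
    have h1 : p ∣ 2 * p * J₀ := Dvd.intro (2 * J₀) (by ring)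
    have := (Nat.dvd_add_right h1).mp h
    exact hp.out.one_lt.ne' (Nat.dvd_one.mp this)
  have hJo : Odd (Nat.card J) := by
    change Odd (Nat.card (CC j))
    rw [card_CC]
    exact ⟨p * J₀, by change 2 * p * J₀ + 1 = _; ring⟩
  refine ⟨J, inferInstance, ?_, ?_⟩
  · rw [hcJ]
    change J₀ ≤ 2 * p * J₀ + 1
    have := hp.out.pos
    nlinarith
  have hgood : Good p Γ (w0 p) (piF J f).ker := by
    apply good_congr Γ (w0 p) (ker1 f)
    haveI : Finite (WW J J G) := Finite.of_equiv _ equivProd.symm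
    let P₁ : Sylow p (f1 J f).ker := default
    refine good_of Γ (w0 p) P₁ ?_
    have hpAJ : ¬ p ∣ Nat.card (A × J) := by
      rw [Nat.card_prod]
      intro h
      rcases (Nat.Prime.dvd_mul hp.out).mp h with h | h
      · exact hpA h
      · exact hJ h
    haveI : Finite (WW T T (WW J J G)) := Finite.of_equiv _ equivProd.symm
    haveI : Finite (WW T T (A × J)) := Finite.of_equiv _ equivProd.symm
    let Y := (WF (MonoidHom.id (A × J)) : WW T T (A × J) →* (A × J)).ker
    haveI : Fintype Y := Fintype.ofFinite _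
    have hY3 : 3 ≤ Fintype.card Y := by
      have h1 : Fintype.card T ≤ Fintype.card Y :=
        Fintype.card_le_of_surjective _ (pT_surj (T := T) (Ω := T) (MonoidHom.id (A × J)))
      exact hT3'.trans h1
    have hYH : TH Q Y := TH_ker hQd hT3' (fun m h => by
      rw [Nat.card_prod, hA]
      exact hQm r _ m hr hQr hJo h) hT
    have hVp : ¬ p ∣ Nat.card (VV Y (CC 2)) := VV_dvd Y 2 (two_ndvd hp2)
    have h1 := stepR Γ (w0 p) (w0_zero p) (T := T) (Ω := T) (C := CC 2) (f1 J f) (f1_surj hf) P₁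
      hTp hpAJ (vact_inj2 hY3) hVp (VV_fix2 Γ Y) ?_
    · rw [wf_w0, wf_w0, ← Nat.cast_pow, ← Nat.cast_pow, Nat.cast_inj] at h1
      rw [wf_w0, wf_w0, Nat.cast_inj]
      exact Nat.pow_left_injective (by omega) h1
    intro k
    rw [good_iff]
    have hX : Bd Q (n / r)
        (WF (f1 J f) : WW T T (WW J J G) →* (A × J)).ker := by
      apply bd_of_hom
      intro M _ _ ρ hρ hM
      rw [Nat.le_div_iff_mul_le hr.pos, mul_comm]
      have h5 := bd_ker (r := r * Nat.card J) (f1 J f) (f1_surj hf) (by rw [Nat.card_prod, hA])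
        (fun m h => hQm r _ m hr hQr hJo h) hT3' (fun M _ _ h => hT M h) (bd_wr2 hQd hb) M ρ hρ hM
      have h6 : 0 < Nat.card J := Nat.card_pos
      refine Nat.le_of_mul_le_mul_right ?_ h6
      calc r * Nat.card M * Nat.card J = r * Nat.card J * Nat.card M := by ring
        _ ≤ n * Nat.card J := h5
    refine ih (n / r) (Nat.div_lt_self ?_ hr.one_lt) _ ?_ ?_
    · have h5 := hb f.ker (comm_le_ker f) (by
        rw [Subgroup.index_ker, MonoidHom.range_eq_top.mpr hf, Subgroup.card_top, hA]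
        exact hQr)
      rw [Subgroup.index_ker, MonoidHom.range_eq_top.mpr hf, Subgroup.card_top, hA] at h5
      exact lt_of_lt_of_le hr.pos h5
    · exact h𝒢.sd hVp k _ (h𝒢.ker _ (h𝒢.ww hTp (h𝒢.ww hJ hG)))
    · exact bd_sd2 _ (pA_surj (f1_surj hf)) _ (fun M _ _ hM ρ hρ => no_inv2 hYH M hM ρ hρ) hX
  have h1 := good_ker_pi Γ (w0 p) f P hgood (Or.inr hpA)
  rw [wf_w0, wf_w0, Nat.cast_inj] at h1
  exact h1

/-- **The reduction.** -/
theorem reduction3 (hp2 : p ≠ 2) (hQd : ∀ m d, Q m → d ∣ m → Q d)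
    (hQm : ∀ r j m : ℕ, r.Prime → Q r → Odd j → Q m → Q (r * j * m))
    (hPR : ∀ r : ℕ, r.Prime → Q r → PR r Γ)
    (hT : TH Q T) (hT3 : 3 ≤ Nat.card T)
    (hTp : ¬ p ∣ Nat.card T) (h𝒢 : Cl2 p 𝒢)
    (hbase : ∀ (G : Type) [Group G] [Finite G], 𝒢 G →
      (∀ (A : Type) [CommGroup A] [Finite A] (f : G →* A), Function.Surjective f →
        (Nat.card A).Prime → ¬ Q (Nat.card A)) → Gd p Γ G)
    (G : Type) [Group G] [Finite G] (hG : 𝒢 G) : Gd p Γ G := by
  have key : ∀ n : ℕ, ∀ (G : Type) [Group G] [Finite G], 𝒢 G → Bd Q n G → Gd p Γ G := by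
    intro n
    induction n using Nat.strong_induction_on with
    | _ n ih =>
      intro G _ _ hG hb
      by_cases hc : ∀ (A : Type) [CommGroup A] [Finite A] (f : G →* A), Function.Surjective f →
        (Nat.card A).Prime → ¬ Q (Nat.card A)
      · exact hbase G hG hc
      · push Not at hc
        obtain ⟨A, _, _, f, hf, hA, hQA⟩ := hc
        by_cases hA2 : Nat.card A = p
        · exact indP3 Γ hp2 hQm (hPR p hp.out (hA2 ▸ hQA)) hT hT3 hTp h𝒢 n ih G hG hb A f hf hA2
            (hA2 ▸ hQA)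
        · exact indR3 Γ hp2 hQd hQm hT hT3 hTp h𝒢 n ih G hG hb A f hf rfl hA hA2 hQA
            (hPR _ hA hQA)
  refine key (Nat.card G) G hG fun N _ _ => ?_
  exact Nat.le_of_dvd Nat.card_pos N.index_dvd_card

end ind

end Pool.Agent.H373.PG
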