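import Pool.Agent.H373.PG.Grp2
import Pool.Agent.H373.PG.HP
import Pool.Agent.H373.PG.Alg

/-!
# The reduction to perfect groups
-/

set_option autoImplicit false
set_option linter.unusedSectionVars false
set_option linter.style.haveILetI false

open scoped BigOperators Classical

noncomputable section

namespace Pool.Agent.H373.PG

open SemidirectProduct
open Pool.Agent.K3h3.MK (NN)
open Pool.Agent.E8helper60.CQ (piAct)

variable {p : ℕ} [hp : Fact p.Prime] (Γ : Set (ℂ ≃+* ℂ)) (w : ℕ →* ℂ)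

/-- `Γ` fixes the roots of unity of order prime to `p` -/
def RF (p : ℕ) (Γ : Set (ℂ ≃+* ℂ)) : Prop :=
  ∀ σ ∈ Γ, ∀ m : ℕ, 0 < m → ¬ p ∣ m → ∀ ζ : ℂ, ζ ^ m = 1 → σ ζ = ζ

/-! ### the module -/

/-- a cyclic group of order `m` -/
abbrev CC (m : ℕ) : Type := Multiplicative (ZMod m)

theorem card_CC (m : ℕ) : Nat.card (CC m) = m := Nat.card_zmod m

theorem VV_dvd (Y : Type) [Group Y] [Fintype Y] (m : ℕ) [NeZero m] (hm : ¬ p ∣ m) :
    ¬ p ∣ Nat.card (VV Y (CC m)) := by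
  intro h
  have h1 := h.trans (Subgroup.card_subgroup_dvd_card (VV Y (CC m)))
  rw [Nat.card_fun, card_CC] at h1
  exact hm (hp.out.dvd_of_dvd_pow h1)

theorem VV_fix (hΓ : RF p Γ) (Y : Type) [Group Y] [Fintype Y] (m : ℕ) [NeZero m] (hm : ¬ p ∣ m) :
    ∀ θ : VV Y (CC m) →* ℂˣ, ∀ σ ∈ Γ, ∀ v, σ (θ v : ℂ) = (θ v : ℂ) := by
  intro θ σ hσ v
  refine hΓ σ hσ m (Nat.pos_of_ne_zero (NeZero.ne m)) hm _ ?_
  have h1 : v ^ m = 1 := by
    apply Subtype.ext
    funext y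
    change (v : Y → CC m) y ^ m = 1
    have h2 : (v : Y → CC m) y ^ Nat.card (CC m) = 1 := pow_card_eq_one'
    rwa [card_CC] at h2
  rw [← Units.val_pow_eq_pow_val, ← map_pow, h1, map_one, Units.val_one]

theorem CC_sq {m : ℕ} (hm : 3 ≤ m) : ∃ c : CC m, c ^ 2 ≠ 1 := by
  refine ⟨Multiplicative.ofAdd (1 : ZMod m), fun h => ?_⟩
  have h1 : ((2 : ℕ) : ZMod m) = 0 := by
    have h2 : Multiplicative.ofAdd ((2 : ℕ) • (1 : ZMod m)) = 1 := h
    rw [ofAdd_eq_one, nsmul_eq_mul, mul_one] at h2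
    exact h2
  rw [ZMod.natCast_eq_zero_iff] at h1
  have := Nat.le_of_dvd (by norm_num) h1
  omega

/-! ### the steps -/

theorem stepP (hw : ∀ n, w n = 0 ↔ p ∣ n) {T Ω G A C : Type} [Group T] [Fintype T] [Fintype Ω]
    [MulAction T Ω] [Group G] [Finite G] [CommGroup A] [Finite A] [CommGroup C] [Finite C]
    (f : G →* A) (P : Sylow p G) (hT : ¬ p ∣ Nat.card T) (hΩ : Nontrivial Ω)
    (hinj : Function.Injective (vact T C))
    (hV : IsPGroup p (VV T C) ∨ ¬ p ∣ Nat.card (VV T C))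
    (hΓ : ∀ θ : VV T C →* ℂˣ, ∀ σ ∈ Γ, ∀ v, σ (θ v : ℂ) = (θ v : ℂ))
    (H : ∀ k : ℕ, Good p Γ w ((Fin k → VV T C) ⋊[(piAct k (vact T C)).comp
      (pT (T := T) (Ω := Ω) f)] (WF f : WW T Ω G →* A).ker)) :
    wf Γ w (piF Ω f).ker = wf Γ w (piF Ω (f.comp (NN P).subtype)).ker := by
  haveI : Finite (WW T Ω G) := Finite.of_equiv _ equivProd.symm
  have h1 := thA Γ w hw (pT (T := T) (Ω := Ω) f) (pT_surj f) hT (vact T C) hinj hV hΓ H
  have h2 := good_congr Γ w (kerT f) h1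
  exact good_ker_pi Γ w f P h2 (Or.inl hΩ)

theorem stepR (hw : ∀ n, w n = 0 ↔ p ∣ n) {T Ω G A C : Type} [Group T] [Fintype T] [Fintype Ω]
    [MulAction T Ω] [Group G] [Finite G] [CommGroup A] [Finite A] [CommGroup C] [Finite C]
    (f : G →* A) (hf : Function.Surjective f) (P : Sylow p f.ker) (hT : ¬ p ∣ Nat.card T)
    (hA : ¬ p ∣ Nat.card A) [Fintype (WF (MonoidHom.id A) : WW T Ω A →* A).ker]
    (hinj : Function.Injective (vact (WF (MonoidHom.id A) : WW T Ω A →* A).ker C))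
    (hV : ¬ p ∣ Nat.card (VV (WF (MonoidHom.id A) : WW T Ω A →* A).ker C))
    (hΓ : ∀ θ : VV (WF (MonoidHom.id A) : WW T Ω A →* A).ker C →* ℂˣ, ∀ σ ∈ Γ, ∀ v,
      σ (θ v : ℂ) = (θ v : ℂ))
    (H : ∀ k : ℕ, Good p Γ w ((Fin k → VV (WF (MonoidHom.id A) : WW T Ω A →* A).ker C) ⋊[(piAct k
      (vact (WF (MonoidHom.id A) : WW T Ω A →* A).ker C)).comp
      (pA (T := T) (Ω := Ω) f)] (WF f : WW T Ω G →* A).ker)) :
    wf Γ w f.ker ^ Fintype.card Ω = wf Γ w (NN P) ^ Fintype.card Ω := by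
  haveI : Finite (WW T Ω G) := Finite.of_equiv _ equivProd.symm
  haveI : Finite (WW T Ω A) := Finite.of_equiv _ equivProd.symm
  have hY : ¬ p ∣ Nat.card (WF (MonoidHom.id A) : WW T Ω A →* A).ker := by
    intro h
    have h1 := h.trans (Subgroup.card_subgroup_dvd_card _)
    rw [SemidirectProduct.card, Nat.card_fun] at h1
    rcases (Nat.Prime.dvd_mul hp.out).mp h1 with h2 | h2
    · exact hA (hp.out.dvd_of_dvd_pow h2)
    · exact hT h2
  have h1 := thA Γ w hw (pA (T := T) (Ω := Ω) f) (pA_surj hf) hY _ hinj (Or.inr hV) hΓ H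
  have h2 := good_congr Γ w (kerA f) h1
  exact good_pow Γ w Ω P h2

end Pool.Agent.H373.PG
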