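import Pool.Agent.H373.PG.HP
import Pool.Agent.H373.PG.Grow
import Pool.Graph.R_pool_sql_team_seeded_b677cdb8.E8helper62.MG.Wre

/-!
# Numbers of characters of degree prime to `p` fixed up to linear factors
-/

set_option autoImplicit false
set_option linter.unusedSectionVars false
set_option linter.style.haveILetI false

open scoped BigOperators Classical

noncomputable section

namespace Pool.Agent.H373.PG

open Pool.Agent.Helper884 Pool.Agent.H254R3.IN SemidirectProduct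
open Pool.Agent.K3h3.KB (ndeg ndeg_eq ndeg_cast ndeg_pos exists_cj exists_mult cj_at_one cj_mem_M
  card_dual sum_dual dualFintype bt bt_irr bt_inj ndeg_bt)
open Pool.Agent.K3h3.MK (cover_pi)
open Pool.Agent.Q90.WR (irr_gal irr_of_norm B_nat)
open Pool.Agent.Y63.AWC (res mult mult_spec res_eq res_class cj cj_irr cj_mul cj_one cj_res mult_cj
  clifford sum_M)
open Pool.Agent.Y62 (tw tw_irr tw_one)
open Pool.Agent.E8helper62.MG (mult_gal)
open IC (Irr)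

/-- the weight `1` for the numbers prime to `p` and `0` for the other numbers -/
def w0 (p : ℕ) [hp : Fact p.Prime] : ℕ →* ℂ where
  toFun n := if p ∣ n then 0 else 1
  map_one' := if_neg fun h => hp.out.one_lt.ne' (Nat.dvd_one.mp h)
  map_mul' a b := by
    by_cases ha : p ∣ a
    · rw [if_pos ha, if_pos (Dvd.dvd.mul_right ha b), zero_mul]
    · by_cases hb : p ∣ b
      · rw [if_pos hb, if_pos (Dvd.dvd.mul_left hb a), mul_zero]
      · rw [if_neg ha, if_neg hb, if_neg, one_mul]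
        rw [hp.out.dvd_mul, not_or]
        exact ⟨ha, hb⟩

variable (p : ℕ) [hp : Fact p.Prime] (Γ : Set (ℂ ≃+* ℂ))

theorem w0_apply (n : ℕ) : w0 p n = if p ∣ n then 0 else 1 := rfl

theorem w0_zero (n : ℕ) : w0 p n = 0 ↔ p ∣ n := by
  rw [w0_apply]
  split_ifs with h
  · simp [h]
  · simp [h]

/-- the number of the irreducible characters of degree prime to `p` with the property `Q` -/
def cn {G : Type} [Group G] [Finite G] (Q : (G → ℂ) → Prop) : ℕ :=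
  letI := Fintype.ofFinite G
  ((Irr G).filter fun χ => ¬ p ∣ ndeg χ ∧ Q χ).card

omit hp in
theorem cn_eq {G : Type} [Group G] [i : Fintype G] (Q : (G → ℂ) → Prop) :
    cn p Q = ((Irr G).filter fun χ => ¬ p ∣ ndeg χ ∧ Q χ).card := by
  unfold cn
  have h : Fintype.ofFinite G = i := Subsingleton.elim _ _
  rw [h]

theorem cn_cast {G : Type} [Group G] [Fintype G] (Q : (G → ℂ) → Prop) :
    (cn p Q : ℂ) = ∑ χ ∈ (Irr G).filter Q, w0 p (ndeg χ) := by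
  rw [cn_eq]
  have h1 : ∀ χ ∈ (Irr G).filter Q, w0 p (ndeg χ) = if ¬ p ∣ ndeg χ then 1 else 0 := by
    intro χ _
    rw [w0_apply]
    split_ifs <;> simp_all
  rw [Finset.sum_congr rfl h1, Finset.sum_boole, Finset.filter_filter]
  congr 2
  refine Finset.filter_congr fun χ _ => and_comm

omit hp in
theorem cn_of {G : Type} [Group G] [Fintype G] {P Q : (G → ℂ) → Prop} [DecidablePred P]
    (h : ∀ χ, IsIrr χ → (P χ ↔ ¬ p ∣ ndeg χ ∧ Q χ)) : ((Irr G).filter P).card = cn p Q := by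
  rw [cn_eq]
  congr 1
  ext χ
  rw [Finset.mem_filter, Finset.mem_filter]
  exact and_congr_right fun h1 => h χ (mem_Irr.mp h1)

theorem cn_sum {G : Type} [Group G] [Fintype G] {P Q : (G → ℂ) → Prop} [DecidablePred P]
    (h : ∀ χ, IsIrr χ → (P χ ↔ Q χ)) :
    ∑ χ ∈ (Irr G).filter P, w0 p (ndeg χ) = (cn p Q : ℂ) := by
  rw [cn_cast]
  refine Finset.sum_congr ?_ fun _ _ => rfl
  ext χ
  rw [Finset.mem_filter, Finset.mem_filter]
  exact and_congr_right fun h1 => h χ (mem_Irr.mp h1)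

omit hp in
theorem cn_zero {G : Type} [Group G] [Finite G] {Q : (G → ℂ) → Prop}
    (h : ∀ χ, IsIrr χ → ¬ p ∣ ndeg χ → ¬ Q χ) : cn p Q = 0 := by
  haveI := Fintype.ofFinite G
  rw [cn_eq, Finset.card_eq_zero, Finset.filter_eq_empty_iff]
  rintro χ hχ ⟨h1, h2⟩
  exact h χ (mem_Irr.mp hχ) h1 h2

omit hp in
theorem cn_congr {G : Type} [Group G] [Finite G] {Q Q' : (G → ℂ) → Prop}
    (h : ∀ χ, IsIrr χ → ¬ p ∣ ndeg χ → (Q χ ↔ Q' χ)) : cn p Q = cn p Q' := by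
  haveI := Fintype.ofFinite G
  rw [cn_eq, cn_eq]
  congr 1
  refine Finset.filter_congr fun χ hχ => and_congr_right fun h1 => h χ (mem_Irr.mp hχ) h1

omit hp in
theorem cn_mono {G : Type} [Group G] [Finite G] {Q Q' : (G → ℂ) → Prop}
    (h : ∀ χ, IsIrr χ → ¬ p ∣ ndeg χ → Q χ → Q' χ) : cn p Q ≤ cn p Q' := by
  haveI := Fintype.ofFinite G
  rw [cn_eq, cn_eq]
  apply Finset.card_le_card
  intro χ hχ
  rw [Finset.mem_filter] at hχ ⊢
  exact ⟨hχ.1, hχ.2.1, h χ (mem_Irr.mp hχ.1) hχ.2.1 hχ.2.2⟩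

omit hp in
theorem cn_lt {G : Type} [Group G] [Finite G] {Q Q' : (G → ℂ) → Prop}
    (h : ∀ χ, IsIrr χ → ¬ p ∣ ndeg χ → Q χ → Q' χ)
    (h' : ∃ χ, IsIrr χ ∧ ¬ p ∣ ndeg χ ∧ Q' χ ∧ ¬ Q χ) : cn p Q < cn p Q' := by
  haveI := Fintype.ofFinite G
  rw [cn_eq, cn_eq]
  apply Finset.card_lt_card
  rw [Finset.ssubset_iff_of_subset]
  · obtain ⟨χ, h1, h2, h3, h4⟩ := h'
    refine ⟨χ, ?_, ?_⟩
    · rw [Finset.mem_filter, mem_Irr]
      exact ⟨h1, h2, h3⟩
    · rw [Finset.mem_filter]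
      exact fun h5 => h4 h5.2.2
  · intro χ hχ
    rw [Finset.mem_filter] at hχ ⊢
    exact ⟨hχ.1, hχ.2.1, h χ (mem_Irr.mp hχ.1) hχ.2.1 hχ.2.2⟩

theorem cn_pi {I G : Type} [Fintype I] [Group G] [Finite G] (Q : (G → ℂ) → Prop)
    (Q' : ((I → G) → ℂ) → Prop)
    (hQ : ∀ ψ : I → G → ℂ, (∀ i, IsIrr (ψ i)) → (Q' (bt ψ) ↔ ∀ i, Q (ψ i))) :
    cn p Q' = cn p Q ^ Fintype.card I := by
  haveI := Fintype.ofFinite G
  have h1 := sum_pi (w0 p) Q Q' hQ
  rw [← cn_cast, ← cn_cast] at h1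
  exact_mod_cast h1

/-- the number of the characters fixed by `Γ` of degree prime to `p` -/
def nf (G : Type) [Group G] [Finite G] : ℕ := cn p (fixd Γ : (G → ℂ) → Prop)

theorem wf_w0 (G : Type) [Group G] [Finite G] : wf Γ (w0 p) G = (nf p Γ G : ℂ) := by
  haveI := Fintype.ofFinite G
  unfold nf
  rw [wf_eq, cn_cast]

/-! ### types -/

/-- `χ` is multiplied by `u(σ)` by all `σ ∈ Γ` -/
def isty {X A : Type} [Group X] [CommGroup A] (f : X →* A) (u : (ℂ ≃+* ℂ) → (A →* ℂˣ))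
    (χ : X → ℂ) : Prop := ∀ σ ∈ Γ, ∀ g, σ (χ g) = (u σ (f g) : ℂ) * χ g

/-- `χ` is multiplied by linear characters of `A` by all `σ ∈ Γ` -/
def qf {X A : Type} [Group X] [CommGroup A] (f : X →* A) (χ : X → ℂ) : Prop :=
  ∀ σ ∈ Γ, ∃ l : A →* ℂˣ, ∀ g, σ (χ g) = (l (f g) : ℂ) * χ g

/-- the type of `χ` -/
def ty {X A : Type} [Group X] [CommGroup A] (f : X →* A) (χ : X → ℂ) :
    (ℂ ≃+* ℂ) → (A →* ℂˣ) := fun σ =>
  if h : σ ∈ Γ ∧ ∃ l : A →* ℂˣ, ∀ g, σ (χ g) = (l (f g) : ℂ) * χ g then h.2.choose else 1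

theorem ty_spec {X A : Type} [Group X] [CommGroup A] {f : X →* A} {χ : X → ℂ} (h : qf Γ f χ) :
    isty Γ f (ty Γ f χ) χ := by
  intro σ hσ
  have h1 : σ ∈ Γ ∧ ∃ l : A →* ℂˣ, ∀ g, σ (χ g) = (l (f g) : ℂ) * χ g := ⟨hσ, h σ hσ⟩
  unfold ty
  rw [dif_pos h1]
  exact h1.2.choose_spec

theorem ty_out {X A : Type} [Group X] [CommGroup A] {f : X →* A} {χ : X → ℂ} {σ : ℂ ≃+* ℂ}
    (h : σ ∉ Γ) : ty Γ f χ σ = 1 := by
  unfold ty
  rw [dif_neg fun h1 => h h1.1]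

theorem isty_qf {X A : Type} [Group X] [CommGroup A] {f : X →* A} {χ : X → ℂ}
    {u : (ℂ ≃+* ℂ) → (A →* ℂˣ)} (h : isty Γ f u χ) : qf Γ f χ := fun σ hσ => ⟨u σ, h σ hσ⟩

theorem isty_unique {X A : Type} [Group X] [Finite X] [CommGroup A] [Finite A] {f : X →* A}
    {χ : X → ℂ} (hfree : sb f χ = ⊥) {u v : (ℂ ≃+* ℂ) → (A →* ℂˣ)} (hu : isty Γ f u χ) (hv : isty Γ f v χ)
    (hu' : ∀ σ, σ ∉ Γ → u σ = 1) (hv' : ∀ σ, σ ∉ Γ → v σ = 1) : u = v := by
  haveI := Fintype.ofFinite X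
  haveI := Fintype.ofFinite A
  funext σ
  by_cases hσ : σ ∈ Γ
  · apply tw_inj f hfree
    funext g
    exact (hu σ hσ g).symm.trans (hv σ hσ g)
  · rw [hu' σ hσ, hv' σ hσ]

theorem isty_top {X A : Type} [Group X] [CommGroup A] {f : X →* A} {χ : X → ℂ}
    (htop : sb f χ = ⊤) (u : (ℂ ≃+* ℂ) → (A →* ℂˣ)) : isty Γ f u χ ↔ fixd Γ χ := by
  refine forall₂_congr fun σ _ => forall_congr' fun g => ?_
  have h1 : u σ ∈ sb f χ := by
    rw [htop]
    exact Subgroup.mem_top _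
  rw [h1 g]

theorem isty_bt {I G A : Type} [Fintype I] [Group G] [Fintype G] [CommGroup A] (f : G →* A)
    (u : (ℂ ≃+* ℂ) → (A →* ℂˣ)) {ψ : I → G → ℂ} (h : ∀ i, IsIrr (ψ i)) :
    isty Γ (piF I f) u (bt ψ) ↔ ∀ i, isty Γ f u (ψ i) := by
  have h2 : ∀ σ : ℂ ≃+* ℂ, bt (fun i => tw ((u σ).comp f) (ψ i)) =
      fun x => (u σ (piF I f x) : ℂ) * bt ψ x := by
    intro σ
    funext x
    unfold bt tw
    rw [Finset.prod_mul_distrib]
    congr 1
    rw [piF_apply, map_prod, Units.coe_prod]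
    rfl
  have h3 : ∀ σ : ℂ ≃+* ℂ, bt (fun i g => σ (ψ i g)) = fun x => σ (bt ψ x) := by
    intro σ
    funext x
    unfold bt
    rw [map_prod]
  constructor
  · intro h1 i σ hσ g
    have h4 : bt (fun i g => σ (ψ i g)) = bt (fun i => tw ((u σ).comp f) (ψ i)) := by
      rw [h2, h3]
      funext x
      exact h1 σ hσ x
    have h5 := bt_inj (fun i => irr_gal σ (h i)) (fun i => tw_irr _ (h i)) h4
    exact congrFun (congrFun h5 i) g
  · intro h1 σ hσ x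
    have h4 : bt (fun i g => σ (ψ i g)) = bt (fun i => tw ((u σ).comp f) (ψ i)) := by
      congr 1
      funext i g
      exact h1 i σ hσ g
    rw [h2, h3] at h4
    exact congrFun h4 x

/-- the number of the characters of type `u` -/
def xu {X A : Type} [Group X] [Finite X] [CommGroup A] (f : X →* A)
    (u : (ℂ ≃+* ℂ) → (A →* ℂˣ)) : ℕ := cn p (isty Γ f u)

/-- the number of the `Γ`-fixed characters fixed by all twists -/
def xl {X A : Type} [Group X] [Finite X] [CommGroup A] (f : X →* A) : ℕ :=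
  cn p (fun χ => sb f χ = ⊤ ∧ fixd Γ χ)

/-- the number of the free characters which have a type -/
def qn {X A : Type} [Group X] [Finite X] [CommGroup A] (f : X →* A) : ℕ :=
  cn p (fun χ => sb f χ = ⊥ ∧ qf Γ f χ)

/-- the types of the free characters -/
def UU {X A : Type} [Group X] [Finite X] [CommGroup A] (f : X →* A) :
    Finset ((ℂ ≃+* ℂ) → (A →* ℂˣ)) :=
  letI := Fintype.ofFinite X
  ((Irr X).filter fun χ => ¬ p ∣ ndeg χ ∧ sb f χ = ⊥ ∧ qf Γ f χ).image (ty Γ f)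

theorem mem_UU {X A : Type} [Group X] [Finite X] [CommGroup A] [Finite A] {f : X →* A}
    {u : (ℂ ≃+* ℂ) → (A →* ℂˣ)} : u ∈ UU p Γ f ↔
      (∀ σ, σ ∉ Γ → u σ = 1) ∧ ∃ χ, IsIrr χ ∧ ¬ p ∣ ndeg χ ∧ sb f χ = ⊥ ∧ isty Γ f u χ := by
  letI := Fintype.ofFinite X
  unfold UU
  rw [Finset.mem_image]
  constructor
  · rintro ⟨χ, hχ, rfl⟩
    rw [Finset.mem_filter, mem_Irr] at hχ
    exact ⟨fun σ hσ => ty_out Γ hσ, χ, hχ.1, hχ.2.1, hχ.2.2.1, ty_spec Γ hχ.2.2.2⟩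
  · rintro ⟨hu, χ, h1, h2, h3, h4⟩
    refine ⟨χ, ?_, ?_⟩
    · rw [Finset.mem_filter, mem_Irr]
      exact ⟨h1, h2, h3, isty_qf Γ h4⟩
    · exact isty_unique Γ h3 (ty_spec Γ (isty_qf Γ h4)) h4 (fun σ hσ => ty_out Γ hσ) hu

theorem xl_le {X A : Type} [Group X] [Finite X] [CommGroup A] (f : X →* A)
    (u : (ℂ ≃+* ℂ) → (A →* ℂˣ)) : xl p Γ f ≤ xu p Γ f u :=
  cn_mono p fun _ _ _ h => (isty_top Γ h.1 u).mpr h.2

theorem xu_pi {I G A : Type} [Fintype I] [Group G] [Finite G] [CommGroup A] (f : G →* A)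
    (u : (ℂ ≃+* ℂ) → (A →* ℂˣ)) : xu p Γ (piF I f) u = xu p Γ f u ^ Fintype.card I := by
  haveI := Fintype.ofFinite G
  exact cn_pi p (isty Γ f u) (isty Γ (piF I f) u) fun ψ h => isty_bt Γ f u h

theorem top_bt {I G A : Type} [Fintype I] [Group G] [Fintype G] [CommGroup A] (f : G →* A)
    {ψ : I → G → ℂ} (h : ∀ i, IsIrr (ψ i)) :
    sb (piF I f) (bt ψ) = ⊤ ↔ ∀ i, sb f (ψ i) = ⊤ := by
  constructor
  · intro h1 i
    rw [eq_top_iff]
    intro l _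
    have h2 : l ∈ sb (piF I f) (bt ψ) := by
      rw [h1]
      exact Subgroup.mem_top l
    exact (mem_sb_bt f h l).mp h2 i
  · intro h1
    rw [eq_top_iff]
    intro l _
    rw [mem_sb_bt f h l]
    intro i
    rw [h1 i]
    exact Subgroup.mem_top l

theorem xl_pi {I G A : Type} [Fintype I] [Group G] [Finite G] [CommGroup A] (f : G →* A) :
    xl p Γ (piF I f) = xl p Γ f ^ Fintype.card I := by
  haveI := Fintype.ofFinite G
  refine cn_pi p _ _ fun ψ h => ?_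
  rw [top_bt f h, fixd_bt Γ h, forall_and]

/-- a nontrivial group has nontrivial characters, so that a character is not free and fixed -/
theorem bot_ne_top {A : Type} [CommGroup A] [Finite A] (hA : (Nat.card A).Prime) :
    (⊥ : Subgroup (A →* ℂˣ)) ≠ ⊤ := by
  haveI := Fintype.ofFinite A
  intro h'
  have h4 : Nat.card (⊤ : Subgroup (A →* ℂˣ)) = Nat.card (⊥ : Subgroup (A →* ℂˣ)) := by
    rw [h']
  rw [Subgroup.card_top, Subgroup.card_bot, card_dual] at h4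
  exact hA.one_lt.ne' h4

/-- **the number of the free characters with a type, for direct powers** -/
theorem qn_pi {I G A : Type} [Fintype I] [Group G] [Finite G] [CommGroup A] [Finite A]
    (hA : (Nat.card A).Prime) (f : G →* A) :
    (qn p Γ (piF I f) : ℤ) = ∑ u ∈ UU p Γ f,
      ((xu p Γ f u : ℤ) ^ Fintype.card I - (xl p Γ f : ℤ) ^ Fintype.card I) := by
  haveI := Fintype.ofFinite G
  haveI := Fintype.ofFinite A
  have hmaps : Set.MapsTo (ty Γ (piF I f)) ((Irr (I → G)).filter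
      fun χ => ¬ p ∣ ndeg χ ∧ (sb (piF I f) χ = ⊥ ∧ qf Γ (piF I f) χ) : Finset _) (UU p Γ f) := by
    intro χ hχ
    rw [Finset.mem_coe, Finset.mem_filter, mem_Irr] at hχ
    obtain ⟨h1, h2, h3, h4⟩ := hχ
    obtain ⟨ψ, hψ, rfl⟩ := cover_pi h1
    have h5 : ∃ i, sb f (ψ i) = ⊥ := by
      by_contra hcon
      push Not at hcon
      have h6 : sb (piF I f) (bt ψ) = ⊤ :=
        (top_bt f hψ).mpr fun i => (sb_cases f hA (ψ i)).resolve_left (hcon i)
      rw [h3] at h6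
      exact bot_ne_top hA h6
    obtain ⟨i, hi⟩ := h5
    have h6 := ty_spec Γ h4
    rw [Finset.mem_coe, mem_UU]
    refine ⟨fun σ hσ => ty_out Γ hσ, ψ i, hψ i, ?_, hi, (isty_bt Γ f _ hψ).mp h6 i⟩
    intro h7
    apply h2
    rw [ndeg_bt hψ]
    exact h7.trans (Finset.dvd_prod_of_mem _ (Finset.mem_univ i))
  have h1 := Finset.card_eq_sum_card_fiberwise hmaps
  have h0 : qn p Γ (piF I f) = ((Irr (I → G)).filter
      fun χ => ¬ p ∣ ndeg χ ∧ (sb (piF I f) χ = ⊥ ∧ qf Γ (piF I f) χ)).card := by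
    unfold qn
    rw [cn_eq]
    congr
  rw [h0, h1]
  push_cast
  refine Finset.sum_congr rfl fun u hu => ?_
  have h2 : (((Irr (I → G)).filter fun χ => ¬ p ∣ ndeg χ ∧ sb (piF I f) χ = ⊥ ∧
      qf Γ (piF I f) χ).filter fun χ => ty Γ (piF I f) χ = u) =
      ((Irr (I → G)).filter fun χ => ¬ p ∣ ndeg χ ∧ isty Γ (piF I f) u χ) \
        ((Irr (I → G)).filter fun χ => ¬ p ∣ ndeg χ ∧ sb (piF I f) χ = ⊤ ∧ fixd Γ χ) := by
    ext χ
    simp only [Finset.mem_sdiff, Finset.mem_filter]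
    constructor
    · rintro ⟨⟨h3, h4, h5, h6⟩, rfl⟩
      refine ⟨⟨h3, h4, ty_spec Γ h6⟩, ?_⟩
      rintro ⟨-, -, h7, -⟩
      rw [h5] at h7
      exact bot_ne_top hA h7
    · rintro ⟨⟨h3, h4, h5⟩, h6⟩
      have h7 : sb (piF I f) χ = ⊥ := by
        refine (sb_cases _ hA χ).resolve_right fun h7 => h6 ⟨h3, h4, h7, (isty_top Γ h7 u).mp h5⟩
      refine ⟨⟨h3, h4, h7, isty_qf Γ h5⟩, ?_⟩
      exact isty_unique Γ h7 (ty_spec Γ (isty_qf Γ h5)) h5 (fun σ hσ => ty_out Γ hσ)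
        ((mem_UU p Γ).mp hu).1
  have e1 : ((Irr (I → G)).filter fun χ => ¬ p ∣ ndeg χ ∧ isty Γ (piF I f) u χ).card =
      xu p Γ (piF I f) u := (cn_eq p _).symm
  have e2 : ((Irr (I → G)).filter fun χ => ¬ p ∣ ndeg χ ∧ sb (piF I f) χ = ⊤ ∧ fixd Γ χ).card =
      xl p Γ (piF I f) := by
    unfold xl
    rw [cn_eq]
    congr
  rw [h2, Finset.card_sdiff_of_subset, Nat.cast_sub]
  · rw [e1, e2, xu_pi, xl_pi]
    push_cast
    rfl
  · rw [e1, e2]
    exact xl_le p Γ (piF I f) u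
  · intro χ hχ
    rw [Finset.mem_filter] at hχ ⊢
    exact ⟨hχ.1, hχ.2.1, (isty_top Γ hχ.2.2.1 u).mpr hχ.2.2.2⟩

end Pool.Agent.H373.PG
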