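import Pool.Agent.H373.PG.Aff
import Pool.Agent.H373.PG.Tex

/-!
# Equivariant bijections; automorphisms of odd order; groups whose abelian quotients are 2-groups
-/

set_option autoImplicit false
set_option linter.unusedSectionVars false
set_option linter.style.haveILetI false

open scoped BigOperators Classical

noncomputable section

namespace Pool.Agent.H373.PG

open SemidirectProduct
open Pool.Agent.Helper884 Pool.Agent.H254R3.IN
open Pool.Agent.K3h3.MK (NN)
open Pool.Agent.K3h3.KB (ndeg ndeg_eq ndeg_cast ndeg_pos)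
open Pool.Agent.E8helper60.CQ
open Pool.Agent.E8helper62.MG (XX nf_numF numF IrrP Hset equiv_closure fin_IrrP stable_IrrP numF_Fx
  kap kap_eq char_eq)
open Pool.Agent.Q259.BW (EquivBij Fx StableS bij_of_num num_of_bij finite_of_irr)
open IC (Irr)

variable {p : ℕ} [hp : Fact p.Prime]

/-- there are bijections `Irr_{p'}(G) → Irr_{p'}(N_G(P))` commuting with all `σ ∈ Γ` -/
def EM (p : ℕ) (Γ : Set (ℂ ≃+* ℂ)) (G : Type) [Group G] : Prop :=
  ∀ P : Sylow p G, EquivBij Γ (IrrP p G) (IrrP p (Subgroup.normalizer ((P : Subgroup G) : Set G)))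

theorem EM_iff (Γ : Set (ℂ ≃+* ℂ)) (G : Type) [Group G] [Finite G] :
    EM p Γ G ↔ ∀ Δ : Subgroup (ℂ ≃+* ℂ), Δ ≤ Subgroup.closure Γ → Gd p (Δ : Set (ℂ ≃+* ℂ)) G := by
  constructor
  · intro h Δ hΔ P
    have h1 := equiv_closure (fin_IrrP (p := p) G) (h P)
    have h2 := num_of_bij h1 (Δ := (Δ : Set (ℂ ≃+* ℂ))) hΔ
    rw [← numF_Fx, ← numF_Fx, ← nf_numF, ← nf_numF, nf_br, nf_br] at h2
    exact h2
  · intro h P
    have h4 : EquivBij (Subgroup.closure Γ : Set (ℂ ≃+* ℂ)) (IrrP p G)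
        (IrrP p (Subgroup.normalizer ((P : Subgroup G) : Set G))) := by
      refine bij_of_num (fin_IrrP G) (fin_IrrP _) (stable_IrrP _ G) (stable_IrrP _ _)
        fun Δ hΔ => ?_
      rw [← numF_Fx, ← numF_Fx, ← nf_numF, ← nf_numF, nf_br, nf_br]
      exact h Δ hΔ P
    obtain ⟨f, hf⟩ := h4
    exact ⟨f, fun σ hσ => hf σ (Subgroup.subset_closure hσ)⟩

/-! ### automorphisms acting with odd order on the roots of unity -/

theorem kap_of {n : ℕ} [NeZero n] {σ τ : ℂ ≃+* ℂ} (h : ∀ ζ : ℂ, ζ ^ n = 1 → σ ζ = τ ζ) :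
    kap n σ = kap n τ := by
  apply Units.ext
  symm
  refine modularCyclotomicCharacter'.unique' (L := ℂ) n σ 
    (c := ((Pool.Agent.E8helper62.MG.kap n τ : (ZMod (Nat.card {x // x ∈ rootsOfUnity n ℂ}))ˣ) :
      ZMod (Nat.card {x // x ∈ rootsOfUnity n ℂ}))) ?_
  intro t ht
  have h1 := modularCyclotomicCharacter'.spec' (L := ℂ) n τ ht
  have h2 : ((t : ℂˣ) : ℂ) ^ n = 1 := by
    rw [mem_rootsOfUnity] at ht
    rw [← Units.val_pow_eq_pow_val, ht, Units.val_one]
  rw [h _ h2]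
  exact h1

/-- the automorphisms acting with odd order on all groups of roots of unity -/
def OddA : Subgroup (ℂ ≃+* ℂ) where
  carrier := {σ | ∀ (n : ℕ) [NeZero n], ∃ m : ℕ, Odd m ∧ kap n σ ^ m = 1}
  one_mem' := fun n _ => ⟨1, odd_one, by rw [map_one, one_pow]⟩
  mul_mem' := by
    intro σ τ hσ hτ n _
    obtain ⟨a, ha, ha'⟩ := hσ n
    obtain ⟨b, hb, hb'⟩ := hτ n
    exact ⟨a * b, ha.mul hb, by
      rw [map_mul, mul_pow, pow_mul, ha', one_pow, one_mul, mul_comm a b, pow_mul, hb', one_pow]⟩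
  inv_mem' := by
    intro σ hσ n _
    obtain ⟨a, ha, ha'⟩ := hσ n
    exact ⟨a, ha, by rw [map_inv, inv_pow, ha', inv_one]⟩

theorem mem_OddA {σ : ℂ ≃+* ℂ} (h : ∀ n : ℕ, 0 < n → ∃ m : ℕ, Odd m ∧
    ∀ ζ : ℂ, ζ ^ n = 1 → (σ ^ m) ζ = ζ) : σ ∈ OddA := by
  intro n hn
  obtain ⟨m, hm, h1⟩ := h n (Nat.pos_of_ne_zero hn.out)
  refine ⟨m, hm, ?_⟩
  rw [← map_pow, ← map_one (kap n)]
  exact kap_of fun ζ hζ => h1 ζ hζ

theorem PR_odd {Γ : Set (ℂ ≃+* ℂ)} (h : Γ ⊆ (OddA : Set (ℂ ≃+* ℂ))) {r : ℕ} (hr : r.Prime) :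
    PR r Γ := by
  rcases hr.eq_two_or_odd' with h2 | h2
  · right
    refine ⟨h2, fun σ hσ G _ _ χ hχ => ?_⟩
    haveI : NeZero (Nat.card G) := ⟨Nat.card_pos.ne'⟩
    obtain ⟨m, hm, h1⟩ := h hσ (Nat.card G)
    refine ⟨m, hm, fun g => ?_⟩
    rw [← map_pow, ← map_one (kap (Nat.card G))] at h1
    exact char_eq hχ dvd_rfl h1 g
  · exact Or.inl h2

/-! ### groups without quotients of prime order with the property `Q` -/

/-- there are no quotients of prime order with the property `Q` -/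
def TP (Q : ℕ → Prop) (G : Type) [Group G] : Prop :=
  ∀ (A : Type) [CommGroup A] [Finite A] (f : G →* A), Function.Surjective f →
    (Nat.card A).Prime → ¬ Q (Nat.card A)

theorem TP.triv {Q : ℕ → Prop} {G : Type} [Group G] (h : TP Q G) (A : Type) [CommGroup A]
    [Finite A] (hA : (Nat.card A).Prime) (hQ : Q (Nat.card A)) (τ : G →* A) : τ = 1 := by
  haveI : Fact (Nat.card A).Prime := ⟨hA⟩
  rcases Subgroup.eq_bot_or_eq_top_of_prime_card τ.range with h1 | h1
  · exact MonoidHom.range_eq_bot_iff.mp h1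
  · exact absurd hQ (h A τ (MonoidHom.range_eq_top.mp h1) hA)

/-- there are no invariant homomorphisms to `M` -/
theorem no_inv3 {Y C : Type} [Group Y] [Fintype Y] [CommGroup C]
    (M : Type) [CommGroup M] (hY : ∀ τ : Y →* M, τ = 1)
    (ρ : VV Y C →* M) (hρ : ∀ (y : Y) (v : VV Y C), ρ (vact Y C y v) = ρ v) : ρ = 1 := by
  have hdd : ∀ (c : C) (ω ω' : Y), ρ (dd (MonoidHom.id C) c ω ω') = 1 := by
    intro c ω ω'
    have h2 : ρ (dd (MonoidHom.id C) c ω ω') =
        phiD (MonoidHom.id C) ρ hρ c ω (ω' * ω⁻¹) := by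
      change _ = ρ (dd (MonoidHom.id C) c ω ((ω' * ω⁻¹) • ω))
      rw [smul_eq_mul, inv_mul_cancel_right]
    rw [h2, hY (phiD (MonoidHom.id C) ρ hρ c ω)]
    rfl
  ext b
  obtain ⟨c, hc⟩ := rho_reduce (MonoidHom.id C) ρ hdd 1 b
  rw [hc]
  have h1 : c = 1 := Subtype.ext c.2
  rw [h1, map_one, map_one]
  rfl

theorem TP_sd {Q : ℕ → Prop} {G C : Type} [Group G] [Fintype G] [CommGroup C] (h : TP Q G)
    (n : ℕ) : TP Q ((Fin n → VV G C) ⋊[piAct n (vact G C)] G) := by
  intro A _ _ ρ hρ hA hQ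
  have hY := h.triv A hA hQ
  have h1 : ∀ v : Fin n → VV G C, ρ (inl v) = 1 := by
    intro v
    have h2 : ∀ i : Fin n, (ρ.comp (inl.comp (MonoidHom.mulSingle (fun _ => VV G C) i)) :
        VV G C →* A) = 1 := by
      intro i
      apply no_inv3 A hY
      intro y u
      have h3 : (Pi.mulSingle i (vact G C y u) : Fin n → VV G C) =
          (piAct n (vact G C)) y (Pi.mulSingle i u) := by
        funext j
        change Pi.mulSingle (M := fun _ => VV G C) i (vact G C y u) j =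
          vact G C y (Pi.mulSingle (M := fun _ => VV G C) i u j)
        by_cases hj : j = i
        · subst hj
          rw [Pi.mulSingle_eq_same, Pi.mulSingle_eq_same]
        · rw [Pi.mulSingle_eq_of_ne hj, Pi.mulSingle_eq_of_ne hj, map_one]
      change ρ (inl (Pi.mulSingle i (vact G C y u))) = ρ (inl (Pi.mulSingle i u))
      rw [h3, inl_aut, map_mul, map_mul, mul_right_comm, ← map_mul ρ (inr y), ← map_mul inr,
        mul_inv_cancel, map_one, map_one, one_mul]
    have h4 : v = ∏ i, Pi.mulSingle i (v i) := (Finset.univ_prod_mulSingle v).symm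
    change (ρ.comp inl) v = 1
    rw [h4, map_prod]
    refine Finset.prod_eq_one fun i _ => ?_
    exact DFunLike.congr_fun (h2 i) (v i)
  refine h A (ρ.comp inr) ?_ hA hQ
  intro m
  obtain ⟨x, rfl⟩ := hρ m
  refine ⟨x.right, ?_⟩
  change ρ (inr x.right) = ρ x
  conv_rhs => rw [← inl_left_mul_inr_right x, map_mul, h1, one_mul]

theorem TP_true {G : Type} [Group G] [Finite G] (h : TP (fun _ => True) G) : commutator G = ⊤ := by
  by_contra hc
  obtain ⟨A, _, _, f, hf, hA⟩ := exists_prime_quot hc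
  exact h A f hf hA trivial

theorem TP_odd {G : Type} [Group G] [Finite G] (h : TP Odd G) :
    ∃ k : ℕ, (commutator G).index = 2 ^ k := by
  have key : ∀ ℓ : ℕ, ℓ.Prime → ℓ ∣ (commutator G).index → ℓ = 2 := by
    intro ℓ hℓ hdvd
    by_contra hne
    haveI : Fact ℓ.Prime := ⟨hℓ⟩
    have hB : Nat.card (Abelianization G) = (commutator G).index := rfl
    haveI : Finite (Abelianization G) := inferInstance
    obtain ⟨a, m, hm, hcard⟩ := Nat.exists_eq_pow_mul_and_not_dvd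
      (n := Nat.card (Abelianization G)) Nat.card_pos.ne' ℓ hℓ.ne_one
    let pm : Abelianization G →* Abelianization G := powMonoidHom m
    have hR : IsPGroup ℓ pm.range := by
      rintro ⟨_, x, rfl⟩
      refine ⟨a, ?_⟩
      apply Subtype.ext
      change (x ^ m) ^ ℓ ^ a = 1
      rw [← pow_mul, mul_comm, ← hcard, pow_card_eq_one']
    have hnt : Nontrivial pm.range := by
      obtain ⟨x, hx⟩ := exists_prime_orderOf_dvd_card' ℓ (hB ▸ hdvd : ℓ ∣ Nat.card (Abelianization G))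
      refine ⟨⟨⟨x ^ m, x, rfl⟩, 1, ?_⟩⟩
      intro h1
      have h2 : x ^ m = 1 := congrArg Subtype.val h1
      rw [← orderOf_dvd_iff_pow_eq_one, hx] at h2
      exact hm h2
    have hc : commutator pm.range ≠ ⊤ := by
      intro h1
      have h2 := perfect_hom h1 pm.range (MonoidHom.id _)
      obtain ⟨x, hx⟩ := exists_ne (1 : pm.range)
      exact hx (DFunLike.congr_fun h2 x)
    obtain ⟨A, _, _, f, hf, hA⟩ := exists_prime_quot hc
    have h1 : Nat.card A = ℓ := by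
      have h2 : IsPGroup ℓ A := hR.of_surjective f hf
      obtain ⟨k, hk⟩ := IsPGroup.iff_card.mp h2
      have h3 : Nat.card A ∣ ℓ := hA.dvd_of_dvd_pow (dvd_of_eq hk)
      exact (Nat.prime_dvd_prime_iff_eq hA hℓ).mp h3
    refine h A (f.comp (pm.rangeRestrict.comp Abelianization.of)) ?_ hA ?_
    · refine hf.comp (pm.rangeRestrict_surjective.comp ?_)
      exact fun x => QuotientGroup.mk_surjective x
    · rw [h1]
      exact hℓ.odd_of_ne_two hne
  have hpos : (commutator G).index ≠ 0 := Subgroup.index_ne_zero_of_finite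
  exact ⟨_, Nat.eq_prime_pow_of_unique_prime_dvd hpos fun {d} hd hd' => key d hd hd'⟩

/-- groups of order prime to `p` -/
theorem Gd_prime (Γ : Set (ℂ ≃+* ℂ)) (G : Type) [Group G] [Finite G] (h : ¬ p ∣ Nat.card G) :
    Gd p Γ G := by
  intro P
  have h1 : (P : Subgroup G) = ⊥ := by
    obtain ⟨k, hk⟩ := IsPGroup.iff_card.mp P.isPGroup'
    have h2 : Nat.card (P : Subgroup G) ∣ Nat.card G := Subgroup.card_subgroup_dvd_card _
    have h3 : k = 0 := by
      by_contra h4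
      exact h ((dvd_pow_self p h4).trans (hk ▸ h2))
    rw [h3, pow_zero] at hk
    exact Subgroup.card_eq_one.mp hk
  have h2 : NN P = ⊤ := by
    change Subgroup.normalizer ((P : Subgroup G) : Set G) = ⊤
    rw [h1]
    exact Subgroup.normalizer_eq_top ⊥
  have h3 := wf_congr Γ (w0 p) ((MulEquiv.subgroupCongr h2).trans Subgroup.topEquiv)
  rw [wf_w0, wf_w0, Nat.cast_inj] at h3
  exact h3.symm

/-- the class `𝒢` is also closed under extensions by abelian normal subgroups of exponent `q` -/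
structure Cl3 (p q : ℕ) (𝒢 : (G : Type) → [Group G] → Prop) : Prop extends Cl2 p 𝒢 where
  downq : ∀ {G H : Type} [Group G] [Group H] [Finite G] (π : G →* H), Function.Surjective π →
    (∀ a ∈ π.ker, ∀ b ∈ π.ker, a * b = b * a) → (∀ a ∈ π.ker, a ^ q = 1) → 𝒢 H → 𝒢 G

/-- **affine groups suffice** -/
theorem base_aff {q : ℕ} (hq : q.Prime) (hp2 : p ≠ 2) (h : ℕ → ℕ) {Q : ℕ → Prop}
    {𝒢 : (G : Type) → [Group G] → Prop} (h𝒢 : Cl3 p q 𝒢) (Γ : Set (ℂ ≃+* ℂ))
    (H : ∀ (G : Type) [Group G] [Finite G], 𝒢 G → IsAffine q h G → TP Q G → Gd p Γ G)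
    (G : Type) [Group G] [Finite G] (hG : 𝒢 G) (hT : TP Q G) : Gd p Γ G := by
  haveI := Fintype.ofFinite G
  haveI : NeZero q := ⟨hq.ne_zero⟩
  haveI : Finite (CC q) := inferInstanceAs (Finite (Multiplicative (ZMod q)))
  by_cases hc : 3 ≤ Fintype.card G
  · rw [← Gd_closure]
    have hV : IsPGroup p (VV G (CC q)) ∨ ¬ p ∣ Nat.card (VV G (CC q)) := by
      by_cases hpq : p = q
      · left
        subst hpq
        intro v
        refine ⟨1, ?_⟩
        rw [pow_one]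
        apply Subtype.ext
        funext y
        change (v : G → CC p) y ^ p = 1
        have h2 : (v : G → CC p) y ^ Nat.card (CC p) = 1 := pow_card_eq_one'
        rwa [card_CC] at h2
      · right
        exact VV_dvd G q fun h1 => hpq ((Nat.prime_dvd_prime_iff_eq hp.out hq).mp h1)
    refine aff_step (Subgroup.closure Γ) (vact G (CC q)) hV (max 1 (h (Nat.card G))) ?_
    intro n hn
    rw [Gd_closure]
    refine H _ ?_ (affine_sd hq h hc n ((le_max_left _ _).trans hn) ((le_max_right _ _).trans hn))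
      (TP_sd hT n)
    refine h𝒢.downq (rightHom : (Fin n → VV G (CC q)) ⋊[piAct n (vact G (CC q))] G →* G)
      rightHom_surjective ?_ ?_ hG
    · intro a ha b hb
      have h1 : (⟨a, ha⟩ * ⟨b, hb⟩ :
          (rightHom : (Fin n → VV G (CC q)) ⋊[piAct n (vact G (CC q))] G →* G).ker) =
          ⟨b, hb⟩ * ⟨a, ha⟩ := by
        apply (kerR (piAct n (vact G (CC q)))).injective
        rw [map_mul, map_mul, mul_comm]
      exact congrArg Subtype.val h1
    · intro a ha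
      have h1 : (⟨a, ha⟩ ^ q :
          (rightHom : (Fin n → VV G (CC q)) ⋊[piAct n (vact G (CC q))] G →* G).ker) = 1 := by
        apply (kerR (piAct n (vact G (CC q)))).injective
        rw [map_pow, map_one]
        funext i
        apply Subtype.ext
        funext y
        change ((kerR (piAct n (vact G (CC q))) ⟨a, ha⟩ i : VV G (CC q)) : G → CC q) y ^ q = 1
        have h2 : ((kerR (piAct n (vact G (CC q))) ⟨a, ha⟩ i : VV G (CC q)) : G → CC q) y ^
          Nat.card (CC q) = 1 := pow_card_eq_one'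
        rwa [card_CC] at h2
      exact congrArg Subtype.val h1
  · apply Gd_prime
    rw [Nat.card_eq_fintype_card]
    intro h1
    have h2 := Nat.le_of_dvd Fintype.card_pos h1
    have h3 := hp.out.two_le
    omega

theorem TH_CC4 : TH Odd (CC 4) := by
  intro M _ _ hM τ
  refine MonoidHom.ext fun x => ?_
  have h1 : τ x ^ 4 = 1 := by
    have h2 : x ^ Nat.card (CC 4) = 1 := pow_card_eq_one'
    rw [card_CC] at h2
    rw [← map_pow, h2, map_one]
  have h2 : τ x ^ Nat.card M = 1 := pow_card_eq_one'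
  have h3 : Nat.Coprime 4 (Nat.card M) := by
    have : Nat.Coprime (2 ^ 2) (Nat.card M) := Nat.Coprime.pow_left 2 (Nat.coprime_two_left.mpr hM)
    exact this
  have h4 := Nat.dvd_gcd (orderOf_dvd_of_pow_eq_one h1) (orderOf_dvd_of_pow_eq_one h2)
  rw [h3.gcd_eq_one] at h4
  exact orderOf_eq_one_iff.mp (Nat.dvd_one.mp h4)

/-- **(A)** -/
theorem mainA {q : ℕ} (hq : q.Prime) (hp2 : p ≠ 2) (h : ℕ → ℕ)
    {𝒢 : (G : Type) → [Group G] → Prop} (h𝒢 : Cl3 p q 𝒢) (Γ : Set (ℂ ≃+* ℂ))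
    (H : ∀ (G : Type) [Group G] [Finite G], 𝒢 G → IsAffine q h G →
      (∃ k : ℕ, (commutator G).index = 2 ^ k) → EM p Γ G)
    (G : Type) [Group G] [Finite G] (hG : 𝒢 G) : EM p Γ G := by
  rw [EM_iff]
  intro Δ hΔ
  haveI : Finite (CC 4) := inferInstanceAs (Finite (Multiplicative (ZMod 4)))
  refine reduction3 (Q := Odd) (T := CC 4) (Δ : Set (ℂ ≃+* ℂ)) hp2
    (fun m d hm hd => Odd.of_dvd_nat hm hd)
    (fun r j m _ hr hj hm => (hr.mul hj).mul hm) (fun r _ hr => Or.inl hr) TH_CC4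
    (by rw [card_CC]; norm_num) ?_ h𝒢.toCl2 ?_ G hG
  · rw [card_CC]
    intro h1
    have h2 : p ∣ 2 ^ 2 := h1
    exact two_ndvd hp2 (hp.out.dvd_of_dvd_pow h2)
  · intro G _ _ hG hT
    refine base_aff hq hp2 h h𝒢 (Q := Odd) _ ?_ G hG hT
    intro G _ _ hG hA hT
    exact (EM_iff Γ G).mp (H G hG hA (TP_odd hT)) Δ hΔ

/-- **(B)** -/
theorem mainB {q : ℕ} (hq : q.Prime) (hp5 : 5 ≤ p) (h : ℕ → ℕ)
    {𝒢 : (G : Type) → [Group G] → Prop} (h𝒢 : Cl3 p q 𝒢) (Γ : Set (ℂ ≃+* ℂ))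
    (hΓ : ∀ σ ∈ Γ, ∀ n : ℕ, 0 < n → ∃ m : ℕ, Odd m ∧ ∀ ζ : ℂ, ζ ^ n = 1 → (σ ^ m) ζ = ζ)
    (H : ∀ (G : Type) [Group G] [Finite G], 𝒢 G → IsAffine q h G →
      commutator G = ⊤ → EM p Γ G)
    (G : Type) [Group G] [Finite G] (hG : 𝒢 G) : EM p Γ G := by
  have hp2 : p ≠ 2 := by omega
  rw [EM_iff]
  intro Δ hΔ
  have hΔ' : (Δ : Set (ℂ ≃+* ℂ)) ⊆ (OddA : Set (ℂ ≃+* ℂ)) := by
    intro σ hσ
    have h1 : Subgroup.closure Γ ≤ OddA := by
      rw [Subgroup.closure_le]
      exact fun τ hτ => mem_OddA (hΓ τ hτ)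
    exact h1 (hΔ hσ)
  obtain ⟨T, _, _, _, hT, hTp⟩ := exists_T hp.out hp5
  have hT3 : 3 ≤ Nat.card T := by
    obtain ⟨ℓ, hℓ, hd⟩ := Nat.exists_prime_and_dvd (Finite.one_lt_card (α := T)).ne'
    haveI : Fact ℓ.Prime := ⟨hℓ⟩
    exact (three_le_index hT hℓ (default : Sylow ℓ T)).trans
      (Nat.le_of_dvd Nat.card_pos (Subgroup.index_dvd_card _))
  refine reduction3 (Q := fun _ => True) (T := T) (Δ : Set (ℂ ≃+* ℂ)) hp2
    (fun m d hm hd => trivial)
    (fun r j m _ hr hj hm => trivial) (fun r hr _ => PR_odd hΔ' hr)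
    (fun M _ _ _ τ => perfect_hom hT M τ) hT3 hTp h𝒢.toCl2 ?_ G hG
  intro G _ _ hG hT
  refine base_aff hq hp2 h h𝒢 (Q := fun _ => True) _ ?_ G hG hT
  intro G _ _ hG hA hT
  exact (EM_iff Γ G).mp (H G hG hA (TP_true hT)) Δ hΔ

end Pool.Agent.H373.PG
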