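import Pool.Agent.H373.PG.Wf
import Pool.Graph.R_pool_sql_team_seeded_b677cdb8.E8helper8.CQ.PI

/-!
# Normal subgroups of `p'`-index

If `π : X → Y` is surjective, `Y` is a `p'`-group and `V` a faithful finite abelian `Y`-group and the
weighted numbers agree for `V ^ k ⋊ X` for all `k`, then they agree for the kernel of `π`.
-/

set_option autoImplicit false
set_option linter.unusedSectionVars false
set_option linter.style.haveILetI false

open scoped BigOperators Classical

noncomputable section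

namespace Pool.Agent.H373.PG

open Pool.Agent.Helper884 Pool.Agent.H254R3.IN SemidirectProduct
open Pool.Agent.Q90.WR (irr_comp irr_comp_iff norm_equiv)
open Pool.Agent.K3h3.KB (ndeg ndeg_eq ndeg_cast ndeg_pos)
open Pool.Agent.K3h3.MK (NN)
open IC (Irr)
open Pool.Agent.E8helper60.CQ

/-! ### isolating the free orbits -/

/-- if the sums of `c(⋂ S(x_i))` over all `x ∈ Λ ^ k` vanish for all `k`, then `c(1) = 0` -/
theorem isolate {Λ Y : Type} [Fintype Λ] [Nonempty Λ] [Group Y] [Finite Y] (S : Λ → Subgroup Y)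
    (c : Subgroup Y → ℂ) (h : ∀ y : Y, y ≠ 1 → ∃ x, y ∉ S x)
    (h0 : ∀ k : ℕ, ∑ x : Fin k → Λ, c (⨅ i, S (x i)) = 0) : c ⊥ = 0 := by
  haveI := Fintype.ofFinite Y
  haveI := Fintype.ofFinite (Subgroup Y)
  set n := Fintype.card Λ with hn
  have hn1 : 1 ≤ n := Fintype.card_pos
  have hn1' : (1 : ℝ) ≤ n := by exact_mod_cast hn1
  -- bound
  obtain ⟨C, hC0, hC⟩ : ∃ C : ℝ, 0 ≤ C ∧ ∀ T : Subgroup Y, ‖c T - c ⊥‖ ≤ C := by
    refine ⟨∑ T : Subgroup Y, ‖c T - c ⊥‖, Finset.sum_nonneg fun _ _ => norm_nonneg _, fun T => ?_⟩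
    exact Finset.single_le_sum (f := fun T => ‖c T - c ⊥‖) (fun _ _ => norm_nonneg _)
      (Finset.mem_univ T)
  -- the number of the tuples with a nontrivial intersection
  have hbad : ∀ k : ℕ, ((Finset.univ.filter fun x : Fin k → Λ => (⨅ i, S (x i)) ≠ ⊥).card : ℝ) ≤
      (Fintype.card Y : ℝ) * ((n : ℝ) - 1) ^ k := by
    intro k
    have h1 : (Finset.univ.filter fun x : Fin k → Λ => (⨅ i, S (x i)) ≠ ⊥) ⊆
        (Finset.univ.filter fun y : Y => y ≠ 1).biUnion
          fun y => Fintype.piFinset fun _ : Fin k => Finset.univ.filter fun l => y ∈ S l := by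
      intro x hx
      rw [Finset.mem_filter] at hx
      obtain ⟨y, hy⟩ := (Subgroup.ne_bot_iff_exists_ne_one.mp hx.2)
      rw [Finset.mem_biUnion]
      refine ⟨y, ?_, ?_⟩
      · rw [Finset.mem_filter]
        exact ⟨Finset.mem_univ _, fun h => hy (Subtype.ext h)⟩
      · rw [Fintype.mem_piFinset]
        intro i
        rw [Finset.mem_filter]
        exact ⟨Finset.mem_univ _, (Subgroup.mem_iInf.mp y.2) i⟩
    have h2 := (Finset.card_le_card h1).trans Finset.card_biUnion_le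
    have h3 : ∀ y ∈ (Finset.univ.filter fun y : Y => y ≠ 1),
        ((Fintype.piFinset fun _ : Fin k => Finset.univ.filter fun l => y ∈ S l).card : ℝ) ≤
          ((n : ℝ) - 1) ^ k := by
      intro y hy
      rw [Finset.mem_filter] at hy
      obtain ⟨x, hx⟩ := h y hy.2
      have h4 : (Finset.univ.filter fun l => y ∈ S l).card + 1 ≤ n := by
        rw [hn, ← Finset.card_univ, Nat.succ_le_iff]
        refine Finset.card_lt_card ?_
        rw [Finset.ssubset_univ_iff]
        intro h5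
        have := Finset.mem_univ x
        rw [← h5, Finset.mem_filter] at this
        exact hx this.2
      rw [Fintype.card_piFinset_const]
      push_cast
      refine pow_le_pow_left₀ (by positivity) ?_ k
      have : ((Finset.univ.filter fun l => y ∈ S l).card : ℝ) + 1 ≤ n := by exact_mod_cast h4
      linarith
    have h5 : ((∑ y ∈ (Finset.univ.filter fun y : Y => y ≠ 1),
        (Fintype.piFinset fun _ : Fin k => Finset.univ.filter fun l => y ∈ S l).card : ℕ) : ℝ) ≤
        ∑ _y ∈ (Finset.univ.filter fun y : Y => y ≠ 1), ((n : ℝ) - 1) ^ k := by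
      push_cast
      exact Finset.sum_le_sum h3
    have h6 : ((Finset.univ.filter fun x : Fin k → Λ => (⨅ i, S (x i)) ≠ ⊥).card : ℝ) ≤
        ((∑ y ∈ (Finset.univ.filter fun y : Y => y ≠ 1),
        (Fintype.piFinset fun _ : Fin k => Finset.univ.filter fun l => y ∈ S l).card : ℕ) : ℝ) := by
      exact_mod_cast h2
    refine (h6.trans h5).trans ?_
    rw [Finset.sum_const, nsmul_eq_mul]
    refine mul_le_mul_of_nonneg_right ?_ (pow_nonneg (by linarith) _)
    exact_mod_cast (Finset.card_filter_le _ _).trans (le_of_eq Finset.card_univ)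
  have hmain : ∀ k : ℕ, (n : ℝ) ^ k * ‖c ⊥‖ ≤ C * ((Fintype.card Y : ℝ) * ((n : ℝ) - 1) ^ k) := by
    intro k
    have h1 : ∑ x : Fin k → Λ, (c (⨅ i, S (x i)) - c ⊥) = -((n : ℂ) ^ k * c ⊥) := by
      rw [Finset.sum_sub_distrib, h0 k, Finset.sum_const, Finset.card_univ, Fintype.card_fun,
        Fintype.card_fin, nsmul_eq_mul, zero_sub]
      push_cast
      rfl
    have h2 : (n : ℝ) ^ k * ‖c ⊥‖ = ‖∑ x : Fin k → Λ, (c (⨅ i, S (x i)) - c ⊥)‖ := by
      rw [h1, norm_neg, norm_mul, norm_pow, Complex.norm_natCast]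
    rw [h2]
    calc ‖∑ x : Fin k → Λ, (c (⨅ i, S (x i)) - c ⊥)‖
        = ‖∑ x ∈ Finset.univ.filter (fun x : Fin k → Λ => (⨅ i, S (x i)) ≠ ⊥),
            (c (⨅ i, S (x i)) - c ⊥)‖ := by
          congr 1
          rw [Finset.sum_filter]
          refine Finset.sum_congr rfl fun x _ => ?_
          split_ifs with h
          · rfl
          · push Not at h
            rw [h, sub_self]
      _ ≤ ∑ x ∈ Finset.univ.filter (fun x : Fin k → Λ => (⨅ i, S (x i)) ≠ ⊥), C :=
          (norm_sum_le _ _).trans (Finset.sum_le_sum fun x _ => hC _)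
      _ = C * ((Finset.univ.filter fun x : Fin k → Λ => (⨅ i, S (x i)) ≠ ⊥).card : ℝ) := by
          rw [Finset.sum_const, nsmul_eq_mul, mul_comm]
      _ ≤ _ := mul_le_mul_of_nonneg_left (hbad k) hC0
  by_contra hne
  have hpos : 0 < ‖c ⊥‖ := norm_pos_iff.mpr hne
  have hn0 : (0 : ℝ) < n := by linarith
  have hr : ((n : ℝ) - 1) / n < 1 := by
    rw [div_lt_one hn0]
    linarith
  have hr0 : 0 ≤ ((n : ℝ) - 1) / n := div_nonneg (by linarith) hn0.le
  have hlim : Filter.Tendsto (fun k : ℕ => C * (Fintype.card Y : ℝ) * (((n : ℝ) - 1) / n) ^ k)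
      Filter.atTop (nhds (C * (Fintype.card Y : ℝ) * 0)) :=
    (tendsto_pow_atTop_nhds_zero_of_lt_one hr0 hr).const_mul _
  rw [mul_zero] at hlim
  have hle : ∀ k : ℕ, ‖c ⊥‖ ≤ C * (Fintype.card Y : ℝ) * (((n : ℝ) - 1) / n) ^ k := by
    intro k
    have h1 := hmain k
    have h2 : (0 : ℝ) < (n : ℝ) ^ k := pow_pos hn0 k
    rw [div_pow, ← mul_div_assoc, le_div_iff₀ h2]
    linarith
  have := ge_of_tendsto' hlim hle
  linarith

/-! ### the normalizers -/

section nn

variable {p : ℕ} [hp : Fact p.Prime] (Γ : Set (ℂ ≃+* ℂ)) (w : ℕ →* ℂ)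

theorem wf_NN {G : Type} [Group G] [Finite G] (P Q : Sylow p G) :
    wf Γ w (NN P) = wf Γ w (NN Q) := by
  obtain ⟨e⟩ := norm_equiv P Q
  exact wf_congr Γ w e

/-- the weighted numbers of `G` and of the normalizers of the Sylow `p`-subgroups agree -/
def Good (p : ℕ) [Fact p.Prime] (Γ : Set (ℂ ≃+* ℂ)) (w : ℕ →* ℂ) (G : Type) [Group G]
    [Finite G] : Prop :=
  ∀ P : Sylow p G, wf Γ w G = wf Γ w (NN P)

theorem good_of {G : Type} [Group G] [Finite G] (P : Sylow p G) (h : wf Γ w G = wf Γ w (NN P)) :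
    Good p Γ w G := fun Q => h.trans (wf_NN Γ w P Q)

/-- an isomorphism maps the normalizer of a Sylow subgroup onto the normalizer of a Sylow subgroup -/
theorem exists_NN_iso {G H : Type} [Group G] [Group H] [Finite G] [Finite H] (e : G ≃* H)
    (P : Sylow p G) : ∃ Q : Sylow p H, Nonempty (NN P ≃* NN Q) := by
  have h1 : Nat.card ((P : Subgroup G).map e.toMonoidHom) = p ^ (Nat.card H).factorization p := by
    rw [← Nat.card_congr e.toEquiv, ← P.card_eq_multiplicity]
    exact (Nat.card_congr (e.subgroupMap (P : Subgroup G)).toEquiv).symm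
  refine ⟨Sylow.ofCard _ h1, ?_⟩
  have h2 : (NN P).map e.toMonoidHom = NN (Sylow.ofCard ((P : Subgroup G).map e.toMonoidHom) h1) :=
    Subgroup.map_equiv_normalizer_eq (P : Subgroup G) e
  rw [← h2]
  exact ⟨e.subgroupMap _⟩

theorem good_congr {G H : Type} [Group G] [Group H] [Finite G] [Finite H] (e : G ≃* H)
    (h : Good p Γ w G) : Good p Γ w H := by
  obtain ⟨Q, ⟨f⟩⟩ := exists_NN_iso e (default : Sylow p G)
  refine good_of Γ w Q ?_
  rw [← wf_congr Γ w e, h default, wf_congr Γ w f]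

/-- the normalizer of a Sylow subgroup of a normal subgroup which contains the Sylow subgroups -/
theorem exists_NN_ker {X Y : Type} [Group X] [Group Y] [Finite X] (π : X →* Y) (P : Sylow p X)
    (hP : (P : Subgroup X) ≤ π.ker) :
    ∃ Q : Sylow p π.ker, Nonempty (NN Q ≃* (π.comp (NN P).subtype).ker) := by
  refine ⟨P.subtype hP, ⟨?_⟩⟩
  have h1 : ∀ x : π.ker, x ∈ NN (P.subtype hP) ↔ (x : X) ∈ NN P := by
    intro x
    rw [Subgroup.mem_normalizer_iff, Subgroup.mem_normalizer_iff]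
    constructor
    · intro h y
      by_cases hy : y ∈ π.ker
      · exact h ⟨y, hy⟩
      · constructor
        · intro h2
          exact absurd (hP h2) hy
        · intro h2
          have h3 := hP h2
          rw [MonoidHom.mem_ker, map_mul, map_mul, map_inv, MonoidHom.mem_ker.mp x.2] at h3
          simp only [one_mul, inv_one, mul_one] at h3
          exact absurd h3 hy
    · intro h y
      exact h y
  exact
    { toFun := fun x => ⟨⟨x.1.1, (h1 x.1).mp x.2⟩, x.1.2⟩
      invFun := fun y => ⟨⟨y.1.1, y.2⟩, (h1 ⟨y.1.1, y.2⟩).mpr y.1.2⟩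
      left_inv := fun _ => rfl
      right_inv := fun _ => rfl
      map_mul' := fun _ _ => rfl }

/-- `V ⋊ X` where the Sylow subgroups of `X` act trivially -/
theorem exists_NN_sd {V X : Type} [CommGroup V] [Group X] [Finite V] [Finite X]
    (ψ : X →* MulAut V) (P : Sylow p X) (hP : ∀ x ∈ P, ψ x = 1)
    (hV : IsPGroup p V ∨ ¬ p ∣ Nat.card V) :
    ∃ Q : Sylow p (V ⋊[ψ] X), Nonempty (NN Q ≃* V ⋊[ψ.comp (NN P).subtype] NN P) := by
  rcases hV with hV | hV
  · exact q_SP p V X ψ hV P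
  · obtain ⟨Q, ⟨e⟩⟩ := q_SQ p V X ψ hV P
    refine ⟨Q, ⟨e.trans ?_⟩⟩
    have h1 : ∀ v : V, v ∈ fixP ψ (P : Subgroup X) := by
      intro v x hx
      rw [hP x hx, MulAut.one_apply]
    exact
      { toFun := fun x => ⟨x.left.1, x.right⟩
        invFun := fun y => ⟨⟨y.left, h1 _⟩, y.right⟩
        left_inv := fun _ => rfl
        right_inv := fun _ => rfl
        map_mul' := fun _ _ => rfl }

end nn

/-! ### the formula for `V ^ k ⋊ X` -/

section formula

variable (Γ : Set (ℂ ≃+* ℂ)) (w : ℕ →* ℂ)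

theorem St_pi {V Y : Type} [CommGroup V] [Group Y] (n : ℕ) (φ : Y →* MulAut V)
    (θ : (Fin n → V) →* ℂˣ) :
    St (piAct n φ) θ = ⨅ i, St φ (Pool.Agent.E8helper8.CQ.toFam n θ i) := by
  ext g
  rw [Subgroup.mem_iInf]
  constructor
  · intro h i v
    have h1 : θ (piAct n φ g (Pi.mulSingle i v)) = θ (Pi.mulSingle i v) :=
      h (Pi.mulSingle i v)
    change θ (Pi.mulSingle i (φ g v)) = θ (Pi.mulSingle i v)
    rw [← h1]
    congr 1
    funext j
    change Pi.mulSingle (M := fun _ => V) i (φ g v) j = φ g (Pi.mulSingle (M := fun _ => V) i v j)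
    by_cases hj : j = i
    · subst hj
      rw [Pi.mulSingle_eq_same, Pi.mulSingle_eq_same]
    · rw [Pi.mulSingle_eq_of_ne hj, Pi.mulSingle_eq_of_ne hj, map_one]
  · intro h v
    change θ (piAct n φ g v) = θ v
    rw [Pool.Agent.E8helper8.CQ.split n θ v, Pool.Agent.E8helper8.CQ.split n θ (piAct n φ g v)]
    refine Finset.prod_congr rfl fun i _ => ?_
    exact h i (v i)

theorem St_comp {V X Y : Type} [CommGroup V] [Group Y] [Group X] (φ : Y →* MulAut V) (π : X →* Y)
    (θ : V →* ℂˣ) : St (φ.comp π) θ = (St φ θ).comap π := rfl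

/-- the contribution of the characters with stabilizer `S` -/
def con {X Y : Type} [Group X] [Group Y] [Finite X] (π : X →* Y) (S : Subgroup Y) : ℂ :=
  (Nat.card S : ℂ) * (w S.index * wf Γ w (S.comap π))

theorem card_comap {X Y : Type} [Group X] [Group Y] [Finite X] [Finite Y] {π : X →* Y}
    (hπ : Function.Surjective π) (S : Subgroup Y) :
    Nat.card (S.comap π) = Nat.card π.ker * Nat.card S := by
  have h1 : (S.comap π).index = S.index := Subgroup.index_comap_of_surjective S hπ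
  have h2 := (S.comap π).index_mul_card
  have h3 := S.index_mul_card
  have h4 : Nat.card X = Nat.card Y * Nat.card π.ker := by
    rw [← π.ker.index_mul_card, Subgroup.index_ker, MonoidHom.range_eq_top.mpr hπ, Subgroup.card_top]
  rw [h1, h4, ← h3] at h2
  have h5 : 0 < S.index := Nat.pos_of_ne_zero S.index_ne_zero_of_finite
  apply Nat.eq_of_mul_eq_mul_left h5
  rw [h2]
  ring

theorem form {X Y V : Type} [Group X] [Group Y] [CommGroup V] [Finite X] [Finite Y] [Finite V]
    {π : X →* Y} (hπ : Function.Surjective π) (φ : Y →* MulAut V) (k : ℕ) [Fintype (V →* ℂˣ)]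
    (hΓ : ∀ θ : V →* ℂˣ, ∀ σ ∈ Γ, ∀ v, σ (θ v : ℂ) = (θ v : ℂ)) :
    (Nat.card Y : ℂ) * wf Γ w ((Fin k → V) ⋊[(piAct k φ).comp π] X) =
      ∑ x : Fin k → (V →* ℂˣ), con Γ w π (⨅ i, St φ (x i)) := by
  haveI := Fintype.ofFinite X
  haveI := Fintype.ofFinite Y
  haveI := Fintype.ofFinite V
  haveI : Fintype ((Fin k → V) →* ℂˣ) := Fintype.ofEquiv _ (Pool.Agent.E8helper8.CQ.toFam k).symm
  have h0 : ∀ θ : (Fin k → V) →* ℂˣ, ∀ σ ∈ Γ, ∀ v, σ (θ v : ℂ) = (θ v : ℂ) := by
    intro θ σ hσ v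
    rw [Pool.Agent.E8helper8.CQ.split k θ v, Units.coe_prod, map_prod]
    refine Finset.prod_congr rfl fun i _ => ?_
    exact hΓ (Pool.Agent.E8helper8.CQ.toFam k θ i) σ hσ (v i)
  have h1 := little Γ w ((piAct k φ).comp π) h0
  have h2 : (Nat.card X : ℂ) = (Nat.card π.ker : ℂ) * (Nat.card Y : ℂ) := by
    rw [← Nat.cast_mul, ← π.ker.index_mul_card, Subgroup.index_ker, MonoidHom.range_eq_top.mpr hπ,
      Subgroup.card_top, mul_comm]
  have h3 : (Nat.card π.ker : ℂ) ≠ 0 := by exact_mod_cast Nat.card_pos.ne'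
  apply mul_left_cancel₀ h3
  rw [← mul_assoc, ← h2, h1, Finset.mul_sum, ← (Pool.Agent.E8helper8.CQ.toFam k).sum_comp]
  refine Finset.sum_congr rfl fun θ _ => ?_
  rw [← St_pi, St_comp, Subgroup.index_comap_of_surjective _ hπ, card_comap hπ]
  unfold con
  push_cast
  ring

/-- a nontrivial automorphism of a finite abelian group moves a linear character -/
theorem exists_moved {V Y : Type} [CommGroup V] [Finite V] [Group Y] (φ : Y →* MulAut V)
    (hφ : Function.Injective φ) (y : Y) (hy : y ≠ 1) : ∃ θ : V →* ℂˣ, y ∉ St φ θ := by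
  by_contra hcon
  push Not at hcon
  apply hy
  apply hφ
  rw [map_one]
  ext v
  rw [MulAut.one_apply]
  by_contra hne
  have h1 : φ y v * v⁻¹ ≠ 1 := by
    rwa [Ne, mul_inv_eq_one]
  haveI : NeZero (Monoid.exponent V) := ⟨Monoid.exponent_ne_zero_of_finite⟩
  obtain ⟨θ, hθ⟩ := CommGroup.exists_apply_ne_one_of_hasEnoughRootsOfUnity V ℂ h1
  apply hθ
  rw [map_mul, map_inv, hcon θ v, mul_inv_cancel]

end formula

theorem le_ker {p : ℕ} [hp : Fact p.Prime] {X Y : Type} [Group X] [Group Y] [Finite X] [Finite Y]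
    (π : X →* Y) (hY : ¬ p ∣ Nat.card Y) (P : Sylow p X) : (P : Subgroup X) ≤ π.ker := by
  have h1 : IsPGroup p ((P : Subgroup X).map π) := P.isPGroup'.map π
  obtain ⟨n, hn⟩ := IsPGroup.iff_card.mp h1
  have h2 : Nat.card ((P : Subgroup X).map π) ∣ Nat.card Y := Subgroup.card_subgroup_dvd_card _
  have h3 : n = 0 := by
    by_contra h
    exact hY ((dvd_pow_self p h).trans (hn ▸ h2))
  rw [h3, pow_zero] at hn
  rw [← Subgroup.map_eq_bot_iff]
  exact Subgroup.card_eq_one.mp hn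

/-- the Frattini argument -/
theorem frattini {p : ℕ} [hp : Fact p.Prime] {X Y : Type} [Group X] [Group Y] [Finite X]
    {π : X →* Y} (hπ : Function.Surjective π) (P : Sylow p X) (hP : (P : Subgroup X) ≤ π.ker) :
    Function.Surjective (π.comp (NN P).subtype) := by
  intro y
  obtain ⟨x, rfl⟩ := hπ y
  have h1 := Sylow.normalizer_sup_eq_top (P.subtype hP)
  have h2 : ((P.subtype hP : Subgroup π.ker).map π.ker.subtype) = (P : Subgroup X) := by
    ext z
    constructor
    · rintro ⟨z', hz', rfl⟩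
      exact hz'
    · intro hz
      exact ⟨⟨z, hP hz⟩, hz, rfl⟩
  rw [h2] at h1
  have h3 : x ∈ Subgroup.normalizer ((P : Subgroup X) : Set X) ⊔ π.ker := by
    rw [h1]
    exact Subgroup.mem_top x
  obtain ⟨a, ha, b, hb, rfl⟩ := Subgroup.mem_sup_of_normal_right.mp h3
  refine ⟨⟨a, ha⟩, ?_⟩
  change π a = π (a * b)
  rw [map_mul, MonoidHom.mem_ker.mp hb, mul_one]

/-- **Theorem A.** -/
theorem thA {p : ℕ} [hp : Fact p.Prime] (Γ : Set (ℂ ≃+* ℂ)) (w : ℕ →* ℂ)
    (hw : ∀ n, w n = 0 ↔ p ∣ n) {X Y V : Type} [Group X] [Group Y] [CommGroup V] [Finite X]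
    [Finite Y] [Finite V] (π : X →* Y) (hπ : Function.Surjective π) (hY : ¬ p ∣ Nat.card Y)
    (φ : Y →* MulAut V) (hφ : Function.Injective φ) (hV : IsPGroup p V ∨ ¬ p ∣ Nat.card V)
    (hΓ : ∀ θ : V →* ℂˣ, ∀ σ ∈ Γ, ∀ v, σ (θ v : ℂ) = (θ v : ℂ))
    (h : ∀ k : ℕ, Good p Γ w ((Fin k → V) ⋊[(piAct k φ).comp π] X)) :
    Good p Γ w π.ker := by
  haveI := Fintype.ofFinite V
  haveI : Fintype (V →* ℂˣ) := Fintype.ofFinite _
  let P : Sylow p X := default
  have hP := le_ker π hY P
  have hs := frattini hπ P hP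
  have h1 : ∀ k : ℕ, wf Γ w ((Fin k → V) ⋊[(piAct k φ).comp π] X) =
      wf Γ w ((Fin k → V) ⋊[(piAct k φ).comp (π.comp (NN P).subtype)] NN P) := by
    intro k
    have h2 : IsPGroup p (Fin k → V) ∨ ¬ p ∣ Nat.card (Fin k → V) := by
      rcases hV with hV | hV
      · left
        obtain ⟨n, hn⟩ := IsPGroup.iff_card.mp hV
        refine IsPGroup.of_card (n := n * k) ?_
        rw [Nat.card_fun, hn, Nat.card_eq_fintype_card, Fintype.card_fin, ← pow_mul]
      · right
        intro h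
        rw [Nat.card_fun] at h
        exact hV (hp.out.dvd_of_dvd_pow h)
    obtain ⟨Q, ⟨e⟩⟩ := exists_NN_sd ((piAct k φ).comp π) P (fun x hx => by
      rw [MonoidHom.comp_apply, MonoidHom.mem_ker.mp (hP hx), map_one]) h2
    rw [h k Q, wf_congr Γ w e]
    rfl
  have h2 := isolate (St φ) (fun S => con Γ w π S - con Γ w (π.comp (NN P).subtype) S)
    (exists_moved φ hφ) (fun k => by
      rw [Finset.sum_sub_distrib, ← form Γ w hπ φ k hΓ, ← form Γ w hs φ k hΓ, h1 k, sub_self])
  simp only [con, Subgroup.index_bot, Subgroup.card_bot, Nat.cast_one, one_mul] at h2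
  rw [← mul_sub] at h2
  rcases mul_eq_zero.mp h2 with h3 | h3
  · exact absurd ((hw _).mp h3) hY
  · obtain ⟨Q, ⟨e⟩⟩ := exists_NN_ker π P hP
    refine good_of Γ w Q ?_
    rw [wf_congr Γ w e]
    exact sub_eq_zero.mp h3

end Pool.Agent.H373.PG
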