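import Pool.Graph.R_pool_sql_team_seeded_5cf16337.K3h3.MK.Main
import Pool.Graph.R_pool_sql_team_seeded_b677cdb8.E8helper60.CQ.Main

/-!
# Weighted numbers of the characters fixed by field automorphisms

`wf Γ w G = ∑ w(χ(1))` over the irreducible characters `χ` of `G` fixed by all `σ ∈ Γ`.
-/

set_option autoImplicit false
set_option linter.unusedSectionVars false
set_option linter.style.haveILetI false

open scoped BigOperators Classical

noncomputable section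

namespace Pool.Agent.H373.PG

open Pool.Agent.Helper884 Pool.Agent.H254R3.IN SemidirectProduct
open Pool.Agent.Q90.WR (irr_comp irr_comp_iff)
open Pool.Agent.K3h3.KB (ndeg ndeg_eq ndeg_cast ndeg_pos)
open Pool.Agent.K3h3.MK (NN)
open IC (Irr)

/-- `χ` is fixed by all `σ ∈ Γ` -/
def fixd (Γ : Set (ℂ ≃+* ℂ)) {G : Type} (χ : G → ℂ) : Prop := ∀ σ ∈ Γ, ∀ g, σ (χ g) = χ g

/-- `∑ w(χ(1))` over the irreducible characters of `G` fixed by `Γ` -/
def wf (Γ : Set (ℂ ≃+* ℂ)) (w : ℕ →* ℂ) (G : Type) [Group G] [Finite G] : ℂ :=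
  letI := Fintype.ofFinite G
  ∑ χ ∈ (Irr G).filter (fixd Γ), w (ndeg χ)

variable (Γ : Set (ℂ ≃+* ℂ)) (w : ℕ →* ℂ)

theorem wf_eq (G : Type) [Group G] [i : Fintype G] :
    wf Γ w G = ∑ χ ∈ (Irr G).filter (fixd Γ), w (ndeg χ) := by
  unfold wf
  have h : Fintype.ofFinite G = i := Subsingleton.elim _ _
  rw [h]

theorem wf_congr {G H : Type} [Group G] [Group H] [Finite G] [Finite H] (e : G ≃* H) :
    wf Γ w G = wf Γ w H := by
  haveI := Fintype.ofFinite G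
  haveI := Fintype.ofFinite H
  rw [wf_eq, wf_eq]
  refine Finset.sum_bij' (fun χ _ => fun h => χ (e.symm h)) (fun χ _ => fun g => χ (e g))
    ?_ ?_ ?_ ?_ ?_
  · intro χ hχ
    rw [Finset.mem_filter] at hχ ⊢
    exact ⟨mem_Irr.mpr (irr_comp e.symm (mem_Irr.mp hχ.1)), fun σ hσ g => hχ.2 σ hσ _⟩
  · intro χ hχ
    rw [Finset.mem_filter] at hχ ⊢
    exact ⟨mem_Irr.mpr (irr_comp e (mem_Irr.mp hχ.1)), fun σ hσ g => hχ.2 σ hσ _⟩
  · intro χ _
    funext g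
    simp
  · intro χ _
    funext g
    simp
  · intro χ _
    unfold ndeg
    simp

section little

open Pool.Agent.E8helper60.CQ

variable {V K : Type} [CommGroup V] [Group K] [Fintype V] [Fintype K] (φ : K →* MulAut V)

/-- the characters of `V ⋊ K` fixed by `Γ` with a nonzero component at `θ` -/
theorem sum_fr (hΓ : ∀ θ : V →* ℂˣ, ∀ σ ∈ Γ, ∀ v, σ (θ v : ℂ) = (θ v : ℂ)) (θ : V →* ℂˣ) :
    ∑ χ ∈ ((Irr (V ⋊[φ] K)).filter (fixd Γ)).filter (fun χ => fr φ θ χ ≠ 0), w (ndeg χ) =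
      w (St φ θ).index * wf Γ w (St φ θ) := by
  rw [wf_eq, Finset.mul_sum]
  have hfixσ : ∀ (χ : V ⋊[φ] K → ℂ), IsIrr χ → fr φ θ χ ≠ 0 →
      (fixd Γ χ ↔ fixd Γ (fr φ θ χ)) := by
    intro χ hχ h0
    have h1 := (q_FIX V K φ χ hχ θ h0).2
    have hcl : IC.IsClass (fr φ θ χ) := by
      intro g y
      exact (q_ORB V K φ χ hχ).2.1 θ h0 |>.1.isClass g y
    constructor
    · intro h2 σ hσ y
      obtain ⟨k, hk1, hk2⟩ := (h1 σ).mp (h2 σ hσ)
      have hg : gal σ θ = θ := by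
        ext v
        exact hΓ θ σ hσ v
      have hkS : k ∈ St φ θ := by
        intro v
        have := DFunLike.congr_fun hk1 v
        rw [hg] at this
        exact this.symm
      have h3 := hk2 y (⟨k, hkS⟩ * y * (⟨k, hkS⟩ : St φ θ)⁻¹) rfl
      rw [h3, hcl]
    · intro h2 σ hσ
      refine (h1 σ).mpr ⟨1, ?_, ?_⟩
      · ext v
        change σ (θ v : ℂ) = (θ (φ 1 v) : ℂ)
        rw [map_one]
        exact hΓ θ σ hσ v
      · intro y y' hy
        have : y' = y := by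
          apply Subtype.ext
          rw [hy]
          simp
        rw [this]
        exact h2 σ hσ y
  refine Finset.sum_bij (fun χ _ => fr φ θ χ) ?_ ?_ ?_ ?_
  · intro χ hχ
    rw [Finset.mem_filter, Finset.mem_filter, mem_Irr] at hχ
    rw [Finset.mem_filter, mem_Irr]
    exact ⟨((q_ORB V K φ χ hχ.1.1).2.1 θ hχ.2).1, (hfixσ χ hχ.1.1 hχ.2).mp hχ.1.2⟩
  · intro χ hχ χ' hχ' h
    rw [Finset.mem_filter, Finset.mem_filter, mem_Irr] at hχ hχ'
    exact (q_ORB V K φ χ hχ.1.1).2.2 θ χ' hχ'.1.1 hχ.2 h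
  · intro ψ hψ
    rw [Finset.mem_filter, mem_Irr] at hψ
    obtain ⟨χ, h1, h2⟩ := q_SUR V K φ θ ψ hψ.1
    have h0 : fr φ θ χ ≠ 0 := by
      rw [h2]
      intro h
      obtain ⟨n, hn, h3⟩ := IsIrr.deg hψ.1
      rw [h] at h3
      have h4 : (n : ℂ) = 0 := h3
      exact hn.ne' (by exact_mod_cast h4)
    refine ⟨χ, ?_, h2⟩
    rw [Finset.mem_filter, Finset.mem_filter, mem_Irr]
    refine ⟨⟨h1, (hfixσ χ h1 h0).mpr ?_⟩, h0⟩
    rw [h2]
    exact hψ.2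
  · intro χ hχ
    rw [Finset.mem_filter, Finset.mem_filter, mem_Irr] at hχ
    have h1 := (q_FIX V K φ χ hχ.1.1 θ hχ.2).1
    have h2 := ((q_ORB V K φ χ hχ.1.1).2.1 θ hχ.2).1
    rw [← map_mul]
    congr 1
    apply ndeg_eq
    rw [h1]
    push_cast
    rw [ndeg_cast h2]

/-- **the little groups** -/
theorem little [Fintype (V →* ℂˣ)]
    (hΓ : ∀ θ : V →* ℂˣ, ∀ σ ∈ Γ, ∀ v, σ (θ v : ℂ) = (θ v : ℂ)) :
    (Nat.card K : ℂ) * wf Γ w (V ⋊[φ] K) =
      ∑ θ : V →* ℂˣ, (Nat.card (St φ θ) : ℂ) * (w (St φ θ).index * wf Γ w (St φ θ)) := by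
  have h1 : ∀ θ : V →* ℂˣ, (Nat.card (St φ θ) : ℂ) * (w (St φ θ).index * wf Γ w (St φ θ)) =
      ∑ χ ∈ (Irr (V ⋊[φ] K)).filter (fixd Γ),
        if fr φ θ χ ≠ 0 then (Nat.card (St φ θ) : ℂ) * w (ndeg χ) else 0 := by
    intro θ
    rw [← sum_fr Γ w φ hΓ θ, Finset.mul_sum, Finset.sum_filter]
  simp_rw [h1]
  rw [Finset.sum_comm, wf_eq, Finset.mul_sum]
  refine Finset.sum_congr rfl fun χ hχ => ?_
  rw [Finset.mem_filter, mem_Irr] at hχ
  obtain ⟨⟨θ₀, h0⟩, h2, -⟩ := q_ORB V K φ χ hχ.1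
  have h3 := (h2 θ₀ h0).2
  have h4 : ∀ θ : V →* ℂˣ, (if fr φ θ χ ≠ 0 then (Nat.card (St φ θ) : ℂ) * w (ndeg χ) else 0) =
      if ∃ k : K, θ = tw φ k θ₀ then (Nat.card (St φ θ₀) : ℂ) * w (ndeg χ) else 0 := by
    intro θ
    by_cases h : ∃ k : K, θ = tw φ k θ₀
    · rw [if_pos h, if_pos ((h3 θ).2 h)]
      obtain ⟨k, rfl⟩ := h
      rw [((q_NUM V K φ θ₀).2 k).2]
    · rw [if_neg h, if_neg (fun h4 => h ((h3 θ).1 h4))]
  simp_rw [h4]
  rw [← Finset.sum_filter, Finset.sum_const, nsmul_eq_mul, ← mul_assoc]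
  congr 1
  have h5 : (Finset.univ.filter fun θ : V →* ℂˣ => ∃ k : K, θ = tw φ k θ₀).card =
      (St φ θ₀).index := by
    rw [← (q_NUM V K φ θ₀).1, Nat.card_eq_fintype_card, Fintype.card_subtype]
  rw [h5]
  have := (St φ θ₀).index_mul_card
  exact_mod_cast this.symm

end little

end Pool.Agent.H373.PG
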